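import Pool.Agent.Lib.MP_586990_lc.Defs

set_option autoImplicit false

/-!
# Uniformly definable relations on partial orders
-/

namespace Pool.Agent.Lib.MP_586990_lc

open FirstOrder FirstOrder.Language

/-- The relation `R` of `k` elements of partial orders is defined by a first-order formula. -/
def UD (k : ℕ) (R : ∀ (M : Type), PartialOrder M → (Fin k → M) → Prop) : Prop :=
  ∃ φ : FirstOrder.Language.order.Formula (Fin k),
    ∀ (M : Type) (i : PartialOrder M) (v : Fin k → M),
      @FirstOrder.Language.Formula.Realize FirstOrder.Language.order M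
        (FirstOrder.Language.orderStructure M) (Fin k) φ v ↔ R M i v

namespace UD

variable {k l : ℕ} {R Q : ∀ (M : Type), PartialOrder M → (Fin k → M) → Prop}

theorem lt (x y : Fin k) : UD k fun M _ v => v x < v y := by
  refine ⟨(Term.le (.var (Sum.inl x)) (.var (Sum.inl y)) :
    FirstOrder.Language.order.BoundedFormula (Fin k) 0) ⊓
    BoundedFormula.not (Term.le (.var (Sum.inl y)) (.var (Sum.inl x))), fun M i v => ?_⟩
  let _ := FirstOrder.Language.orderStructure M
  have : FirstOrder.Language.order.OrderedStructure M := ⟨fun _ => Iff.rfl⟩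
  rw [Formula.Realize, BoundedFormula.realize_inf, BoundedFormula.realize_not,
    Term.realize_le, Term.realize_le]
  exact lt_iff_le_not_ge.symm

theorem eq (x y : Fin k) : UD k fun M _ v => v x = v y := by
  refine ⟨Term.equal (.var x) (.var y), fun M i v => ?_⟩
  let _ := FirstOrder.Language.orderStructure M
  rw [Formula.realize_equal]
  rfl

theorem not (h : UD k R) : UD k fun M i v => ¬ R M i v := by
  obtain ⟨φ, hφ⟩ := h
  refine ⟨Formula.not φ, fun M i v => ?_⟩
  let _ := FirstOrder.Language.orderStructure M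
  rw [Formula.realize_not, hφ M i v]

theorem and (h : UD k R) (h' : UD k Q) : UD k fun M i v => R M i v ∧ Q M i v := by
  obtain ⟨φ, hφ⟩ := h
  obtain ⟨ψ, hψ⟩ := h'
  refine ⟨φ ⊓ ψ, fun M i v => ?_⟩
  let _ := FirstOrder.Language.orderStructure M
  rw [Formula.realize_inf, hφ M i v, hψ M i v]

theorem or (h : UD k R) (h' : UD k Q) : UD k fun M i v => R M i v ∨ Q M i v := by
  obtain ⟨φ, hφ⟩ := h
  obtain ⟨ψ, hψ⟩ := h'
  refine ⟨φ ⊔ ψ, fun M i v => ?_⟩
  let _ := FirstOrder.Language.orderStructure M
  rw [Formula.realize_sup, hφ M i v, hψ M i v]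

theorem imp (h : UD k R) (h' : UD k Q) : UD k fun M i v => R M i v → Q M i v := by
  obtain ⟨φ, hφ⟩ := h
  obtain ⟨ψ, hψ⟩ := h'
  refine ⟨Formula.imp φ ψ, fun M i v => ?_⟩
  let _ := FirstOrder.Language.orderStructure M
  rw [Formula.realize_imp, hφ M i v, hψ M i v]

theorem iff (h : UD k R) (h' : UD k Q) : UD k fun M i v => (R M i v ↔ Q M i v) := by
  obtain ⟨φ, hφ⟩ := h
  obtain ⟨ψ, hψ⟩ := h'
  refine ⟨Formula.iff φ ψ, fun M i v => ?_⟩
  let _ := FirstOrder.Language.orderStructure M
  rw [Formula.realize_iff, hφ M i v, hψ M i v]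

theorem const (p : Prop) : UD k fun _ _ _ => p := by
  by_cases hp : p
  · refine ⟨⊤, fun M i v => ?_⟩
    let _ := FirstOrder.Language.orderStructure M
    rw [Formula.realize_top]
    exact (iff_true_intro hp).symm
  · refine ⟨⊥, fun M i v => ?_⟩
    let _ := FirstOrder.Language.orderStructure M
    rw [Formula.realize_bot]
    exact (iff_false_intro hp).symm

theorem sub (h : UD k R) (f : Fin k → Fin l) : UD l fun M i v => R M i fun j => v (f j) := by
  obtain ⟨φ, hφ⟩ := h
  refine ⟨φ.relabel f, fun M i v => ?_⟩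
  let _ := FirstOrder.Language.orderStructure M
  rw [Formula.realize_relabel]
  exact hφ M i _

theorem exFin {s : ℕ} {R : ∀ (M : Type), PartialOrder M → (Fin k → M) → (Fin s → M) → Prop}
    (h : UD (k + s) fun M i v => R M i (fun j => v (Fin.castAdd s j)) fun j => v (Fin.natAdd k j)) :
    UD k fun M i v => ∃ g : Fin s → M, R M i v g := by
  obtain ⟨φ, hφ⟩ := h
  refine ⟨Formula.iExs (Fin s) (φ.relabel finSumFinEquiv.symm), fun M i v => ?_⟩
  let _ := FirstOrder.Language.orderStructure M
  rw [Formula.realize_iExs]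
  refine exists_congr fun g => ?_
  rw [Formula.realize_relabel, hφ M i]
  have h1 : (fun j => (Sum.elim v g ∘ finSumFinEquiv.symm) (Fin.castAdd s j)) = v := by
    funext j; simp
  have h2 : (fun j => (Sum.elim v g ∘ finSumFinEquiv.symm) (Fin.natAdd k j)) = g := by
    funext j; simp
  change R M i (fun j => (Sum.elim v g ∘ finSumFinEquiv.symm) (Fin.castAdd s j))
    (fun j => (Sum.elim v g ∘ finSumFinEquiv.symm) (Fin.natAdd k j)) ↔ _
  rw [h1, h2]

theorem ex {R : ∀ (M : Type), PartialOrder M → (Fin k → M) → M → Prop}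
    (h : UD (k + 1) fun M i v => R M i (fun j => v j.succ) (v 0)) :
    UD k fun M i v => ∃ a, R M i v a := by
  have h1 : UD (k + 1) fun M i v => R M i (fun j => v (Fin.castAdd 1 j)) (v (Fin.natAdd k 0)) := by
    have h2 := h.sub (Fin.cons (Fin.natAdd k 0) (fun j => Fin.castAdd 1 j) :
      Fin (k + 1) → Fin (k + 1))
    simpa only [Fin.cons_succ, Fin.cons_zero] using h2
  have h3 := exFin (s := 1) (R := fun M i v g => R M i v (g 0)) h1
  obtain ⟨φ, hφ⟩ := h3
  refine ⟨φ, fun M i v => ?_⟩
  rw [hφ M i v]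
  exact ⟨fun ⟨g, hg⟩ => ⟨g 0, hg⟩, fun ⟨a, ha⟩ => ⟨fun _ => a, ha⟩⟩

theorem all {R : ∀ (M : Type), PartialOrder M → (Fin k → M) → M → Prop}
    (h : UD (k + 1) fun M i v => R M i (fun j => v j.succ) (v 0)) :
    UD k fun M i v => ∀ a, R M i v a := by
  have h1 := (ex (R := fun M i v a => ¬ R M i v a) h.not).not
  simpa only [not_exists, not_not] using h1

theorem exType {ι : Type} [Finite ι] {R : ι → ∀ (M : Type), PartialOrder M → (Fin k → M) → Prop}
    (h : ∀ a, UD k (R a)) : UD k fun M i v => ∃ a, R a M i v := by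
  choose φ hφ using h
  refine ⟨BoundedFormula.iSup φ, fun M i v => ?_⟩
  let _ := FirstOrder.Language.orderStructure M
  rw [Formula.Realize, BoundedFormula.realize_iSup]
  exact exists_congr fun a => hφ a M i v

theorem allType {ι : Type} [Finite ι] {R : ι → ∀ (M : Type), PartialOrder M → (Fin k → M) → Prop}
    (h : ∀ a, UD k (R a)) : UD k fun M i v => ∀ a, R a M i v := by
  choose φ hφ using h
  refine ⟨BoundedFormula.iInf φ, fun M i v => ?_⟩
  let _ := FirstOrder.Language.orderStructure M
  rw [Formula.Realize, BoundedFormula.realize_iInf]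
  exact forall_congr' fun a => hφ a M i v

end UD

theorem UD.sentence {R : ∀ (M : Type), PartialOrder M → Prop} (h : UD 0 fun M i _ => R M i) :
    ∃ ψ : FirstOrder.Language.order.Sentence, ∀ (M : Type) (i : PartialOrder M),
      @Tr M i ψ ↔ R M i := by
  obtain ⟨φ, hφ⟩ := h
  refine ⟨Formula.relabel (fun j : Fin 0 => j.elim0) φ, fun M i => ?_⟩
  let _ := FirstOrder.Language.orderStructure M
  unfold Tr
  rw [Sentence.Realize, Formula.realize_relabel]
  exact hφ M i _

end Pool.Agent.Lib.MP_586990_lc
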