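import Pool.Agent.Lib.MP_586990_lc.PMod

set_option autoImplicit false

/-!
# Decoding
-/

namespace Pool.Agent.Lib.MP_586990_lc

/-- The number of elements is the sum of the sizes of the classes. -/
theorem Decode_card {M : Type} [Finite M] (P : ℕ) (pos : M → ℕ) (h : ∀ x, pos x < P) :
    Nat.card M = ∑ i ∈ Finset.range P, Nat.card {y : M // pos y = i} := by
  classical
  have : Fintype M := Fintype.ofFinite M
  rw [Nat.card_eq_fintype_card, ← Finset.card_univ,
    Finset.card_eq_sum_card_fiberwise (f := pos) (t := Finset.range P)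
      (fun x _ => by simpa using h x)]
  refine Finset.sum_congr rfl fun i _ => ?_
  rw [Nat.card_eq_fintype_card, Fintype.card_subtype]

theorem PM.decode {M : Type} [PartialOrder M] [Finite M] {P K : ℕ} {pos : M → ℕ}
    (h : PM M P K pos) {ℓ : ℕ} {T : TileSys (Fin ℓ)} (ok : Ok T M) :
    ∃ (N m : ℕ) (f : ℕ → Fin ℓ), T.Sat N m f ∧ Nat.card M = (2 * ℓ + 1) * N := by
  have hK0 := h.K0
  have hKP := h.KP
  -- the sizes
  obtain ⟨S, hS⟩ : ∃ S : ℕ → ℕ, ∀ i, S i = Nat.card {y : M // pos y = i} := ⟨_, fun _ => rfl⟩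
  have hSz : ∀ (s : ℕ) (x : M), Sz s x ↔ S (pos x) = s := fun s x => by rw [h.Sz_iff, hS]
  have hLab : ∀ (a : Fin ℓ) (x : M), Lab a x ↔
      S (pos x) = (a : ℕ) + 1 ∧ pos x + 1 < P ∧ S (pos x + 1) = 2 * ℓ - a := by
    intro a x
    unfold Lab
    rw [hSz]
    refine and_congr_right fun _ => ⟨?_, ?_⟩
    · rintro ⟨y, hy, hy2⟩
      rw [h.Suc_iff] at hy
      rw [hSz, hy] at hy2
      exact ⟨hy ▸ h.lt y, hy2⟩
    · rintro ⟨h1, h2⟩
      obtain ⟨y, hy⟩ := h.surj _ h1
      exact ⟨y, h.Suc_iff.2 hy, by rw [hSz, hy]; exact h2⟩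
  let FP : ℕ → Prop := fun i => ∃ a : Fin ℓ,
    S i = (a : ℕ) + 1 ∧ i + 1 < P ∧ S (i + 1) = 2 * ℓ - a
  let SP : ℕ → Prop := fun i => ∃ a : Fin ℓ, S i = 2 * ℓ - a
  have hFs : ∀ x : M, Fs ℓ x ↔ FP (pos x) := fun x => exists_congr fun a => hLab a x
  have hSn : ∀ x : M, Sn ℓ x ↔ SP (pos x) := fun x => exists_congr fun a => hSz _ x
  have hexcl : ∀ i, FP i → SP i → False := by
    rintro i ⟨a, ha, _⟩ ⟨b, hb⟩
    have h1 := a.2
    have h2 := b.2
    omega
  have hFS : ∀ i, FP i → SP (i + 1) := by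
    rintro i ⟨a, _, _, ha⟩
    exact ⟨a, ha⟩
  have h0 : FP 0 := by
    obtain ⟨x, hx⟩ := h.surj 0 (by omega)
    have h1 := ok.lab0 x (by
      rintro ⟨z, hz⟩
      rw [h.Lt_iff, hx] at hz
      omega)
    rwa [hFs, hx] at h1
  have hSF : ∀ i, i + 1 < P → SP i → FP (i + 1) := by
    intro i hi hs
    obtain ⟨x, hx⟩ := h.surj i (by omega)
    obtain ⟨y, hy⟩ := h.surj (i + 1) hi
    have h1 := ok.lab1 x y (by rw [h.Suc_iff, hx, hy]) (by rwa [hSn, hx])
    rwa [hFs, hy] at h1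
  have hpar : ∀ n, (2 * n < P → FP (2 * n)) ∧ (2 * n + 1 < P → SP (2 * n + 1)) := by
    intro n
    induction n with
    | zero => exact ⟨fun _ => h0, fun _ => hFS 0 h0⟩
    | succ n ih =>
      have h1 : 2 * (n + 1) < P → FP (2 * (n + 1)) := fun hn =>
        hSF (2 * n + 1) (by omega) (ih.2 (by omega))
      exact ⟨h1, fun hn => hFS _ (h1 (by omega))⟩
  -- the number of positions is even
  obtain ⟨N, hN⟩ : ∃ N, P = 2 * N := by
    refine ⟨P / 2, ?_⟩
    by_contra hne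
    have h1 : 2 * (P / 2) < P := by omega
    obtain ⟨a, _, h2, _⟩ := (hpar (P / 2)).1 h1
    omega
  -- the shift is even
  obtain ⟨m, hm⟩ : ∃ m, K = 2 * m := by
    refine ⟨K / 2, ?_⟩
    by_contra hne
    have h1 : 2 * (K / 2) + 1 = K := by omega
    have h2 := (hpar (K / 2)).2 (by omega)
    rw [h1] at h2
    refine hexcl K ?_ h2
    obtain ⟨x, hx⟩ := h.surj 0 (by omega)
    obtain ⟨y, hy⟩ := h.surj K (by omega)
    have h3 := ok.labS x y (by rw [h.Sh_iff, hx, hy, zero_add]) (by rwa [hFs, hx])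
    rwa [hFs, hy] at h3
  subst hN hm
  have hf : ∀ k, ∃ a : Fin ℓ, k < N → S (2 * k) = (a : ℕ) + 1 ∧ 2 * k + 1 < 2 * N ∧
      S (2 * k + 1) = 2 * ℓ - a := by
    intro k
    by_cases hk : k < N
    · obtain ⟨a, ha⟩ := (hpar k).1 (by omega)
      exact ⟨a, fun _ => ha⟩
    · obtain ⟨a, _⟩ := h0
      exact ⟨a, fun h' => absurd h' hk⟩
  choose f hf using hf
  have hL : ∀ k, k < N → ∀ x : M, pos x = 2 * k → Lab (f k) x := by
    intro k hk x hx
    rw [hLab, hx]
    exact hf k hk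
  refine ⟨N, m, f, ?_, ?_⟩
  · refine ⟨by omega, by omega, ?_, ?_, ?_, ?_, ?_, ?_, ?_, ?_⟩
    · intro k hk
      obtain ⟨x, hx⟩ := h.surj (2 * k) (by omega)
      exact ok.cell _ x (hL k hk x hx)
    · obtain ⟨x, hx⟩ := h.surj (2 * 0) (by omega)
      refine ok.init _ x (hL 0 (by omega) x hx) ?_
      rintro ⟨z, hz⟩
      rw [h.Lt_iff, hx] at hz
      omega
    · obtain ⟨x, hx⟩ := h.surj (2 * (N - 1)) (by omega)
      refine ok.last _ x (hL (N - 1) (by omega) x hx) ?_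
      rintro ⟨z, hz⟩
      rw [h.Nx_iff, hx] at hz
      have := h.lt z
      omega
    · intro k hk
      obtain ⟨x, hx⟩ := h.surj (2 * k) (by omega)
      refine ok.row0 _ x (hL k (by omega) x hx) ?_
      rintro ⟨z, hz⟩
      rw [h.rel, hx] at hz
      omega
    · intro k hk hk2
      obtain ⟨x, hx⟩ := h.surj (2 * k) (by omega)
      refine ok.rowL _ x (hL k hk x hx) ?_
      rintro ⟨z, hz⟩
      rw [h.rel, hx] at hz
      have := h.lt z
      omega
    · intro k hk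
      obtain ⟨x, hx⟩ := h.surj (2 * k) (by omega)
      obtain ⟨y, hy⟩ := h.surj (2 * (k + 1)) (by omega)
      refine ok.hor _ _ x y (hL k (by omega) x hx) (hL (k + 1) hk y hy) ?_
      rw [h.Nx_iff, hx, hy]
      ring
    · intro k hk
      obtain ⟨x, hx⟩ := h.surj (2 * k) (by omega)
      obtain ⟨y, hy⟩ := h.surj (2 * (k + m)) (by omega)
      refine ok.ver _ _ x y (hL k (by omega) x hx) (hL (k + m) hk y hy) ?_
      rw [h.Sh_iff, hx, hy]
      ring
    · intro k hk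
      obtain ⟨x, hx⟩ := h.surj (2 * k) (by omega)
      obtain ⟨y, hy⟩ := h.surj (2 * (k + m)) (by omega)
      obtain ⟨z, hz⟩ := h.surj (2 * (k + m + 1)) (by omega)
      refine ok.dia _ _ x y z (hL k (by omega) x hx) (hL (k + m + 1) hk z hz) ?_ ?_
      · rw [h.Sh_iff, hx, hy]
        ring
      · rw [h.Nx_iff, hy, hz]
        ring
  · rw [Decode_card (2 * N) pos h.lt]
    simp only [← hS]
    have key : ∀ n, n ≤ N → ∑ i ∈ Finset.range (2 * n), S i = (2 * ℓ + 1) * n := by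
      intro n
      induction n with
      | zero => intro _; simp
      | succ n ih =>
        intro hn
        rw [show 2 * (n + 1) = 2 * n + 1 + 1 by ring, Finset.sum_range_succ,
          Finset.sum_range_succ, ih (by omega)]
        obtain ⟨h1, _, h2⟩ := hf n (by omega)
        have h3 := (f n).2
        rw [h1, h2, Nat.mul_succ]
        omega
    exact key N le_rfl

end Pool.Agent.Lib.MP_586990_lc
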