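import Pool.Agent.Lib.MP_586990_lc.Rel

set_option autoImplicit false

/-!
# The coded semiorder
-/

namespace Pool.Agent.Lib.MP_586990_lc

/-- The order given by positions and the shift by `K`. -/
@[reducible]
def shiftPO {X : Type} (pos : X → ℕ) (K : ℕ) (hK : 0 < K) : PartialOrder X where
  le x y := x = y ∨ pos x + K ≤ pos y
  le_refl x := Or.inl rfl
  le_trans := by
    rintro x y z (rfl | h1) (rfl | h2)
    · exact Or.inl rfl
    · exact Or.inr h2
    · exact Or.inr h1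
    · exact Or.inr (by omega)
  le_antisymm := by
    rintro x y (h1 | h1) (h2 | h2)
    · exact h1
    · exact h1
    · exact h2.symm
    · omega

/-- The position in the code. -/
def encPos {ℓ : ℕ} (N : ℕ) (f : ℕ → Fin ℓ) (x : Fin N × Fin (2 * ℓ + 1)) : ℕ :=
  2 * (x.1 : ℕ) + if (x.2 : ℕ) ≤ (f x.1 : ℕ) then 0 else 1

theorem Enc_pos_even {ℓ N : ℕ} (f : ℕ → Fin ℓ) (y : Fin N × Fin (2 * ℓ + 1)) (k : ℕ) :
    encPos N f y = 2 * k ↔ (y.1 : ℕ) = k ∧ (y.2 : ℕ) ≤ (f k : ℕ) := by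
  unfold encPos
  constructor
  · intro h
    split_ifs at h with h1
    · have h2 : (y.1 : ℕ) = k := by omega
      rw [h2] at h1
      exact ⟨h2, h1⟩
    · omega
  · rintro ⟨h1, h2⟩
    rw [← h1] at h2 ⊢
    rw [if_pos h2, add_zero]

theorem Enc_pos_odd {ℓ N : ℕ} (f : ℕ → Fin ℓ) (y : Fin N × Fin (2 * ℓ + 1)) (k : ℕ) :
    encPos N f y = 2 * k + 1 ↔ (y.1 : ℕ) = k ∧ (f k : ℕ) < (y.2 : ℕ) := by
  unfold encPos
  constructor
  · intro h
    split_ifs at h with h1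
    · omega
    · have h2 : (y.1 : ℕ) = k := by omega
      rw [h2] at h1
      exact ⟨h2, not_le.1 h1⟩
  · rintro ⟨h1, h2⟩
    rw [← h1] at h2 ⊢
    rw [if_neg (not_le.2 h2)]

theorem enc_PM {ℓ : ℕ} (f : ℕ → Fin ℓ) {N m : ℕ} (hm : 0 < m) (hN : 2 * m ≤ N) :
    @PM (Fin N × Fin (2 * ℓ + 1)) (shiftPO (encPos N f) (2 * m) (by omega)) (2 * N) (2 * m)
      (encPos N f) := by
  refine @PM.mk _ (shiftPO (encPos N f) (2 * m) (by omega)) _ _ _ ?_ ?_ ?_ (by omega) (by omega)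
  · intro x
    have h1 := x.1.2
    unfold encPos
    split_ifs <;> omega
  · intro i hi
    rcases Nat.even_or_odd' i with ⟨k, rfl | rfl⟩
    · refine ⟨(⟨k, by omega⟩, ⟨0, by omega⟩), (Enc_pos_even f _ k).2 ⟨rfl, Nat.zero_le _⟩⟩
    · refine ⟨(⟨k, by omega⟩, ⟨2 * ℓ, by omega⟩), (Enc_pos_odd f _ k).2 ⟨rfl, ?_⟩⟩
      have h1 := (f k).2
      change ((f k : Fin ℓ) : ℕ) < 2 * ℓ
      omega
  · intro x y
    change ((x = y ∨ encPos N f x + 2 * m ≤ encPos N f y) ∧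
      ¬ (y = x ∨ encPos N f y + 2 * m ≤ encPos N f x)) ↔ _
    constructor
    · rintro ⟨h1 | h1, h2⟩
      · exact absurd (Or.inl h1.symm) h2
      · exact h1
    · intro h
      refine ⟨Or.inr h, ?_⟩
      rintro (h1 | h1)
      · rw [h1] at h
        omega
      · omega

theorem enc_card0 {ℓ : ℕ} (f : ℕ → Fin ℓ) {N k : ℕ} (hk : k < N) :
    Nat.card {y : Fin N × Fin (2 * ℓ + 1) // encPos N f y = 2 * k} = (f k : ℕ) + 1 := by
  have hf := (f k).2
  have e : {y : Fin N × Fin (2 * ℓ + 1) // encPos N f y = 2 * k} ≃ Fin ((f k : ℕ) + 1) :=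
    { toFun := fun y => ⟨(y.1.2 : ℕ), Nat.lt_succ_of_le ((Enc_pos_even f y.1 k).1 y.2).2⟩
      invFun := fun s => ⟨(⟨k, hk⟩, ⟨(s : ℕ), by have := s.2; omega⟩),
        (Enc_pos_even f _ k).2 ⟨rfl, Nat.le_of_lt_succ s.2⟩⟩
      left_inv := by
        rintro ⟨⟨a, b⟩, h⟩
        have h1 := ((Enc_pos_even f (a, b) k).1 h).1
        apply Subtype.ext
        apply Prod.ext
        · exact Fin.ext h1.symm
        · rfl
      right_inv := fun s => rfl }
  rw [Nat.card_congr e, Nat.card_eq_fintype_card, Fintype.card_fin]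

theorem enc_card1 {ℓ : ℕ} (f : ℕ → Fin ℓ) {N k : ℕ} (hk : k < N) :
    Nat.card {y : Fin N × Fin (2 * ℓ + 1) // encPos N f y = 2 * k + 1} = 2 * ℓ - f k := by
  have hf := (f k).2
  have e : {y : Fin N × Fin (2 * ℓ + 1) // encPos N f y = 2 * k + 1} ≃
      Fin (2 * ℓ - (f k : ℕ)) :=
    { toFun := fun y => ⟨(y.1.2 : ℕ) - ((f k : ℕ) + 1), by
        have h1 := ((Enc_pos_odd f y.1 k).1 y.2).2
        have h2 := y.1.2.2
        omega⟩
      invFun := fun s => ⟨(⟨k, hk⟩, ⟨(s : ℕ) + ((f k : ℕ) + 1), by have := s.2; omega⟩),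
        (Enc_pos_odd f _ k).2 ⟨rfl, by
          change (f k : ℕ) < (s : ℕ) + ((f k : ℕ) + 1)
          omega⟩⟩
      left_inv := by
        rintro ⟨⟨a, b⟩, h⟩
        have h1 := (Enc_pos_odd f (a, b) k).1 h
        have h2 := h1.2
        apply Subtype.ext
        apply Prod.ext
        · exact Fin.ext h1.1.symm
        · apply Fin.ext
          change (b : ℕ) - ((f k : ℕ) + 1) + ((f k : ℕ) + 1) = b
          change (f k : ℕ) < (b : ℕ) at h2
          omega
      right_inv := fun s => by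
        apply Fin.ext
        change (s : ℕ) + ((f k : ℕ) + 1) - ((f k : ℕ) + 1) = s
        omega }
  rw [Nat.card_congr e, Nat.card_eq_fintype_card, Fintype.card_fin]

end Pool.Agent.Lib.MP_586990_lc
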