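import Pool.Agent.Lib.MP_586990_lc.PMod
import Pool.Agent.Lib.MP_586990_lc.Enc

set_option autoImplicit false

/-!
# The coded semiorder satisfies the conditions
-/

namespace Pool.Agent.Lib.MP_586990_lc

/-- Labels in a position model whose class sizes are given by `f`. -/
theorem PM.Lab_iff {M : Type} [PartialOrder M] [Finite M] {N K ℓ : ℕ} {pos : M → ℕ}
    (h : PM M (2 * N) K pos) (f : ℕ → Fin ℓ)
    (h0 : ∀ k, k < N → Nat.card {y : M // pos y = 2 * k} = (f k : ℕ) + 1)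
    (h1 : ∀ k, k < N → Nat.card {y : M // pos y = 2 * k + 1} = 2 * ℓ - f k) {a : Fin ℓ} {x : M} :
    Lab a x ↔ ∃ k, pos x = 2 * k ∧ f k = a := by
  constructor
  · rintro ⟨hs, -⟩
    have h2 := (h.Sz_iff).1 hs
    have h3 := h.lt x
    have ha := a.2
    rcases Nat.even_or_odd' (pos x) with ⟨k, hk | hk⟩
    · refine ⟨k, hk, Fin.ext ?_⟩
      have hkN : k < N := by omega
      rw [hk, h0 k hkN] at h2
      omega
    · exfalso
      have hkN : k < N := by omega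
      have hf := (f k).2
      rw [hk, h1 k hkN] at h2
      omega
  · rintro ⟨k, hk, rfl⟩
    have h3 := h.lt x
    have hkN : k < N := by omega
    obtain ⟨y, hy⟩ := h.surj (2 * k + 1) (by omega)
    refine ⟨(h.Sz_iff).2 ?_, y, (h.Suc_iff).2 (by omega), (h.Sz_iff).2 ?_⟩
    · rw [hk, h0 k hkN]
    · rw [hy, h1 k hkN]

/-- Odd positions. -/
private theorem encOk_Sn {M : Type} [PartialOrder M] [Finite M] {N K ℓ : ℕ} {pos : M → ℕ}
    (h : PM M (2 * N) K pos) (f : ℕ → Fin ℓ)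
    (h0 : ∀ k, k < N → Nat.card {y : M // pos y = 2 * k} = (f k : ℕ) + 1)
    (h1 : ∀ k, k < N → Nat.card {y : M // pos y = 2 * k + 1} = 2 * ℓ - f k) {x : M} :
    Sn ℓ x ↔ ∃ k, pos x = 2 * k + 1 := by
  constructor
  · rintro ⟨a, hs⟩
    have h2 := (h.Sz_iff).1 hs
    have h3 := h.lt x
    have ha := a.2
    rcases Nat.even_or_odd' (pos x) with ⟨k, hk | hk⟩
    · exfalso
      have hkN : k < N := by omega
      have hf := (f k).2
      rw [hk, h0 k hkN] at h2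
      omega
    · exact ⟨k, hk⟩
  · rintro ⟨k, hk⟩
    have h3 := h.lt x
    exact ⟨f k, (h.Sz_iff).2 (by rw [hk, h1 k (by omega)])⟩

/-- The conditions hold in a position model. -/
private theorem encOk_ok {ℓ : ℕ} {T : TileSys (Fin ℓ)} {N m : ℕ} {f : ℕ → Fin ℓ}
    (h : T.Sat N m f) {M : Type} [PartialOrder M] [Finite M] {pos : M → ℕ}
    (P : PM M (2 * N) (2 * m) pos)
    (h0 : ∀ k, k < N → Nat.card {y : M // pos y = 2 * k} = (f k : ℕ) + 1)
    (h1 : ∀ k, k < N → Nat.card {y : M // pos y = 2 * k + 1} = 2 * ℓ - f k) : Ok T M := by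
  have hpos := h.pos
  have hle := h.le
  have hL : ∀ (a : Fin ℓ) (x : M), Lab a x ↔ ∃ k, pos x = 2 * k ∧ f k = a :=
    fun a x => P.Lab_iff f h0 h1
  have hS : ∀ x : M, Sn ℓ x ↔ ∃ k, pos x = 2 * k + 1 := fun x => encOk_Sn P f h0 h1
  have hF : ∀ x : M, Fs ℓ x ↔ ∃ k, pos x = 2 * k := by
    intro x
    constructor
    · rintro ⟨a, ha⟩
      obtain ⟨k, hk, -⟩ := (hL a x).1 ha
      exact ⟨k, hk⟩
    · rintro ⟨k, hk⟩
      exact ⟨f k, (hL _ x).2 ⟨k, hk, rfl⟩⟩
  have hmin : ∀ x : M, (¬ ∃ z, Lt z x) → pos x = 0 := by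
    intro x hx
    by_contra hne
    obtain ⟨z, hz⟩ := P.surj 0 (by omega)
    exact hx ⟨z, (P.Lt_iff).2 (by omega)⟩
  refine
    { semi := P.semi
      ne := ?_
      com1 := fun x x' y y' h2 h3 h4 => P.com1 h2 h3 h4
      com2 := fun x x' y h2 h3 h4 => P.com2 h2 h3 h4
      two := P.two
      lab := ?_
      lab0 := ?_
      lab1 := ?_
      labS := ?_
      cell := ?_
      init := ?_
      last := ?_
      row0 := ?_
      rowL := ?_
      hor := ?_
      ver := ?_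
      dia := ?_ }
  · obtain ⟨z, -⟩ := P.surj 0 (by omega)
    exact ⟨z, trivial⟩
  · intro x
    rcases Nat.even_or_odd' (pos x) with ⟨k, hk | hk⟩
    · exact Or.inl ((hF x).2 ⟨k, hk⟩)
    · exact Or.inr ((hS x).2 ⟨k, hk⟩)
  · intro x hx
    exact (hF x).2 ⟨0, by rw [hmin x hx]⟩
  · intro x y hxy hx
    obtain ⟨k, hk⟩ := (hS x).1 hx
    have h2 := (P.Suc_iff).1 hxy
    exact (hF y).2 ⟨k + 1, by omega⟩
  · intro x y hxy hx
    obtain ⟨k, hk⟩ := (hF x).1 hx
    have h2 := (P.Sh_iff).1 hxy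
    exact (hF y).2 ⟨k + m, by omega⟩
  · intro a x hx
    obtain ⟨k, hk, rfl⟩ := (hL a x).1 hx
    have h3 := P.lt x
    exact h.cell k (by omega)
  · intro a x hx hx0
    obtain ⟨k, hk, rfl⟩ := (hL a x).1 hx
    have h3 := hmin x hx0
    obtain rfl : k = 0 := by omega
    exact h.init
  · intro a x hx hx0
    obtain ⟨k, hk, rfl⟩ := (hL a x).1 hx
    have h3 := P.lt x
    have h4 : ¬ 2 * k + 2 < 2 * N := by
      intro hlt
      obtain ⟨z, hz⟩ := P.surj (2 * k + 2) hlt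
      exact hx0 ⟨z, (P.Nx_iff).2 (by omega)⟩
    obtain rfl : k = N - 1 := by omega
    exact h.last
  · intro a x hx hx0
    obtain ⟨k, hk, rfl⟩ := (hL a x).1 hx
    have h3 := P.lt x
    refine h.row0 k ?_
    by_contra hkm
    obtain ⟨z, hz⟩ := P.surj (2 * k - 2 * m) (by omega)
    exact hx0 ⟨z, (P.rel z x).2 (by omega)⟩
  · intro a x hx hx0
    obtain ⟨k, hk, rfl⟩ := (hL a x).1 hx
    have h3 := P.lt x
    refine h.rowL k (by omega) ?_
    by_contra hkm
    obtain ⟨z, hz⟩ := P.surj (2 * k + 2 * m) (by omega)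
    exact hx0 ⟨z, (P.rel x z).2 (by omega)⟩
  · intro a b x y hx hy hxy
    obtain ⟨k, hk, rfl⟩ := (hL a x).1 hx
    obtain ⟨k', hk', rfl⟩ := (hL b y).1 hy
    have h2 := (P.Nx_iff).1 hxy
    have h3 := P.lt y
    obtain rfl : k' = k + 1 := by omega
    exact h.hor k (by omega)
  · intro a b x y hx hy hxy
    obtain ⟨k, hk, rfl⟩ := (hL a x).1 hx
    obtain ⟨k', hk', rfl⟩ := (hL b y).1 hy
    have h2 := (P.Sh_iff).1 hxy
    have h3 := P.lt y
    obtain rfl : k' = k + m := by omega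
    exact h.ver k (by omega)
  · intro a b x y z hx hz hxy hyz
    obtain ⟨k, hk, rfl⟩ := (hL a x).1 hx
    obtain ⟨k', hk', rfl⟩ := (hL b z).1 hz
    have h2 := (P.Sh_iff).1 hxy
    have h4 := (P.Nx_iff).1 hyz
    have h3 := P.lt z
    obtain rfl : k' = k + m + 1 := by omega
    exact h.dia k (by omega)

theorem encode {ℓ : ℕ} {T : TileSys (Fin ℓ)} {N m : ℕ} {f : ℕ → Fin ℓ} (h : T.Sat N m f) :
    ∃ (M : Type) (i : PartialOrder M) (_ : Finite M), Nat.card M = (2 * ℓ + 1) * N ∧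
      @Ok ℓ T M i := by
  have hpos := h.pos
  have P := enc_PM f h.pos h.le
  let i₀ : PartialOrder (Fin N × Fin (2 * ℓ + 1)) := shiftPO (encPos N f) (2 * m) (by omega)
  refine ⟨Fin N × Fin (2 * ℓ + 1), i₀, inferInstance, ?_,
    encOk_ok h P (fun k hk => enc_card0 f hk) fun k hk => enc_card1 f hk⟩
  rw [Nat.card_prod, Nat.card_fin, Nat.card_fin, mul_comm]

end Pool.Agent.Lib.MP_586990_lc
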