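import Pool.Agent.Lib.MP_586990_lc.Posn

set_option autoImplicit false

/-!
# The order is a shift
-/

namespace Pool.Agent.Lib.MP_586990_lc

theorem exists_PM {M : Type} [PartialOrder M] [Finite M] (h : IsSemi M) (ne : ∃ _ : M, True)
    (com1 : ∀ x x' y y' : M, Suc x x' → Sh x y → Suc y y' → Sh x' y')
    (com2 : ∀ x x' y : M, Suc x x' → Sh x y → (¬ ∃ y', Suc y y') → ¬ ∃ z, x' < z)
    (two : ∀ x : M, (∃ z, z < x) ∨ ∃ z, x < z) :
    ∃ (P K : ℕ) (pos : M → ℕ), PM M P K pos := by
  classical
  obtain ⟨P, pos, hlt, hsurj, hLt, hup⟩ := exists_pos h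
  obtain ⟨m0, -⟩ := ne
  have hP : 0 < P := lt_of_le_of_lt (Nat.zero_le _) (hlt m0)
  have hltpos : ∀ x y : M, x < y → pos x < pos y := by
    intro x y hxy
    exact (hLt x y).1 (Or.inl ⟨y, hxy, lt_irrefl y⟩)
  obtain ⟨x0, hx0⟩ := hsurj 0 hP
  have habove : ∃ z, x0 < z := by
    rcases two x0 with ⟨z, hz⟩ | h1
    · exfalso
      have := hltpos z x0 hz
      omega
    · exact h1
  have hex : ∃ i, ∃ z, pos z = i ∧ x0 < z := by
    obtain ⟨z, hz⟩ := habove
    exact ⟨pos z, z, rfl, hz⟩
  set K := Nat.find hex with hK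
  obtain ⟨zK, hzK, hzK2⟩ := Nat.find_spec hex
  have hmin : ∀ z, x0 < z → K ≤ pos z := fun z hz => Nat.find_min' hex ⟨z, rfl, hz⟩
  have hzKK : pos zK = K := hzK
  have hK0 : 0 < K := by
    have := hltpos x0 zK hzK2
    omega
  have hSuc : ∀ x x' : M, pos x' = pos x + 1 → Suc x x' := by
    intro x x' hxx
    refine ⟨(hLt x x').2 (by omega), ?_⟩
    rintro ⟨z, h1, h2⟩
    have h3 := (hLt x z).1 h1
    have h4 := (hLt z x').1 h2
    omega
  have hSucpos : ∀ x x' : M, Suc x x' → pos x < pos x' := fun x x' h1 => (hLt x x').1 h1.1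
  have key : ∀ i : ℕ, ∀ x, pos x = i → ∀ y, x < y ↔ i + K ≤ pos y := by
    intro i
    induction i with
    | zero =>
      intro x hx y
      constructor
      · intro hxy
        have h1 := hmin y (hup x y y x0 hxy le_rfl (by omega))
        omega
      · intro hy
        exact hup x0 zK y x hzK2 (by omega) (by omega)
    | succ i ih =>
      intro x' hx' y
      have hiP : i < P := by
        have := hlt x'
        omega
      obtain ⟨x, hx⟩ := hsurj i hiP
      have hS : Suc x x' := hSuc x x' (by omega)
      have ihx := ih x hx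
      have hShx : ∀ y, pos y = i + K → Sh x y := by
        intro y hy
        refine ⟨(ihx y).2 (by omega), ?_⟩
        rintro ⟨z, h1, h2⟩
        have h3 := (hLt z y).1 h1
        have h4 := (ihx z).1 h2
        omega
      by_cases hc : i + K + 1 < P
      · obtain ⟨w, hw⟩ := hsurj (i + K) (by omega)
        obtain ⟨w', hw'⟩ := hsurj (i + K + 1) hc
        have h1 := com1 x x' w w' hS (hShx w hw) (hSuc w w' (by omega))
        constructor
        · intro hy
          by_contra hcon
          exact h1.2 ⟨y, (hLt y w').2 (by omega), hy⟩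
        · intro hy
          exact hup x' w' y x' h1.1 (by omega) le_rfl
      · have hnone : ¬ ∃ z, x' < z := by
          rcases Nat.lt_or_ge (i + K) P with h2 | h2
          · obtain ⟨w, hw⟩ := hsurj (i + K) h2
            refine com2 x x' w hS (hShx w hw) ?_
            rintro ⟨w', hw'⟩
            have h3 := hSucpos w w' hw'
            have h4 := hlt w'
            omega
          · rintro ⟨z, hz⟩
            have h3 := (ihx z).1 (hup x' z z x hz le_rfl (by omega))
            have h4 := hlt z
            omega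
        constructor
        · intro hy
          exact absurd ⟨y, hy⟩ hnone
        · intro hy
          have := hlt y
          omega
  have hKP : K < P := by
    have := hlt zK
    omega
  refine ⟨P, K, pos, hlt, hsurj, fun x y => key (pos x) x rfl y, hK0, ?_⟩
  obtain ⟨x, hx⟩ := hsurj (K - 1) (by omega)
  rcases two x with ⟨z, hz⟩ | ⟨z, hz⟩
  · have h1 := (key (pos z) z rfl x).1 hz
    omega
  · have h1 := (key (pos x) x rfl z).1 hz
    have h2 := hlt z
    omega

end Pool.Agent.Lib.MP_586990_lc
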