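import Pool.Agent.Lib.MP_586990_lc.DefOk
import Pool.Agent.Lib.MP_586990_lc.Shf
import Pool.Agent.Lib.MP_586990_lc.Decode
import Pool.Agent.Lib.MP_586990_lc.EncOk

set_option autoImplicit false

/-!
# Tile systems and semiorders
-/

namespace Pool.Agent.Lib.MP_586990_lc

/-- The coding theorem for labels in `Fin ℓ`. -/
theorem code_fin {ℓ : ℕ} (T : TileSys (Fin ℓ)) :
    ∃ ψ : FirstOrder.Language.order.Sentence,
      (∀ (M : Type) (i : PartialOrder M) (_ : Finite M), @Tr M i ψ → @IsSemi M i ∧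
        ∃ (N m : ℕ) (f : ℕ → Fin ℓ), T.Sat N m f ∧ Nat.card M = (2 * ℓ + 1) * N) ∧
      ∀ (N m : ℕ) (f : ℕ → Fin ℓ), T.Sat N m f →
        ∃ (M : Type) (i : PartialOrder M) (_ : Finite M), Nat.card M = (2 * ℓ + 1) * N ∧
          @IsSemi M i ∧ @Tr M i ψ := by
  obtain ⟨ψ, hψ⟩ := exists_okSentence T
  refine ⟨ψ, ?_, ?_⟩
  · intro M i hfin hT
    have ok : Ok T M := (hψ M i).1 hT
    obtain ⟨P, K, pos, hp⟩ := exists_PM ok.semi ok.ne ok.com1 ok.com2 ok.two
    exact ⟨ok.semi, hp.decode ok⟩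
  · intro N m f hS
    obtain ⟨M, i, hfin, hcard, ok⟩ := encode hS
    exact ⟨M, i, hfin, hcard, ok.semi, (hψ M i).2 ok⟩

/-- Transport of a tile system along a map of the labels. -/
private def Code_tr {Λ Λ' : Type} (T : TileSys Λ) (g : Λ' → Λ) : TileSys Λ' where
  cell a := T.cell (g a)
  init a := T.init (g a)
  last a := T.last (g a)
  row0 a := T.row0 (g a)
  rowL a := T.rowL (g a)
  hor a b := T.hor (g a) (g b)
  ver a b := T.ver (g a) (g b)
  dia a b := T.dia (g a) (g b)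

private theorem Code_sat {Λ Λ' : Type} {T : TileSys Λ} {g : Λ' → Λ} {N m : ℕ} {f : ℕ → Λ'} :
    (Code_tr T g).Sat N m f ↔ T.Sat N m fun k => g (f k) :=
  ⟨fun h => ⟨h.pos, h.le, h.cell, h.init, h.last, h.row0, h.rowL, h.hor, h.ver, h.dia⟩,
    fun h => ⟨h.pos, h.le, h.cell, h.init, h.last, h.row0, h.rowL, h.hor, h.ver, h.dia⟩⟩

/-- The coding theorem. -/
theorem code {Λ : Type} [Finite Λ] (T : TileSys Λ) :
    ∃ (c : ℕ) (ψ : FirstOrder.Language.order.Sentence), 0 < c ∧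
      (∀ (M : Type) (i : PartialOrder M) (_ : Finite M), @Tr M i ψ → @IsSemi M i ∧
        ∃ (N m : ℕ) (f : ℕ → Λ), T.Sat N m f ∧ Nat.card M = c * N) ∧
      ∀ (N m : ℕ) (f : ℕ → Λ), T.Sat N m f →
        ∃ (M : Type) (i : PartialOrder M) (_ : Finite M), Nat.card M = c * N ∧
          @IsSemi M i ∧ @Tr M i ψ := by
  have e : Λ ≃ Fin (Nat.card Λ) := Finite.equivFin Λ
  obtain ⟨ψ, h1, h2⟩ := code_fin (Code_tr T e.symm)
  refine ⟨2 * Nat.card Λ + 1, ψ, by omega, ?_, ?_⟩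
  · intro M i hfin hT
    obtain ⟨h3, N, m, f, h4, h5⟩ := h1 M i hfin hT
    exact ⟨h3, N, m, fun k => e.symm (f k), Code_sat.1 h4, h5⟩
  · intro N m f hS
    refine h2 N m (fun k => e (f k)) (Code_sat.2 ?_)
    have h6 : (fun k => e.symm (e (f k))) = f := funext fun k => e.symm_apply_apply _
    rw [h6]
    exact hS

end Pool.Agent.Lib.MP_586990_lc
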