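import Pool.Agent.Lib.MP_586990_lc.Defs

set_option autoImplicit false

/-!
# Relations on semiorders, the conditions on the code

The code of a labelling of `0, .., N - 1` by `Fin ℓ` is a semiorder with `2 * N` positions, each
position is a class of twins.  The class at the position `2 * k` has `f k + 1` elements, the class
at the position `2 * k + 1` has `2 * ℓ - f k` elements; `x < y` if the position of `y` is at least
the position of `x` plus `2 * m`.
-/

namespace Pool.Agent.Lib.MP_586990_lc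

section

variable {M : Type} [PartialOrder M]

/-- The position of `x` is smaller. -/
def Lt (x y : M) : Prop := (∃ z, x < z ∧ ¬ y < z) ∨ ∃ z, z < y ∧ ¬ z < x

/-- The same position. -/
def Eqv (x y : M) : Prop := ¬ Lt x y ∧ ¬ Lt y x

/-- The next position. -/
def Suc (x y : M) : Prop := Lt x y ∧ ¬ ∃ z, Lt x z ∧ Lt z y

/-- The next but one position. -/
def Nx (x y : M) : Prop := ∃ z, Suc x z ∧ Suc z y

/-- `y` is at the first position above `x`. -/
def Sh (x y : M) : Prop := x < y ∧ ¬ ∃ z, Lt z y ∧ x < z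

/-- The class of `x` has `s` elements. -/
def Sz (s : ℕ) (x : M) : Prop :=
  ∃ g : Fin s → M, Function.Injective g ∧ ∀ y, Eqv y x ↔ ∃ i, g i = y

/-- `x` is at an even position, the label is `a`. -/
def Lab {ℓ : ℕ} (a : Fin ℓ) (x : M) : Prop :=
  Sz ((a : ℕ) + 1) x ∧ ∃ y, Suc x y ∧ Sz (2 * ℓ - a) y

/-- `x` is at an even position. -/
def Fs (ℓ : ℕ) (x : M) : Prop := ∃ a : Fin ℓ, Lab a x

/-- `x` is at an odd position. -/
def Sn (ℓ : ℕ) (x : M) : Prop := ∃ a : Fin ℓ, Sz (2 * ℓ - a) x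

end

/-- The conditions which characterise the codes of the labellings for the tile system `T`. -/
structure Ok {ℓ : ℕ} (T : TileSys (Fin ℓ)) (M : Type) [PartialOrder M] : Prop where
  semi : IsSemi M
  ne : ∃ _ : M, True
  com1 : ∀ x x' y y' : M, Suc x x' → Sh x y → Suc y y' → Sh x' y'
  com2 : ∀ x x' y : M, Suc x x' → Sh x y → (¬ ∃ y', Suc y y') → ¬ ∃ z, x' < z
  two : ∀ x : M, (∃ z, z < x) ∨ ∃ z, x < z
  lab : ∀ x : M, Fs ℓ x ∨ Sn ℓ x
  lab0 : ∀ x : M, (¬ ∃ z, Lt z x) → Fs ℓ x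
  lab1 : ∀ x y : M, Suc x y → Sn ℓ x → Fs ℓ y
  labS : ∀ x y : M, Sh x y → Fs ℓ x → Fs ℓ y
  cell : ∀ (a : Fin ℓ) (x : M), Lab a x → T.cell a
  init : ∀ (a : Fin ℓ) (x : M), Lab a x → (¬ ∃ z, Lt z x) → T.init a
  last : ∀ (a : Fin ℓ) (x : M), Lab a x → (¬ ∃ z, Nx x z) → T.last a
  row0 : ∀ (a : Fin ℓ) (x : M), Lab a x → (¬ ∃ z, z < x) → T.row0 a
  rowL : ∀ (a : Fin ℓ) (x : M), Lab a x → (¬ ∃ z, x < z) → T.rowL a
  hor : ∀ (a b : Fin ℓ) (x y : M), Lab a x → Lab b y → Nx x y → T.hor a b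
  ver : ∀ (a b : Fin ℓ) (x y : M), Lab a x → Lab b y → Sh x y → T.ver a b
  dia : ∀ (a b : Fin ℓ) (x y z : M), Lab a x → Lab b z → Sh x y → Nx y z → T.dia a b

/-- The position model: positions `0, .., P - 1`, the order is the shift by `K`. -/
structure PM (M : Type) [PartialOrder M] (P K : ℕ) (pos : M → ℕ) : Prop where
  lt : ∀ x, pos x < P
  surj : ∀ i, i < P → ∃ x, pos x = i
  rel : ∀ x y, x < y ↔ pos x + K ≤ pos y
  K0 : 0 < K
  KP : 2 * K ≤ P

end Pool.Agent.Lib.MP_586990_lc
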