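import Pool.Agent.Lib.MP_586990_lc.Cal
import Pool.Agent.Lib.MP_586990_lc.Rel

set_option autoImplicit false

/-!
# The conditions on the code are expressed by a sentence
-/

namespace Pool.Agent.Lib.MP_586990_lc

theorem UD.isSemi {k : ℕ} : UD k fun M _ _ => IsSemi M := by
  unfold IsSemi
  refine UD.and ?_ ?_
  · exact UD.all (UD.all (UD.all (UD.all (UD.imp (UD.lt _ _) (UD.imp (UD.lt _ _)
      (UD.or (UD.lt _ _) (UD.lt _ _)))))))
  · exact UD.all (UD.all (UD.all (UD.all (UD.imp (UD.lt _ _) (UD.imp (UD.lt _ _)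
      (UD.or (UD.lt _ _) (UD.lt _ _)))))))

theorem UD.Lt {k : ℕ} (x y : Fin k) : UD k fun M _ v => Lt (v x) (v y) := by
  unfold Pool.Agent.Lib.MP_586990_lc.Lt
  exact UD.or (UD.ex (UD.and (UD.lt _ _) (UD.not (UD.lt _ _))))
    (UD.ex (UD.and (UD.lt _ _) (UD.not (UD.lt _ _))))

theorem UD.Suc {k : ℕ} (x y : Fin k) : UD k fun M _ v => Suc (v x) (v y) := by
  unfold Pool.Agent.Lib.MP_586990_lc.Suc
  exact UD.and (UD.Lt _ _) (UD.not (UD.ex (UD.and (UD.Lt _ _) (UD.Lt _ _))))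

theorem UD.Nx {k : ℕ} (x y : Fin k) : UD k fun M _ v => Nx (v x) (v y) := by
  unfold Pool.Agent.Lib.MP_586990_lc.Nx
  exact UD.ex (UD.and (UD.Suc _ _) (UD.Suc _ _))

theorem UD.Sh {k : ℕ} (x y : Fin k) : UD k fun M _ v => Sh (v x) (v y) := by
  unfold Pool.Agent.Lib.MP_586990_lc.Sh
  exact UD.and (UD.lt _ _) (UD.not (UD.ex (UD.and (UD.Lt _ _) (UD.lt _ _))))

theorem UD.Sz {k : ℕ} (s : ℕ) (x : Fin k) : UD k fun M _ v => Sz s (v x) := by
  unfold Pool.Agent.Lib.MP_586990_lc.Sz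
  refine UD.exFin (UD.and ?_ (UD.all (UD.iff ?_ ?_)))
  · unfold Function.Injective
    exact UD.allType fun a => UD.allType fun b => UD.imp (UD.eq _ _) (UD.const (a = b))
  · unfold Eqv
    exact UD.and (UD.not (UD.Lt _ _)) (UD.not (UD.Lt _ _))
  · exact UD.exType fun i => UD.eq _ _

theorem UD.Lab {k ℓ : ℕ} (a : Fin ℓ) (x : Fin k) : UD k fun M _ v => Lab a (v x) := by
  unfold Pool.Agent.Lib.MP_586990_lc.Lab
  exact UD.and (UD.Sz _ _) (UD.ex (UD.and (UD.Suc _ _) (UD.Sz _ _)))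

private theorem DefOk_Fs {k : ℕ} (ℓ : ℕ) (x : Fin k) : UD k fun M _ v => Fs ℓ (v x) := by
  unfold Fs
  exact UD.exType fun a => UD.Lab a _

private theorem DefOk_Sn {k : ℕ} (ℓ : ℕ) (x : Fin k) : UD k fun M _ v => Sn ℓ (v x) := by
  unfold Sn
  exact UD.exType fun a => UD.Sz _ _

private def DefOk_C {ℓ : ℕ} (T : TileSys (Fin ℓ)) (M : Type) (_ : PartialOrder M) : Prop :=
    (IsSemi M ∧ (∃ _ : M, True) ∧
      (∀ x x' y y' : M, Suc x x' → Sh x y → Suc y y' → Sh x' y') ∧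
      (∀ x x' y : M, Suc x x' → Sh x y → (¬ ∃ y', Suc y y') → ¬ ∃ z, x' < z) ∧
      (∀ x : M, (∃ z, z < x) ∨ ∃ z, x < z) ∧
      (∀ x : M, Fs ℓ x ∨ Sn ℓ x) ∧
      (∀ x : M, (¬ ∃ z, Lt z x) → Fs ℓ x) ∧
      (∀ x y : M, Suc x y → Sn ℓ x → Fs ℓ y) ∧
      (∀ x y : M, Sh x y → Fs ℓ x → Fs ℓ y) ∧
      (∀ (a : Fin ℓ) (x : M), Lab a x → T.cell a) ∧
      (∀ (a : Fin ℓ) (x : M), Lab a x → (¬ ∃ z, Lt z x) → T.init a) ∧
      (∀ (a : Fin ℓ) (x : M), Lab a x → (¬ ∃ z, Nx x z) → T.last a) ∧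
      (∀ (a : Fin ℓ) (x : M), Lab a x → (¬ ∃ z, z < x) → T.row0 a) ∧
      (∀ (a : Fin ℓ) (x : M), Lab a x → (¬ ∃ z, x < z) → T.rowL a) ∧
      (∀ (a b : Fin ℓ) (x y : M), Lab a x → Lab b y → Nx x y → T.hor a b) ∧
      (∀ (a b : Fin ℓ) (x y : M), Lab a x → Lab b y → Sh x y → T.ver a b) ∧
      ∀ (a b : Fin ℓ) (x y z : M), Lab a x → Lab b z → Sh x y → Nx y z → T.dia a b)

private theorem DefOk_iff {ℓ : ℕ} (T : TileSys (Fin ℓ)) (M : Type) (i : PartialOrder M) :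
    DefOk_C T M i ↔ @Ok ℓ T M i := by
  constructor
  · rintro ⟨h1, h2, h3, h4, h5, h6, h7, h8, h9, h10, h11, h12, h13, h14, h15, h16, h17⟩
    exact ⟨h1, h2, h3, h4, h5, h6, h7, h8, h9, h10, h11, h12, h13, h14, h15, h16, h17⟩
  · rintro ⟨h1, h2, h3, h4, h5, h6, h7, h8, h9, h10, h11, h12, h13, h14, h15, h16, h17⟩
    exact ⟨h1, h2, h3, h4, h5, h6, h7, h8, h9, h10, h11, h12, h13, h14, h15, h16, h17⟩

theorem exists_okSentence {ℓ : ℕ} (T : TileSys (Fin ℓ)) :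
    ∃ ψ : FirstOrder.Language.order.Sentence, ∀ (M : Type) (i : PartialOrder M),
      @Tr M i ψ ↔ @Ok ℓ T M i := by
  have h : UD 0 fun M i _ => DefOk_C T M i := by
    unfold DefOk_C
    refine UD.and UD.isSemi (UD.and (UD.ex (UD.const True)) (UD.and ?_ (UD.and ?_ (UD.and ?_
      (UD.and ?_ (UD.and ?_ (UD.and ?_ (UD.and ?_ (UD.and ?_ (UD.and ?_ (UD.and ?_ (UD.and ?_
      (UD.and ?_ (UD.and ?_ (UD.and ?_ ?_)))))))))))))))
    · exact UD.all (UD.all (UD.all (UD.all (UD.imp (UD.Suc _ _) (UD.imp (UD.Sh _ _)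
        (UD.imp (UD.Suc _ _) (UD.Sh _ _)))))))
    · exact UD.all (UD.all (UD.all (UD.imp (UD.Suc _ _) (UD.imp (UD.Sh _ _)
        (UD.imp (UD.not (UD.ex (UD.Suc _ _))) (UD.not (UD.ex (UD.lt _ _))))))))
    · exact UD.all (UD.or (UD.ex (UD.lt _ _)) (UD.ex (UD.lt _ _)))
    · exact UD.all (UD.or (DefOk_Fs _ _) (DefOk_Sn _ _))
    · exact UD.all (UD.imp (UD.not (UD.ex (UD.Lt _ _))) (DefOk_Fs _ _))
    · exact UD.all (UD.all (UD.imp (UD.Suc _ _) (UD.imp (DefOk_Sn _ _) (DefOk_Fs _ _))))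
    · exact UD.all (UD.all (UD.imp (UD.Sh _ _) (UD.imp (DefOk_Fs _ _) (DefOk_Fs _ _))))
    · exact UD.allType fun a => UD.all (UD.imp (UD.Lab _ _) (UD.const (T.cell a)))
    · exact UD.allType fun a => UD.all (UD.imp (UD.Lab _ _) (UD.imp (UD.not (UD.ex (UD.Lt _ _)))
        (UD.const (T.init a))))
    · exact UD.allType fun a => UD.all (UD.imp (UD.Lab _ _) (UD.imp (UD.not (UD.ex (UD.Nx _ _)))
        (UD.const (T.last a))))
    · exact UD.allType fun a => UD.all (UD.imp (UD.Lab _ _) (UD.imp (UD.not (UD.ex (UD.lt _ _)))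
        (UD.const (T.row0 a))))
    · exact UD.allType fun a => UD.all (UD.imp (UD.Lab _ _) (UD.imp (UD.not (UD.ex (UD.lt _ _)))
        (UD.const (T.rowL a))))
    · exact UD.allType fun a => UD.allType fun b => UD.all (UD.all (UD.imp (UD.Lab _ _)
        (UD.imp (UD.Lab _ _) (UD.imp (UD.Nx _ _) (UD.const (T.hor a b))))))
    · exact UD.allType fun a => UD.allType fun b => UD.all (UD.all (UD.imp (UD.Lab _ _)
        (UD.imp (UD.Lab _ _) (UD.imp (UD.Sh _ _) (UD.const (T.ver a b))))))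
    · exact UD.allType fun a => UD.allType fun b => UD.all (UD.all (UD.all (UD.imp (UD.Lab _ _)
        (UD.imp (UD.Lab _ _) (UD.imp (UD.Sh _ _) (UD.imp (UD.Nx _ _)
        (UD.const (T.dia a b))))))))
  obtain ⟨ψ, hψ⟩ := UD.sentence h
  exact ⟨ψ, fun M i => (hψ M i).trans (DefOk_iff T M i)⟩

end Pool.Agent.Lib.MP_586990_lc
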