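import Mathlib

set_option autoImplicit false

/-!
# MP_586990_lc, project SO: definitions

Rudimentary sets (as in the frozen statement of the problem), spectra of sentences, semiorders,
spectra of semiorders.
-/

namespace Pool.Agent.Lib.MP_586990_lc

open FirstOrder

/-! ### Rudimentary sets -/

/-- The sets of `k`-tuples defined by bounded formulas: the least family which contains the
polynomial inequalities and is closed under complements, intersections and bounded
quantification. -/
inductive Bd : (k : ℕ) → Set (Fin k → ℕ) → Prop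
  | le (k : ℕ) (p q : MvPolynomial (Fin k) ℕ) :
      Bd k {v | MvPolynomial.eval v p ≤ MvPolynomial.eval v q}
  | compl (k : ℕ) (P : Set (Fin k → ℕ)) : Bd k P → Bd k Pᶜ
  | inter (k : ℕ) (P Q : Set (Fin k → ℕ)) : Bd k P → Bd k Q → Bd k (P ∩ Q)
  | ex (k : ℕ) (p : MvPolynomial (Fin k) ℕ) (P : Set (Fin (k + 1) → ℕ)) : Bd (k + 1) P →
      Bd k {v | ∃ y : ℕ, y ≤ MvPolynomial.eval v p ∧ (Fin.cons y v : Fin (k + 1) → ℕ) ∈ P}

/-- The rudimentary sets. -/
def Rud (A : Set ℕ) : Prop := Bd 1 {v | v 0 ∈ A}

/-! ### Spectra -/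

/-- The spectrum of a first-order sentence. -/
def Spec {L : FirstOrder.Language.{0, 0}} (φ : L.Sentence) : Set ℕ :=
  {n | ∃ (M : Type) (_ : L.Structure M) (_ : Finite M), Nat.card M = n ∧ φ.Realize M}

/-- `M` is a semiorder: a partial order without induced `2 + 2` and `3 + 1`. -/
def IsSemi (M : Type) [PartialOrder M] : Prop :=
  (∀ a b c d : M, a < b → c < d → a < d ∨ c < b) ∧
  (∀ a b c d : M, a < b → b < c → a < d ∨ d < c)

/-- The truth of a sentence in a partial order. -/
def Tr (M : Type) [PartialOrder M] (ψ : FirstOrder.Language.order.Sentence) : Prop :=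
  @FirstOrder.Language.Sentence.Realize FirstOrder.Language.order M
    (FirstOrder.Language.orderStructure M) ψ

/-- The spectrum of a sentence in the class `C` of partial orders. -/
def SpecC (C : ∀ (M : Type), PartialOrder M → Prop)
    (ψ : FirstOrder.Language.order.Sentence) : Set ℕ :=
  {n | ∃ (M : Type) (i : PartialOrder M) (_ : Finite M), Nat.card M = n ∧ C M i ∧ @Tr M i ψ}

/-- The class of semiorders. -/
def Semi : ∀ (M : Type), PartialOrder M → Prop := fun M _ => IsSemi M

/-! ### Relational formulas with named variables -/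

/-- First-order formulas with variables in `ℕ`, relation symbols in `ρ`, atoms `R(x₁, .., xₖ)` for
every list of variables. -/
inductive NForm (ρ : Type) : Type
  | rel (R : ρ) (vs : List ℕ) : NForm ρ
  | eq (x y : ℕ) : NForm ρ
  | neg (a : NForm ρ) : NForm ρ
  | and (a b : NForm ρ) : NForm ρ
  | ex (x : ℕ) (a : NForm ρ) : NForm ρ

namespace NForm

variable {ρ : Type}

/-- The truth value. -/
def eval {M : Type} (S : ρ → List M → Prop) : NForm ρ → (ℕ → M) → Prop
  | rel R vs, v => S R (vs.map v)
  | eq x y, v => v x = v y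
  | neg a, v => ¬ a.eval S v
  | and a b, v => a.eval S v ∧ b.eval S v
  | ex x a, v => ∃ y, a.eval S (Function.update v x y)

end NForm

/-! ### The normal form -/

/-- Normal forms: labellings `W` of the tuples of length `q + 1` by elements of the finite type `σ`
with a condition on pairs of tuples and finitely many conditions of the form `∀ t ∃ j`; the
conditions see the labels and the equality pattern of the two tuples. -/
structure NF where
  q : ℕ
  σ : Type
  κ : Type
  fσ : Finite σ
  fκ : Finite κ
  C : (Fin (q + 1) → Fin (q + 1) → Prop) → σ → σ → Prop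
  D : κ → (Fin (q + 1) → Fin (q + 1) → Prop) → σ → σ → Prop

/-- The normal form is satisfied by `n`. -/
def NF.Sat (F : NF) (n : ℕ) : Prop :=
  ∃ W : (Fin (F.q + 1) → Fin n) → F.σ,
    (∀ t j, F.C (fun a b => t a = j b) (W t) (W j)) ∧
    ∀ k t, ∃ j, F.D k (fun a b => t a = j b) (W t) (W j)

/-- The digits number `a` of `t` and number `b` of `j` in base `n` are equal. -/
def Dg (n : ℕ) {q : ℕ} (t j : ℕ) (a b : Fin (q + 1)) : Prop :=
  t / n ^ (a : ℕ) % n = j / n ^ (b : ℕ) % n

/-- The normal form with numbers below `n ^ (q + 1)` in place of tuples. -/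
def NF.SatN (F : NF) (n : ℕ) : Prop :=
  ∃ W : ℕ → F.σ,
    (∀ t j, t < n ^ (F.q + 1) → j < n ^ (F.q + 1) → F.C (Dg n t j) (W t) (W j)) ∧
    ∀ k t, t < n ^ (F.q + 1) → ∃ j, j < n ^ (F.q + 1) ∧ F.D k (Dg n t j) (W t) (W j)

/-! ### Tile systems -/

/-- Local conditions for labellings of `0, .., N - 1` (the cells of a grid with `m` columns,
row by row). -/
structure TileSys (Λ : Type) where
  cell : Λ → Prop
  init : Λ → Prop
  last : Λ → Prop
  row0 : Λ → Prop
  rowL : Λ → Prop
  hor : Λ → Λ → Prop
  ver : Λ → Λ → Prop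
  dia : Λ → Λ → Prop

/-- `f` is a labelling of the grid with `N` cells and `m` columns. -/
structure TileSys.Sat {Λ : Type} (T : TileSys Λ) (N m : ℕ) (f : ℕ → Λ) : Prop where
  pos : 0 < m
  le : 2 * m ≤ N
  cell : ∀ k, k < N → T.cell (f k)
  init : T.init (f 0)
  last : T.last (f (N - 1))
  row0 : ∀ k, k < m → T.row0 (f k)
  rowL : ∀ k, k < N → N ≤ k + m → T.rowL (f k)
  hor : ∀ k, k + 1 < N → T.hor (f k) (f (k + 1))
  ver : ∀ k, k + m < N → T.ver (f k) (f (k + m))
  dia : ∀ k, k + m + 1 < N → T.dia (f k) (f (k + m + 1))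

end Pool.Agent.Lib.MP_586990_lc
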