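import Pool.Agent.Lib.MP_586990_lc.Defs

set_option autoImplicit false

/-!
# Normal forms: tuples and numbers
-/

namespace Pool.Agent.Lib.MP_586990_lc

private theorem Dig_val {n q : ℕ} (x : Fin (q + 1) → Fin n) (a : Fin (q + 1)) :
    (finFunctionFinEquiv x : ℕ) / n ^ (a : ℕ) % n = (x a : ℕ) :=
  congrArg Fin.val (congrFun (finFunctionFinEquiv.symm_apply_apply x) a)

private theorem Dig_dg {n q : ℕ} (x y : Fin (q + 1) → Fin n) :
    (fun a b => x a = y b) = Dg (q := q) n (finFunctionFinEquiv x : ℕ)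
      (finFunctionFinEquiv y : ℕ) := by
  funext a b
  unfold Dg
  rw [Dig_val, Dig_val, Fin.ext_iff]

theorem NF.sat_iff_satN (F : NF) {n : ℕ} (hn : 1 ≤ n) : F.Sat n ↔ F.SatN n := by
  have hex : ∀ t : ℕ, t < n ^ (F.q + 1) →
      ∃ x : Fin (F.q + 1) → Fin n, (finFunctionFinEquiv x : ℕ) = t := by
    intro t ht
    refine ⟨finFunctionFinEquiv.symm ⟨t, ht⟩, ?_⟩
    rw [Equiv.apply_symm_apply]
  constructor
  · rintro ⟨W, hC, hD⟩
    set dig : ℕ → Fin (F.q + 1) → Fin n := fun t a =>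
      ⟨t / n ^ (a : ℕ) % n, Nat.mod_lt _ (by omega)⟩ with hdig
    have hdn : ∀ x : Fin (F.q + 1) → Fin n, dig (finFunctionFinEquiv x : ℕ) = x := by
      intro x
      funext a
      exact Fin.ext (Dig_val x a)
    refine ⟨fun t => W (dig t), ?_, ?_⟩
    · intro t j ht hj
      obtain ⟨x, rfl⟩ := hex t ht
      obtain ⟨y, rfl⟩ := hex j hj
      have h1 := hC x y
      rw [Dig_dg x y] at h1
      simpa only [hdn] using h1
    · intro k t ht
      obtain ⟨x, rfl⟩ := hex t ht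
      obtain ⟨y, hy⟩ := hD k x
      refine ⟨(finFunctionFinEquiv y : ℕ), (finFunctionFinEquiv y).2, ?_⟩
      rw [Dig_dg x y] at hy
      simpa only [hdn] using hy
  · rintro ⟨W, hC, hD⟩
    refine ⟨fun x => W (finFunctionFinEquiv x : ℕ), ?_, ?_⟩
    · intro x y
      rw [Dig_dg x y]
      exact hC _ _ (finFunctionFinEquiv x).2 (finFunctionFinEquiv y).2
    · intro k x
      obtain ⟨j, hj, hj2⟩ := hD k _ (finFunctionFinEquiv x).2
      obtain ⟨y, rfl⟩ := hex j hj
      refine ⟨y, ?_⟩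
      rw [Dig_dg x y]
      exact hj2

end Pool.Agent.Lib.MP_586990_lc
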