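import Pool.Agent.Lib.MP_586990_lc.Defs

set_option autoImplicit false

/-!
# Relational formulas and normal forms: definitions
-/

namespace Pool.Agent.Lib.MP_586990_lc

/-- All the symbols and variables of the formula are at most `q`, the arities are at most
`q + 1`. -/
def NForm.bd (q : ℕ) : NForm ℕ → Prop
  | rel R vs => R < q + 1 ∧ vs.length ≤ q + 1 ∧ ∀ x ∈ vs, x < q + 1
  | eq x y => x < q + 1 ∧ y < q + 1
  | neg a => a.bd q
  | and a b => a.bd q ∧ b.bd q
  | ex x a => x < q + 1 ∧ a.bd q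

/-- The values of the tables at a tuple: symbol and arity. -/
abbrev Tb (q : ℕ) : Type := Fin (q + 1) → Fin (q + 2) → Bool

open Classical in
/-- The values of the tables `S` at the tuple `t`. -/
noncomputable def tab {q n : ℕ} (S : ℕ → List (Fin n) → Prop) (t : Fin (q + 1) → Fin n) : Tb q :=
  fun i l => decide (S i ((List.ofFn t).take l))

/-- The valuation of a tuple. -/
def ext {q : ℕ} {M : Type} (t : Fin (q + 1) → M) (i : ℕ) : M :=
  if h : i < q + 1 then t ⟨i, h⟩ else t 0

/-- The labelling `W` satisfies the conditions `C`, `D`, relative to the tables `S`. -/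
def GadSat {q n : ℕ} {σ κ : Type} (S : ℕ → List (Fin n) → Prop)
    (C : (Fin (q + 1) → Fin (q + 1) → Prop) → Tb q × σ → Tb q × σ → Prop)
    (D : κ → (Fin (q + 1) → Fin (q + 1) → Prop) → Tb q × σ → Tb q × σ → Prop)
    (W : (Fin (q + 1) → Fin n) → σ) : Prop :=
  (∀ t j, C (fun a b => t a = j b) (tab S t, W t) (tab S j, W j)) ∧
  ∀ k t, ∃ j, D k (fun a b => t a = j b) (tab S t, W t) (tab S j, W j)

/-- The formula `ψ` can be evaluated by conditions on pairs. -/
def HasGad (q : ℕ) (ψ : NForm ℕ) : Prop :=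
  ∃ (σ κ : Type) (_ : Finite σ) (_ : Finite κ)
    (C : (Fin (q + 1) → Fin (q + 1) → Prop) → Tb q × σ → Tb q × σ → Prop)
    (D : κ → (Fin (q + 1) → Fin (q + 1) → Prop) → Tb q × σ → Tb q × σ → Prop)
    (out : σ → Prop),
    (∀ (n : ℕ) (S : ℕ → List (Fin n) → Prop), ∃ W, GadSat S C D W) ∧
    ∀ (n : ℕ) (S : ℕ → List (Fin n) → Prop) (W : (Fin (q + 1) → Fin n) → σ), GadSat S C D W →
      ∀ t, out (W t) ↔ ψ.eval S (ext t)

private theorem gdefs_mono (ψ : NForm ℕ) : ∀ {q r : ℕ}, q ≤ r → ψ.bd q → ψ.bd r := by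
  induction ψ with
  | rel R vs =>
    intro q r hqr h
    exact ⟨by have := h.1; omega, by have := h.2.1; omega, fun x hx => by
      have := h.2.2 x hx; omega⟩
  | eq x y =>
    intro q r hqr h
    exact ⟨by have := h.1; omega, by have := h.2; omega⟩
  | neg a ih =>
    intro q r hqr h
    exact ih hqr h
  | and a b iha ihb =>
    intro q r hqr h
    exact ⟨iha hqr h.1, ihb hqr h.2⟩
  | ex x a ih =>
    intro q r hqr h
    exact ⟨by have := h.1; omega, ih hqr h.2⟩

private theorem gdefs_le_sum (vs : List ℕ) : ∀ x ∈ vs, x ≤ vs.sum := by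
  induction vs with
  | nil => intro x hx; simp at hx
  | cons a l ih =>
    intro x hx
    rw [List.sum_cons]
    rcases List.mem_cons.1 hx with rfl | hx
    · omega
    · have := ih x hx
      omega

theorem NForm.exists_bd (ψ : NForm ℕ) : ∃ q, ψ.bd q := by
  induction ψ with
  | rel R vs =>
    refine ⟨R + vs.length + vs.sum, ?_, ?_, fun x hx => ?_⟩
    · omega
    · omega
    · have := gdefs_le_sum vs x hx
      omega
  | eq x y => exact ⟨x + y, by omega, by omega⟩
  | neg a ih => exact ih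
  | and a b iha ihb =>
    obtain ⟨q, hq⟩ := iha
    obtain ⟨r, hr⟩ := ihb
    exact ⟨max q r, gdefs_mono a (le_max_left q r) hq, gdefs_mono b (le_max_right q r) hr⟩
  | ex x a ih =>
    obtain ⟨q, hq⟩ := ih
    exact ⟨max x q, Nat.lt_succ_of_le (le_max_left x q), gdefs_mono a (le_max_right x q) hq⟩

theorem NForm.eval_congr {q : ℕ} {ψ : NForm ℕ} (h : ψ.bd q) {M : Type}
    {S : ℕ → List M → Prop} {v w : ℕ → M} (hvw : ∀ i, i < q + 1 → v i = w i) :
    ψ.eval S v ↔ ψ.eval S w := by
  induction ψ generalizing v w with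
  | rel R vs =>
    have h1 : vs.map v = vs.map w := List.map_congr_left fun x hx => hvw x (h.2.2 x hx)
    show S R (vs.map v) ↔ S R (vs.map w)
    rw [h1]
  | eq x y =>
    show v x = v y ↔ w x = w y
    rw [hvw x h.1, hvw y h.2]
  | neg a ih =>
    show ¬ a.eval S v ↔ ¬ a.eval S w
    rw [ih h hvw]
  | and a b iha ihb =>
    show (a.eval S v ∧ b.eval S v) ↔ (a.eval S w ∧ b.eval S w)
    rw [iha h.1 hvw, ihb h.2 hvw]
  | ex x a ih =>
    show (∃ y, a.eval S (Function.update v x y)) ↔ ∃ y, a.eval S (Function.update w x y)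
    refine exists_congr fun y => ih h.2 fun i hi => ?_
    by_cases hix : i = x
    · rw [hix, Function.update_self, Function.update_self]
    · rw [Function.update_of_ne hix, Function.update_of_ne hix]
      exact hvw i hi

end Pool.Agent.Lib.MP_586990_lc
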