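import Pool.Agent.Lib.MP_586990_lc.GDefs

set_option autoImplicit false

/-!
# Gadgets: quantifiers
-/

namespace Pool.Agent.Lib.MP_586990_lc

private theorem Gad2_ext {q x : ℕ} {M : Type} (hx : x < q + 1) (t : Fin (q + 1) → M) (y : M)
    (i : ℕ) (hi : i < q + 1) :
    ext (Function.update t ⟨x, hx⟩ y) i = Function.update (ext t) x y i := by
  unfold ext
  rw [dif_pos hi]
  by_cases h : i = x
  · subst h
    simp
  · rw [Function.update_of_ne (by
      intro h'
      exact h (Fin.mk.inj h')), Function.update_of_ne h, dif_pos hi]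

private theorem Gad2_upd {n : ℕ} {M : Type} {t j : Fin n → M} {x : Fin n}
    (h : ∀ i, i ≠ x → t i = j i) : Function.update t x (j x) = j := by
  funext i
  by_cases hi : i = x
  · subst hi
    simp
  · rw [Function.update_of_ne hi, h i hi]

theorem HasGad.ex {q x : ℕ} {a : NForm ℕ} (hx : x < q + 1) (ha : a.bd q) (h : HasGad q a) :
    HasGad q (a.ex x) := by
  classical
  obtain ⟨σ, κ, hσ, hκ, C, D, out, h1, h2⟩ := h
  let xx : Fin (q + 1) := ⟨x, hx⟩
  refine ⟨σ × Bool, Option κ, inferInstance, inferInstance,
    fun E u u' => C E (u.1, u.2.1) (u'.1, u'.2.1) ∧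
      ((∀ i, i ≠ xx → E i i) → out u'.2.1 → u.2.2 = true),
    fun k E u u' => match k with
      | none => (∀ i, i ≠ xx → E i i) ∧ (u.2.2 = true → out u'.2.1)
      | some k => D k E (u.1, u.2.1) (u'.1, u'.2.1),
    fun s => s.2 = true, ?_, ?_⟩
  · intro n S
    obtain ⟨W, hC, hD⟩ := h1 n S
    refine ⟨fun t => (W t, decide (∃ y, out (W (Function.update t xx y)))), ?_, ?_⟩
    · intro t j
      refine ⟨hC t j, fun he ho => ?_⟩
      refine decide_eq_true ⟨j xx, ?_⟩
      rw [Gad2_upd he]
      exact ho
    · intro k t
      cases k with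
      | some k => exact hD k t
      | none =>
        by_cases hy : ∃ y, out (W (Function.update t xx y))
        · obtain ⟨y, hy⟩ := hy
          refine ⟨Function.update t xx y, fun i hi => ?_, fun _ => hy⟩
          show t i = Function.update t xx y i
          rw [Function.update_of_ne hi]
        · refine ⟨t, fun i _ => rfl, fun hf => ?_⟩
          exact absurd (of_decide_eq_true hf) hy
  · intro n S W' hW' t
    obtain ⟨hC', hD'⟩ := hW'
    have hW : GadSat S C D (fun t => (W' t).1) :=
      ⟨fun t j => (hC' t j).1, fun k t => hD' (some k) t⟩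
    have hout := h2 n S _ hW
    have key : ∀ y, out (W' (Function.update t xx y)).1 ↔
        a.eval S (Function.update (ext t) x y) := by
      intro y
      rw [hout (Function.update t xx y)]
      exact NForm.eval_congr ha (Gad2_ext hx t y)
    show (W' t).2 = true ↔ ∃ y, a.eval S (Function.update (ext t) x y)
    constructor
    · intro hb
      obtain ⟨j, hj1, hj2⟩ := hD' none t
      refine ⟨j xx, (key _).1 ?_⟩
      rw [Gad2_upd hj1]
      exact hj2 hb
    · rintro ⟨y, hy⟩
      refine (hC' t (Function.update t xx y)).2 (fun i hi => ?_) ((key y).2 hy)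
      show t i = Function.update t xx y i
      rw [Function.update_of_ne hi]

end Pool.Agent.Lib.MP_586990_lc
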