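import Pool.Agent.Lib.MP_586990_lc.Gad1
import Pool.Agent.Lib.MP_586990_lc.Gad2

set_option autoImplicit false

/-!
# Relational formulas and normal forms
-/

namespace Pool.Agent.Lib.MP_586990_lc

theorem hasGad {q : ℕ} (ψ : NForm ℕ) (h : ψ.bd q) : HasGad q ψ := by
  induction ψ with
  | rel R vs => exact HasGad.rel h
  | eq x y => exact HasGad.eq h
  | neg a ih => exact HasGad.neg (ih h)
  | and a b iha ihb => exact HasGad.and (iha h.1) (ihb h.2)
  | ex x a ih => exact HasGad.ex h.1 h.2 (ih h.2)

private theorem GFin_take {q n : ℕ} {t j : Fin (q + 1) → Fin n} {l : Fin (q + 2)}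
    (h : ∀ a : Fin (q + 1), (a : ℕ) < l → t a = j a) :
    (List.ofFn t).take l = (List.ofFn j).take l := by
  apply List.ext_getElem
  · simp
  · intro i h1 h2
    rw [List.getElem_take, List.getElem_take, List.getElem_ofFn, List.getElem_ofFn]
    rw [List.length_take, List.length_ofFn] at h1
    exact h _ (lt_of_lt_of_le h1 (min_le_left _ _))

private theorem GFin_len {q n : ℕ} {t j : Fin (q + 1) → Fin n} {l l' : Fin (q + 2)}
    (h : (List.ofFn t).take l = (List.ofFn j).take l') : l = l' := by
  have h1 := congrArg List.length h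
  rw [List.length_take, List.length_take, List.length_ofFn, List.length_ofFn] at h1
  have h2 := l.2
  have h3 := l'.2
  exact Fin.ext (by omega)

private theorem GFin_eq {q n : ℕ} {t j : Fin (q + 1) → Fin n} {l : Fin (q + 2)}
    (h : (List.ofFn t).take l = (List.ofFn j).take l) (a : Fin (q + 1)) (ha : (a : ℕ) < l) :
    t a = j a := by
  have h0 : (a : ℕ) < ((List.ofFn t).take l).length := by
    rw [List.length_take, List.length_ofFn]
    exact lt_min ha a.2
  have h0' : (a : ℕ) < ((List.ofFn j).take l).length := by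
    rw [List.length_take, List.length_ofFn]
    exact lt_min ha a.2
  have h1 : ((List.ofFn t).take l)[(a : ℕ)] = ((List.ofFn j).take l)[(a : ℕ)] := by
    simp only [h]
  rw [List.getElem_take, List.getElem_take, List.getElem_ofFn, List.getElem_ofFn] at h1
  exact h1

theorem nform_nf (ψ : NForm ℕ) : ∃ F : NF, ∀ n : ℕ, 1 ≤ n →
    ((∃ S : ℕ → List (Fin n) → Prop, ∀ v, ψ.eval S v) ↔ F.Sat n) := by
  classical
  obtain ⟨q, hq⟩ := ψ.exists_bd
  obtain ⟨σ, κ, fσ, fκ, C, D, out, hex, hsat⟩ := hasGad ψ hq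
  refine ⟨{ q := q, σ := Tb q × σ, κ := κ, fσ := inferInstance, fκ := fκ,
            C := fun E p p' => C E p p' ∧ out p.2 ∧ ∀ (i : Fin (q + 1)) (l : Fin (q + 2)),
              (∀ a : Fin (q + 1), (a : ℕ) < l → E a a) → p.1 i l = p'.1 i l
            D := D }, fun n _ => ?_⟩
  constructor
  · rintro ⟨S, hS⟩
    obtain ⟨W, hW⟩ := hex n S
    refine ⟨fun t => (tab S t, W t), fun t j => ⟨hW.1 t j, ?_, ?_⟩, fun k t => hW.2 k t⟩
    · exact (hsat n S W hW t).2 (hS _)
    · intro i l hl
      show tab S t i l = tab S j i l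
      unfold tab
      rw [GFin_take hl]
  · rintro ⟨W, hC, hD⟩
    obtain ⟨S, hS⟩ : ∃ S : ℕ → List (Fin n) → Prop, S = fun i xs =>
      ∃ (t : Fin (q + 1) → Fin n) (l : Fin (q + 2)), xs = (List.ofFn t).take l ∧
        ∃ h : i < q + 1, (W t).1 ⟨i, h⟩ l = true := ⟨_, rfl⟩
    have htab : ∀ t, tab S t = (W t).1 := by
      intro t
      funext i l
      rw [Bool.eq_iff_iff]
      unfold tab
      rw [decide_eq_true_iff, hS]
      constructor
      · rintro ⟨t', l', hl, hi, ht'⟩
        have e := GFin_len hl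
        subst e
        have h1 := (hC t t').2.2 i l (fun a ha => GFin_eq hl a ha)
        exact h1.trans ht'
      · intro hb
        exact ⟨t, l, rfl, i.2, hb⟩
    have hG : GadSat S C D (fun t => (W t).2) := by
      refine ⟨fun t j => ?_, fun k t => ?_⟩
      · rw [htab t, htab j]
        exact (hC t j).1
      · obtain ⟨j, hj⟩ := hD k t
        refine ⟨j, ?_⟩
        rw [htab t, htab j]
        exact hj
    refine ⟨S, fun v => ?_⟩
    have h1 : ψ.eval S (ext fun i : Fin (q + 1) => v i) :=
      (hsat n S _ hG _).1 (hC _ (fun i : Fin (q + 1) => v i)).2.1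
    refine (NForm.eval_congr hq fun i hi => ?_).1 h1
    unfold ext
    rw [dif_pos hi]

end Pool.Agent.Lib.MP_586990_lc
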