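import Pool.Agent.Lib.MP_586990_lc.GDefs

set_option autoImplicit false

/-!
# Gadgets: atoms and Boolean operations
-/

namespace Pool.Agent.Lib.MP_586990_lc

private theorem Gad1_take {q n : ℕ} {vs : List ℕ} (hl : vs.length ≤ q + 1)
    (hv : ∀ x ∈ vs, x < q + 1) (t j : Fin (q + 1) → Fin n)
    (h : ∀ (b : ℕ) (hb : b < vs.length),
      t ⟨vs[b], hv _ (List.getElem_mem hb)⟩ = j ⟨b, lt_of_lt_of_le hb hl⟩) :
    (List.ofFn j).take vs.length = vs.map (ext t) := by
  apply List.ext_getElem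
  · rw [List.length_take, List.length_ofFn, List.length_map]
    omega
  · intro b hb hb'
    rw [List.length_map] at hb'
    rw [List.getElem_take, List.getElem_ofFn, List.getElem_map, ← h b hb']
    unfold ext
    rw [dif_pos (hv _ (List.getElem_mem hb'))]

theorem HasGad.rel {q R : ℕ} {vs : List ℕ} (h : (NForm.rel R vs).bd q) :
    HasGad q (NForm.rel R vs) := by
  classical
  obtain ⟨hR, hl, hv⟩ := h
  refine ⟨Bool, Empty, inferInstance, inferInstance,
    fun E u u' => (∀ (b : ℕ) (hb : b < vs.length),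
      E ⟨vs[b], hv _ (List.getElem_mem hb)⟩ ⟨b, lt_of_lt_of_le hb hl⟩) →
      (u.2 = true ↔ u'.1 ⟨R, hR⟩ ⟨vs.length, by omega⟩ = true),
    fun k _ _ _ => k.elim, fun s => s = true, ?_, ?_⟩
  · intro n S
    refine ⟨fun t => decide (S R (vs.map (ext t))), ?_, fun k => k.elim⟩
    intro t j hE
    have h1 := Gad1_take hl hv t j hE
    simp only [tab, decide_eq_true_eq]
    rw [h1]
  · intro n S W hW t
    obtain ⟨hC, -⟩ := hW
    let j : Fin (q + 1) → Fin n := fun b =>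
      if hb : (b : ℕ) < vs.length then t ⟨vs[(b : ℕ)], hv _ (List.getElem_mem hb)⟩ else t 0
    have hj : ∀ (b : ℕ) (hb : b < vs.length),
        t ⟨vs[b], hv _ (List.getElem_mem hb)⟩ = j ⟨b, lt_of_lt_of_le hb hl⟩ := by
      intro b hb
      show _ = dite _ _ _
      rw [dif_pos hb]
    have h1 := Gad1_take hl hv t j hj
    have h2 := hC t j hj
    show W t = true ↔ S R (vs.map (ext t))
    rw [h2]
    simp only [tab, decide_eq_true_eq]
    rw [h1]

theorem HasGad.eq {q x y : ℕ} (h : (NForm.eq x y : NForm ℕ).bd q) :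
    HasGad q (NForm.eq x y) := by
  classical
  obtain ⟨hx, hy⟩ := h
  refine ⟨Bool, Empty, inferInstance, inferInstance,
    fun E u u' => E ⟨y, hy⟩ 0 → (u.2 = true ↔ E ⟨x, hx⟩ 0),
    fun k _ _ _ => k.elim, fun s => s = true, ?_, ?_⟩
  · intro n S
    refine ⟨fun t => decide (t ⟨x, hx⟩ = t ⟨y, hy⟩), ?_, fun k => k.elim⟩
    intro t j hE
    show decide _ = true ↔ t ⟨x, hx⟩ = j 0
    have hE' : t ⟨y, hy⟩ = j 0 := hE
    rw [decide_eq_true_eq, hE']
  · intro n S W hW t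
    obtain ⟨hC, -⟩ := hW
    have h2 := hC t (fun _ => t ⟨y, hy⟩) rfl
    show W t = true ↔ ext t x = ext t y
    rw [h2]
    show t ⟨x, hx⟩ = t ⟨y, hy⟩ ↔ _
    unfold ext
    rw [dif_pos hx, dif_pos hy]

theorem HasGad.neg {q : ℕ} {a : NForm ℕ} (h : HasGad q a) : HasGad q a.neg := by
  obtain ⟨σ, κ, hσ, hκ, C, D, out, h1, h2⟩ := h
  exact ⟨σ, κ, hσ, hκ, C, D, fun s => ¬ out s, h1, fun n S W hW t => not_congr (h2 n S W hW t)⟩

theorem HasGad.and {q : ℕ} {a b : NForm ℕ} (h : HasGad q a) (h' : HasGad q b) :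
    HasGad q (a.and b) := by
  obtain ⟨σ, κ, hσ, hκ, C, D, out, h1, h2⟩ := h
  obtain ⟨σ', κ', hσ', hκ', C', D', out', h1', h2'⟩ := h'
  refine ⟨σ × σ', κ ⊕ κ', inferInstance, inferInstance,
    fun E u u' => C E (u.1, u.2.1) (u'.1, u'.2.1) ∧ C' E (u.1, u.2.2) (u'.1, u'.2.2),
    fun k E u u' => match k with
      | Sum.inl k => D k E (u.1, u.2.1) (u'.1, u'.2.1)
      | Sum.inr k => D' k E (u.1, u.2.2) (u'.1, u'.2.2),
    fun s => out s.1 ∧ out' s.2, ?_, ?_⟩
  · intro n S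
    obtain ⟨W, hC, hD⟩ := h1 n S
    obtain ⟨W', hC', hD'⟩ := h1' n S
    refine ⟨fun t => (W t, W' t), fun t j => ⟨hC t j, hC' t j⟩, ?_⟩
    rintro (k | k) t
    · exact hD k t
    · exact hD' k t
  · intro n S W hW t
    obtain ⟨hC, hD⟩ := hW
    have k1 : GadSat S C D (fun t => (W t).1) :=
      ⟨fun t j => (hC t j).1, fun k t => hD (Sum.inl k) t⟩
    have k2 : GadSat S C' D' (fun t => (W t).2) :=
      ⟨fun t j => (hC t j).2, fun k t => hD (Sum.inr k) t⟩
    exact and_congr (h2 n S _ k1 t) (h2' n S _ k2 t)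

end Pool.Agent.Lib.MP_586990_lc
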