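import Pool.Agent.Lib.MP_586990_lc.STerm

set_option autoImplicit false

/-!
# Translation of formulas
-/

namespace Pool.Agent.Lib.MP_586990_lc

open NForm

/-- `a` is equivalent to the formula, `x` is the condition that the tables of the function symbols of
the formula are graphs of functions. -/
theorem formula_nform {L : FirstOrder.Language.{0, 0}} {k : ℕ} (φ : L.BoundedFormula Empty k) :
    ∃ a x : NForm (Sym L),
      (∀ (M : Type) (_ : Nonempty M) (S : Sym L → List M → Prop) (v w : ℕ → M), x.eval S w →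
        (a.eval S v ↔ @FirstOrder.Language.BoundedFormula.Realize L M (ofS S) _ _ φ
          Empty.elim fun i : Fin k => v i)) ∧
      ∀ (M : Type) (s : L.Structure M) (w : ℕ → M), x.eval (graph s) w := by
  induction φ with
  | falsum =>
    refine ⟨NForm.neg (NForm.eq 0 0), NForm.eq 0 0, fun M _ S v w _ => ?_, fun M s w => rfl⟩
    exact ⟨fun h => h rfl, fun h => h.elim⟩
  | @equal k t₁ t₂ =>
    obtain ⟨a₁, x₁, h₁, g₁⟩ := term_nform t₁ (k + 1) k (by omega) (by omega)
    obtain ⟨a₂, x₂, h₂, g₂⟩ := term_nform t₂ (k + 1) k (by omega) (by omega)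
    refine ⟨NForm.ex k (NForm.and a₁ a₂), NForm.and x₁ x₂, ?_, fun M s w =>
      ⟨g₁ M s w, g₂ M s w⟩⟩
    rintro M hM S v w ⟨hx1, hx2⟩
    have hv : ∀ y : M, (fun i : Fin k => Function.update v k y (i : ℕ)) =
        fun i : Fin k => v i := by
      intro y
      funext i
      exact Function.update_of_ne (by have := i.2; omega) _ _
    show (∃ y, a₁.eval S (Function.update v k y) ∧ a₂.eval S (Function.update v k y)) ↔
      @FirstOrder.Language.Term.realize L M (ofS S) _
        (Sum.elim Empty.elim fun i : Fin k => v i) t₁ =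
      @FirstOrder.Language.Term.realize L M (ofS S) _
        (Sum.elim Empty.elim fun i : Fin k => v i) t₂
    constructor
    · rintro ⟨y, hy1, hy2⟩
      rw [h₁ M hM S _ w hx1, hv, Function.update_self] at hy1
      rw [h₂ M hM S _ w hx2, hv, Function.update_self] at hy2
      rw [← hy1, ← hy2]
    · intro h
      refine ⟨@FirstOrder.Language.Term.realize L M (ofS S) _
        (Sum.elim Empty.elim fun i : Fin k => v i) t₁, ?_, ?_⟩
      · rw [h₁ M hM S _ w hx1, hv, Function.update_self]
      · rw [h₂ M hM S _ w hx2, hv, Function.update_self]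
        exact h
  | @rel k l R ts =>
    have hi : ∀ i : Fin l, ∃ a x : NForm (Sym L),
      (∀ (M : Type) (_ : Nonempty M) (S : Sym L → List M → Prop) (v w : ℕ → M), x.eval S w →
        (a.eval S v ↔ v (k + i) = @FirstOrder.Language.Term.realize L M (ofS S) _
          (Sum.elim Empty.elim fun i : Fin k => v i) (ts i))) ∧
      ∀ (M : Type) (s : L.Structure M) (w : ℕ → M), x.eval (graph s) w := fun i =>
      term_nform (ts i) (k + l) (k + i) (by omega) (by omega)
    choose A X hA hX using hi
    refine ⟨exl (List.range' k l) (NForm.and (andl (List.ofFn A))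
      (NForm.rel (Sum.inr ⟨l, R⟩) (List.range' k l))), andl (List.ofFn X), ?_, ?_⟩
    · intro M hM S v w hx1
      rw [eval_andl, List.forall_mem_ofFn_iff] at hx1
      rw [eval_exl]
      set ys₀ : Fin l → M := fun i => @FirstOrder.Language.Term.realize L M (ofS S) _
          (Sum.elim Empty.elim fun i : Fin k => v i) (ts i) with hys₀
      have key : ∀ ys : Fin l → M, (NForm.and (andl (List.ofFn A))
          (NForm.rel (Sum.inr ⟨l, R⟩) (List.range' k l))).eval S (blk k l ys v) ↔
          ys = ys₀ ∧ S (Sum.inr ⟨l, R⟩) (List.ofFn ys) := by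
        intro ys
        refine and_congr ?_ ?_
        · rw [eval_andl, List.forall_mem_ofFn_iff, funext_iff]
          refine forall_congr' fun i => ?_
          rw [hA i M hM S (blk k l ys v) w (hx1 i)]
          have e1 : blk k l ys v (k + i) = ys i := by
            rw [blk, dif_pos (by omega)]
            congr 1
            exact Fin.ext (by simp)
          have e2 : (fun i : Fin k => blk k l ys v i) = fun i : Fin k => v i := by
            funext j
            rw [blk, dif_neg (by omega)]
          rw [e1, e2]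
        · show S _ ((List.range' k l).map _) ↔ _
          rw [map_blk]
      rw [exists_congr key]
      show _ ↔ S (Sum.inr ⟨l, R⟩) (List.ofFn ys₀)
      constructor
      · rintro ⟨ys, rfl, h⟩
        exact h
      · intro h
        exact ⟨ys₀, rfl, h⟩
    · intro M s w
      rw [eval_andl, List.forall_mem_ofFn_iff]
      exact fun i => hX i M s w
  | imp f₁ f₂ ih₁ ih₂ =>
    obtain ⟨a₁, x₁, h₁, g₁⟩ := ih₁
    obtain ⟨a₂, x₂, h₂, g₂⟩ := ih₂
    refine ⟨NForm.imp a₁ a₂, NForm.and x₁ x₂, ?_, fun M s w => ⟨g₁ M s w, g₂ M s w⟩⟩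
    rintro M hM S v w ⟨hx1, hx2⟩
    rw [eval_imp, h₁ M hM S v w hx1, h₂ M hM S v w hx2]
    exact Iff.rfl
  | @all k f ih =>
    obtain ⟨a₁, x₁, h₁, g₁⟩ := ih
    refine ⟨NForm.all k a₁, x₁, ?_, g₁⟩
    intro M hM S v w hx
    rw [eval_all]
    show _ ↔ ∀ y : M, @FirstOrder.Language.BoundedFormula.Realize L M (ofS S) _ _ f Empty.elim
      (Fin.snoc (fun i : Fin k => v i) y)
    refine forall_congr' fun y => ?_
    rw [h₁ M hM S _ w hx]
    have e1 : (Fin.snoc (fun i : Fin k => v i) y : Fin (k + 1) → M) =
        fun i : Fin (k + 1) => Function.update v k y i := by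
      funext i
      refine Fin.lastCases ?_ (fun j => ?_) i
      · simp
      · have hj := j.2
        simp [Function.update_of_ne (show (j : ℕ) ≠ k by omega)]
    rw [e1]

theorem sentence_nform {L : FirstOrder.Language.{0, 0}} (φ : L.Sentence) :
    ∃ a : NForm (Sym L), ∀ (M : Type) (_ : Nonempty M),
      (∃ s : L.Structure M, @FirstOrder.Language.Sentence.Realize L M s φ) ↔
      ∃ S : Sym L → List M → Prop, ∀ v, a.eval S v := by
  obtain ⟨a, x, h, g⟩ := formula_nform φ
  have hr : ∀ (M : Type) (s : L.Structure M) (v : ℕ → M),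
      @FirstOrder.Language.BoundedFormula.Realize L M s _ _ φ Empty.elim
        (fun i : Fin 0 => v i) ↔ @FirstOrder.Language.Sentence.Realize L M s φ := by
    intro M s v
    have e1 : (fun i : Fin 0 => v i) = (default : Fin 0 → M) := Subsingleton.elim _ _
    have e2 : (Empty.elim : Empty → M) = (default : Empty → M) := Subsingleton.elim _ _
    rw [e1, e2]
    exact Iff.rfl
  refine ⟨NForm.and x a, fun M hM => ⟨?_, ?_⟩⟩
  · rintro ⟨s, hs⟩
    refine ⟨graph s, fun v => ⟨g M s v, ?_⟩⟩
    rw [h M hM (graph s) v v (g M s v), ofS_graph, hr]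
    exact hs
  · rintro ⟨S, hS⟩
    obtain ⟨m⟩ := hM
    have h1 := hS fun _ => m
    refine ⟨@ofS L M ⟨m⟩ S, ?_⟩
    rw [← hr M _ fun _ => m]
    exact (h M ⟨m⟩ S _ _ h1.1).1 h1.2

end Pool.Agent.Lib.MP_586990_lc
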