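import Pool.Agent.Lib.MP_586990_lc.DefOk

set_option autoImplicit false

/-!
# Spectra of semiorders are spectra
-/

namespace Pool.Agent.Lib.MP_586990_lc

open FirstOrder FirstOrder.Language

/-- The axioms of partial orders. -/
private def axPO : FirstOrder.Language.order.Sentence :=
  (leSymb : FirstOrder.Language.order.Relations 2).reflexive ⊓
    ((leSymb : FirstOrder.Language.order.Relations 2).transitive ⊓
      (leSymb : FirstOrder.Language.order.Relations 2).antisymmetric)

/-- The structure of a partial order satisfies the axioms. -/
private theorem axPO_of_po (M : Type) (i : PartialOrder M) :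
    @FirstOrder.Language.Sentence.Realize FirstOrder.Language.order M
      (FirstOrder.Language.orderStructure M) axPO := by
  let _ : FirstOrder.Language.order.Structure M := FirstOrder.Language.orderStructure M
  refine FirstOrder.Language.Formula.realize_inf.2
    ⟨?_, FirstOrder.Language.Formula.realize_inf.2 ⟨?_, ?_⟩⟩
  · exact FirstOrder.Language.Relations.realize_reflexive.2 ⟨fun a => le_refl a⟩
  · exact FirstOrder.Language.Relations.realize_transitive.2
      ⟨fun a b c (h : a ≤ b) (h' : b ≤ c) => le_trans h h'⟩
  · exact FirstOrder.Language.Relations.realize_antisymmetric.2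
      ⟨fun a b (h : a ≤ b) (h' : b ≤ a) => le_antisymm h h'⟩

/-- A structure which satisfies the axioms is the structure of a partial order. -/
private theorem exists_po (M : Type) (s : FirstOrder.Language.order.Structure M)
    (h : @FirstOrder.Language.Sentence.Realize FirstOrder.Language.order M s axPO) :
    ∃ i : PartialOrder M, @FirstOrder.Language.orderStructure M i.toLE = s := by
  obtain ⟨h1, h23⟩ := FirstOrder.Language.Formula.realize_inf.1 h
  obtain ⟨h2, h3⟩ := FirstOrder.Language.Formula.realize_inf.1 h23
  have h1' := FirstOrder.Language.Relations.realize_reflexive.1 h1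
  have h2' := FirstOrder.Language.Relations.realize_transitive.1 h2
  have h3' := FirstOrder.Language.Relations.realize_antisymmetric.1 h3
  refine ⟨{ le := fun a b => FirstOrder.Language.Structure.RelMap
              (leSymb : FirstOrder.Language.order.Relations 2) ![a, b]
            le_refl := fun a => h1'.refl a
            le_trans := fun a b c => h2'.trans a b c
            le_antisymm := fun a b => h3'.antisymm a b }, ?_⟩
  refine FirstOrder.Language.Structure.ext ?_ ?_
  · funext n f
    exact isEmptyElim f
  · funext n R x
    cases R
    have hx : x = ![x 0, x 1] := by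
      funext j
      fin_cases j <;> rfl
    conv_rhs => rw [hx]
    rfl

theorem semiSpec_spec (ψ : FirstOrder.Language.order.Sentence) :
    ∃ ψ' : FirstOrder.Language.order.Sentence, Spec ψ' = SpecC Semi ψ := by
  obtain ⟨χ, hχ⟩ := UD.sentence (R := fun M i => @IsSemi M i) UD.isSemi
  refine ⟨axPO ⊓ (χ ⊓ ψ), ?_⟩
  ext n
  constructor
  · rintro ⟨M, s, hf, hn, hs⟩
    obtain ⟨h1, h23⟩ := FirstOrder.Language.Formula.realize_inf.1 hs
    obtain ⟨i, rfl⟩ := exists_po M s h1
    let _ : FirstOrder.Language.order.Structure M := FirstOrder.Language.orderStructure M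
    obtain ⟨h2, h3⟩ := FirstOrder.Language.Formula.realize_inf.1 h23
    exact ⟨M, i, hf, hn, (hχ M i).1 h2, h3⟩
  · rintro ⟨M, i, hf, hn, hs, ht⟩
    let _ : FirstOrder.Language.order.Structure M := FirstOrder.Language.orderStructure M
    refine ⟨M, @FirstOrder.Language.orderStructure M i.toLE, hf, hn, ?_⟩
    exact FirstOrder.Language.Formula.realize_inf.2
      ⟨axPO_of_po M i, FirstOrder.Language.Formula.realize_inf.2 ⟨(hχ M i).2 hs, ht⟩⟩

end Pool.Agent.Lib.MP_586990_lc
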