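import Pool.Agent.Lib.MP_586990_lc.TDefs

set_option autoImplicit false

/-!
# The tile system of a normal form: completeness
-/

namespace Pool.Agent.Lib.MP_586990_lc

open Classical in
/-- The label of the cell in row `t` and column `j`. -/
private noncomputable def TComp_g (F : NF) (n m : ℕ) (W : ℕ → F.σ) (t j : ℕ) : Lbl F where
  fst := decide (j = 0)
  lst := decide (j + 1 = m)
  r0 := decide (t = 0)
  rL := decide (t + 1 = m)
  dl := decide (t = j)
  zc b := decide (n ^ (b : ℕ) ∣ j)
  zr b := decide (n ^ (b : ℕ) ∣ t)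
  mc b := decide (n ^ (b : ℕ) ∣ j + 1)
  mr b := decide (n ^ (b : ℕ) ∣ t + 1)
  e a b := decide (Dg n t j a b)
  wc := W j
  wr := W t
  acc k := decide (∃ j', j' ≤ j ∧ F.D k (Dg n t j') (W t) (W j'))

private theorem TComp_e (F : NF) (n m : ℕ) (W : ℕ → F.σ) (t j : ℕ) :
    (fun a b => (TComp_g F n m W t j).e a b = true) = Dg n t j := by
  funext a b
  simp only [TComp_g, decide_eq_true_eq]

private theorem TComp_z {n : ℕ} (j b : ℕ) (h : n ^ b ∣ j) :
    j / n ^ b % n = 0 ↔ n ^ (b + 1) ∣ j := by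
  rw [← Nat.dvd_iff_mod_eq_zero, pow_succ, Nat.dvd_div_iff_mul_dvd h]

private theorem TComp_succ {n : ℕ} (j b : ℕ) (h : n ^ b ∣ j + 1) :
    (j + 1) / n ^ b = j / n ^ b + 1 := by
  rw [Nat.succ_div, if_pos h]

private theorem TComp_same {n : ℕ} (j b : ℕ) (h : ¬ n ^ b ∣ j + 1) :
    (j + 1) / n ^ b = j / n ^ b := by
  rw [Nat.succ_div, if_neg h, add_zero]

private theorem TComp_mod {n : ℕ} (hn : 2 ≤ n) (x : ℕ) : x % n = n - 1 ↔ (x + 1) % n = 0 := by
  constructor
  · intro h
    rw [Nat.add_mod, h, Nat.mod_eq_of_lt (show 1 < n by omega), Nat.sub_add_cancel (by omega),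
      Nat.mod_self]
  · intro h
    have h1 : n ∣ x + 1 := Nat.dvd_of_mod_eq_zero h
    obtain ⟨c, hc⟩ := h1
    obtain ⟨d, rfl⟩ : ∃ d, c = d + 1 := by
      refine ⟨c - 1, ?_⟩
      have : c ≠ 0 := by
        rintro rfl
        omega
      omega
    have h2 : x = n * d + (n - 1) := by
      rw [mul_add, mul_one] at hc
      omega
    rw [h2, Nat.mul_add_mod, Nat.mod_eq_of_lt (by omega)]

private theorem TComp_m {n : ℕ} (hn : 2 ≤ n) (j b : ℕ) (h : n ^ b ∣ j + 1) :
    j / n ^ b % n = n - 1 ↔ n ^ (b + 1) ∣ j + 1 := by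
  rw [TComp_mod hn, ← TComp_succ j b h]
  exact TComp_z (j + 1) b h

private theorem TComp_add {n x y : ℕ} : (x + 1) % n = (y + 1) % n ↔ x % n = y % n :=
  ⟨fun h => Nat.ModEq.add_right_cancel' 1 h, fun h => Nat.ModEq.add_right 1 h⟩

section

variable {F : NF} {n m : ℕ} {W : ℕ → F.σ}

private theorem TComp_cell (hn : 2 ≤ n) (hm : m = n ^ (F.q + 1)) (hm2 : 2 ≤ m)
    (hC : ∀ t j, t < m → j < m → F.C (Dg n t j) (W t) (W j))
    (hD : ∀ k t, t < m → ∃ j, j < m ∧ F.D k (Dg n t j) (W t) (W j))
    {t j : ℕ} (ht : t < m) (hj : j < m) : CellOk F (TComp_g F n m W t j) where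
  h1 := by
    simp only [TComp_g, decide_eq_true_eq]
    omega
  h2 := by
    simp only [TComp_g, decide_eq_true_eq, decide_eq_false_iff_not]
    omega
  h3 := by
    simp only [TComp_g, decide_eq_true_eq]
    rintro rfl
    exact ⟨rfl, rfl, rfl⟩
  h4 := by
    simp [TComp_g]
  h5 := by
    simp only [TComp_g, decide_eq_true_eq]
    rintro rfl b
    exact dvd_zero _
  h6 := by
    simp only [TComp_g, decide_eq_true_eq, Fin.val_succ, Fin.val_castSucc]
    intro b hb
    exact (pow_dvd_pow n (Nat.le_succ _)).trans hb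
  h7 := by
    simp only [TComp_g, decide_eq_true_eq, Fin.val_last]
    intro h
    have := Nat.le_of_dvd (Nat.succ_pos j) h
    omega
  h8 := by
    simp only [TComp_g, decide_eq_true_eq]
    intro h b
    rw [h, hm]
    exact pow_dvd_pow n (by omega)
  e1 := by
    intro a b
    simp only [TComp_g, decide_eq_true_eq, Fin.val_succ, Fin.val_castSucc]
    rintro rfl hb
    refine decide_eq_decide.2 ?_
    rw [← TComp_z j b hb]
    unfold Dg
    rw [Nat.zero_div, Nat.zero_mod]
    exact eq_comm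
  e2 := by
    intro a b
    simp only [TComp_g, decide_eq_true_eq, Fin.val_succ, Fin.val_castSucc]
    rintro rfl ha
    refine decide_eq_decide.2 ?_
    rw [← TComp_z t a ha]
    unfold Dg
    rw [Nat.zero_div, Nat.zero_mod]
  e3 := by
    intro b
    simp only [TComp_g, decide_eq_true_eq, Fin.val_succ, Fin.val_castSucc]
    intro h1 hb
    refine decide_eq_decide.2 ?_
    rw [← TComp_m hn j b hb]
    unfold Dg
    have h2 : n ^ 0 ∣ t + 1 := by simp
    have h3 : t / n ^ 0 % n = n - 1 := by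
      rw [TComp_m hn t 0 h2]
      simpa using h1
    rw [Fin.val_zero, h3]
    exact eq_comm
  c1 := by
    rw [TComp_e]
    exact hC t j ht hj
  a1 := by
    intro h k
    have h0 : j = 0 := by simpa [TComp_g] using h
    subst h0
    rw [TComp_e]
    simp only [TComp_g, decide_eq_true_eq]
    constructor
    · rintro ⟨j', hj', h1⟩
      rwa [Nat.le_zero.1 hj'] at h1
    · intro h1
      exact ⟨0, le_rfl, h1⟩
  a2 := by
    intro h k
    simp only [TComp_g, decide_eq_true_eq] at h ⊢
    obtain ⟨j', hj', h1⟩ := hD k t ht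
    exact ⟨j', by omega, h1⟩

private theorem TComp_horA {t j : ℕ} (hj : j + 1 < m) :
    HorOk F (TComp_g F n m W t j) (TComp_g F n m W t (j + 1)) where
  h1 := by
    simp only [TComp_g]
    refine decide_eq_decide.2 ?_
    omega
  h2 := by
    simp [TComp_g]
  h3 := by
    simp only [TComp_g, decide_eq_true_eq, decide_eq_false_iff_not]
    omega
  h4 := by
    intro _
    exact ⟨rfl, rfl, rfl, rfl⟩
  e1 := by
    intro _ a b
    simp only [TComp_g, decide_eq_false_iff_not, Fin.val_castSucc]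
    intro hb
    refine decide_eq_decide.2 ?_
    unfold Dg
    rw [TComp_same j b hb]
  a1 := by
    intro _ k
    rw [TComp_e]
    simp only [TComp_g, decide_eq_true_eq]
    constructor
    · rintro ⟨j', hj', h1⟩
      rcases Nat.lt_or_ge j' (j + 1) with h2 | h2
      · exact Or.inl ⟨j', by omega, h1⟩
      · have h3 : j' = j + 1 := by omega
        rw [h3] at h1
        exact Or.inr h1
    · rintro (⟨j', hj', h1⟩ | h1)
      · exact ⟨j', by omega, h1⟩
      · exact ⟨j + 1, le_rfl, h1⟩

private theorem TComp_horB (hm2 : 2 ≤ m) {t : ℕ} :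
    HorOk F (TComp_g F n m W t (m - 1)) (TComp_g F n m W (t + 1) 0) where
  h1 := by
    have h : m - 1 + 1 = m := by omega
    simp [TComp_g, h]
  h2 := by
    simp [TComp_g]
  h3 := by
    simp [TComp_g]
  h4 := by
    simp [TComp_g]
  e1 := by
    simp [TComp_g]
  a1 := by
    simp [TComp_g]

private theorem TComp_ver {t j : ℕ} (ht : t + 1 < m) :
    VerOk F (TComp_g F n m W t j) (TComp_g F n m W (t + 1) j) where
  h1 := ⟨rfl, rfl⟩
  h2 := by
    simp only [TComp_g, decide_eq_false_iff_not]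
    omega
  h3 := ⟨rfl, rfl, rfl⟩
  h4 := rfl
  e1 := by
    intro a b
    simp only [TComp_g, decide_eq_false_iff_not, Fin.val_castSucc]
    intro ha
    refine decide_eq_decide.2 ?_
    unfold Dg
    rw [TComp_same t a ha]

private theorem TComp_diaA {t j : ℕ} :
    DiaOk F (TComp_g F n m W t j) (TComp_g F n m W (t + 1) (j + 1)) where
  h1 := by
    intro _
    simp only [TComp_g]
    refine decide_eq_decide.2 ?_
    omega
  e1 := by
    intro _ a b
    simp only [TComp_g, decide_eq_true_eq, Fin.val_castSucc]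
    intro ha hb
    refine decide_eq_decide.2 ?_
    unfold Dg
    rw [TComp_succ t a ha, TComp_succ j b hb]
    exact TComp_add.symm

private theorem TComp_diaB (hm2 : 2 ≤ m) {t : ℕ} (y : Lbl F) :
    DiaOk F (TComp_g F n m W t (m - 1)) y where
  h1 := by
    simp only [TComp_g, decide_eq_false_iff_not]
    omega
  e1 := by
    simp only [TComp_g, decide_eq_false_iff_not]
    omega

end

private theorem TComp_dm {m t j : ℕ} (hj : j < m) : (t * m + j) / m = t ∧ (t * m + j) % m = j := by
  have hm : 0 < m := by omega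
  constructor
  · rw [mul_comm, Nat.mul_add_div hm, Nat.div_eq_of_lt hj, add_zero]
  · rw [mul_comm, Nat.mul_add_mod, Nat.mod_eq_of_lt hj]

theorem tile_complete (F : NF) {n : ℕ} (hn : 2 ≤ n) (h : F.SatN n) :
    ∃ f, (tileSys F).Sat (n ^ (2 * (F.q + 1))) (n ^ (F.q + 1)) f := by
  obtain ⟨W, hC, hD⟩ := h
  obtain ⟨m, hm⟩ : ∃ m, m = n ^ (F.q + 1) := ⟨_, rfl⟩
  have hN : n ^ (2 * (F.q + 1)) = m * m := by
    rw [hm, ← pow_add, two_mul]
  have hm2 : 2 ≤ m := by
    rw [hm]
    calc 2 ≤ n := hn
      _ = n ^ 1 := (pow_one n).symm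
      _ ≤ n ^ (F.q + 1) := Nat.pow_le_pow_right (by omega) (by omega)
  rw [← hm] at hC hD ⊢
  rw [hN]
  obtain ⟨f, hf⟩ : ∃ f : ℕ → Lbl F, ∀ t j, j < m → f (t * m + j) = TComp_g F n m W t j := by
    refine ⟨fun k => TComp_g F n m W (k / m) (k % m), fun t j hj => ?_⟩
    simp only [(TComp_dm hj).1, (TComp_dm hj).2]
  have hdec : ∀ k, ∃ t j, j < m ∧ k = t * m + j := by
    intro k
    refine ⟨k / m, k % m, Nat.mod_lt _ (by omega), ?_⟩
    rw [mul_comm]
    exact (Nat.div_add_mod k m).symm
  have hlt : ∀ t j, t * m + j < m * m → t < m := by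
    intro t j h1
    by_contra h2
    push Not at h2
    have := Nat.mul_le_mul_right m h2
    omega
  have hlt1 : ∀ t j, (t + 1) * m + j < m * m → t + 1 < m := fun t j h1 => hlt (t + 1) j h1
  refine ⟨f, ?_⟩
  refine { pos := by omega, le := Nat.mul_le_mul_right m hm2, cell := ?_, init := ?_,
           last := ?_, row0 := ?_, rowL := ?_, hor := ?_, ver := ?_, dia := ?_ }
  · intro k hk
    obtain ⟨t, j, hj, rfl⟩ := hdec k
    rw [hf t j hj]
    exact TComp_cell hn hm hm2 hC hD (hlt t j hk) hj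
  · have h0 := hf 0 0 (by omega)
    rw [zero_mul, zero_add] at h0
    rw [h0]
    change _ ∧ _
    simp [TComp_g]
  · have h0 := hf (m - 1) (m - 1) (by omega)
    have h1 : (m - 1) * m + (m - 1) = m * m - 1 := by
      obtain ⟨d, rfl⟩ : ∃ d, m = d + 1 := ⟨m - 1, by omega⟩
      simp only [Nat.add_sub_cancel]
      have : (d + 1) * (d + 1) = d * (d + 1) + (d + 1) := by ring
      omega
    have h2 : m - 1 + 1 = m := by omega
    rw [h1] at h0
    rw [h0]
    change _ ∧ _
    simp [TComp_g, h2]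
  · intro k hk
    have h0 := hf 0 k hk
    rw [zero_mul, zero_add] at h0
    rw [h0]
    change _ = _
    simp [TComp_g]
  · intro k hk1 hk2
    obtain ⟨t, j, hj, rfl⟩ := hdec k
    rw [hf t j hj]
    change _ = _
    simp only [TComp_g, decide_eq_true_eq]
    have h1 := hlt t j hk1
    by_contra h2
    have h3 : t + 2 ≤ m := by omega
    have h4 := Nat.mul_le_mul_right m h3
    have h5 : (t + 2) * m = t * m + 2 * m := by ring
    omega
  · intro k hk
    obtain ⟨t, j, hj, rfl⟩ := hdec k
    rcases Nat.lt_or_ge (j + 1) m with h1 | h1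
    · rw [hf t j hj, add_assoc, hf t (j + 1) h1]
      exact TComp_horA h1
    · have h2 : j = m - 1 := by omega
      have h3 : t * m + j + 1 = (t + 1) * m + 0 := by
        rw [add_mul, one_mul]
        omega
      rw [h3, hf t j hj, hf (t + 1) 0 (by omega), h2]
      exact TComp_horB hm2
  · intro k hk
    obtain ⟨t, j, hj, rfl⟩ := hdec k
    have h3 : t * m + j + m = (t + 1) * m + j := by
      rw [add_mul, one_mul]
      omega
    rw [h3] at hk ⊢
    rw [hf t j hj, hf (t + 1) j hj]
    exact TComp_ver (hlt1 t j hk)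
  · intro k hk
    obtain ⟨t, j, hj, rfl⟩ := hdec k
    rw [hf t j hj]
    rcases Nat.lt_or_ge (j + 1) m with h1 | h1
    · have h3 : t * m + j + m + 1 = (t + 1) * m + (j + 1) := by
        rw [add_mul, one_mul]
        omega
      rw [h3, hf (t + 1) (j + 1) h1]
      exact TComp_diaA
    · have h2 : j = m - 1 := by omega
      rw [h2]
      exact TComp_diaB hm2 _

end Pool.Agent.Lib.MP_586990_lc
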