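import Pool.Agent.Lib.MP_586990_lc.TGeo

set_option autoImplicit false

/-!
# The tile system of a normal form: equality of digits
-/

namespace Pool.Agent.Lib.MP_586990_lc

variable {F : NF} {N m : ℕ} {f : ℕ → Lbl F}

theorem TDig_eqv (x y n : ℕ) : x % n = y % n ↔ (x + 1) % n = (y + 1) % n := by
  constructor
  · intro h
    exact Nat.ModEq.add_right 1 h
  · intro h
    exact Nat.ModEq.add_right_cancel' 1 h

theorem TDig_zero {n c j : ℕ} (hn : 2 ≤ n) (h : n ^ c ∣ j) :
    n ^ (c + 1) ∣ j ↔ j / n ^ c % n = 0 := by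
  obtain ⟨d, rfl⟩ := h
  have h0 : 0 < n ^ c := Nat.pow_pos (by omega)
  rw [Nat.mul_div_cancel_left _ h0, pow_succ, Nat.mul_dvd_mul_iff_left h0]
  exact Nat.dvd_iff_mod_eq_zero

theorem TDig_core {m n A B : ℕ} (hn : 2 ≤ n) (E : ℕ → ℕ → Prop)
    (h1 : ∀ t j, t < m → j + 1 < m → ¬ n ^ B ∣ j + 1 → (E t j ↔ E t (j + 1)))
    (h2 : ∀ t j, t + 1 < m → j < m → ¬ n ^ A ∣ t + 1 → (E t j ↔ E (t + 1) j))
    (h3 : ∀ t j, t + 1 < m → j + 1 < m → n ^ A ∣ t + 1 → n ^ B ∣ j + 1 →
      (E t j ↔ E (t + 1) (j + 1)))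
    (h4 : ∀ j, j < m → n ^ B ∣ j → (E 0 j ↔ n ^ (B + 1) ∣ j))
    (h5 : ∀ t, t < m → n ^ A ∣ t → (E t 0 ↔ n ^ (A + 1) ∣ t)) :
    ∀ s t j, t + j = s → t < m → j < m → (E t j ↔ t / n ^ A % n = j / n ^ B % n) := by
  intro s
  induction s using Nat.strong_induction_on with
  | _ s ih =>
    intro t j hs ht hj
    by_cases hB : n ^ B ∣ j
    · by_cases hA : n ^ A ∣ t
      · rcases Nat.eq_zero_or_pos t with h0 | h0
        · subst h0
          rw [h4 j hj hB, TDig_zero hn hB, Nat.zero_div, Nat.zero_mod]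
          exact eq_comm
        · rcases Nat.eq_zero_or_pos j with h0' | h0'
          · subst h0'
            rw [h5 t ht hA, TDig_zero hn hA, Nat.zero_div, Nat.zero_mod]
          · obtain ⟨t, rfl⟩ : ∃ t', t = t' + 1 := ⟨t - 1, by omega⟩
            obtain ⟨j, rfl⟩ : ∃ j', j = j' + 1 := ⟨j - 1, by omega⟩
            rw [← h3 t j ht hj hA hB, Nat.succ_div_of_dvd hA, Nat.succ_div_of_dvd hB, ← TDig_eqv]
            exact ih (t + j) (by omega) t j rfl (by omega) (by omega)
      · rcases Nat.eq_zero_or_pos t with h0 | h0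
        · exact absurd (h0 ▸ dvd_zero _) hA
        · obtain ⟨t, rfl⟩ : ∃ t', t = t' + 1 := ⟨t - 1, by omega⟩
          rw [← h2 t j ht hj hA, Nat.succ_div_of_not_dvd hA]
          exact ih (t + j) (by omega) t j rfl (by omega) (by omega)
    · rcases Nat.eq_zero_or_pos j with h0 | h0
      · exact absurd (h0 ▸ dvd_zero _) hB
      · obtain ⟨j, rfl⟩ : ∃ j', j = j' + 1 := ⟨j - 1, by omega⟩
        rw [← h1 t j ht hj hB, Nat.succ_div_of_not_dvd hB]
        exact ih (t + j) (by omega) t j rfl (by omega) (by omega)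

theorem TDig_lt {m t j : ℕ} (ht : t < m) (hj : j < m) : t * m + j < m * m := by
  have : (t + 1) * m ≤ m * m := Nat.mul_le_mul_right _ ht
  rw [Nat.add_mul] at this
  omega

theorem tile_dig (h : (tileSys F).Sat N m f) {n : ℕ} (hn : 2 ≤ n) (hm : m = n ^ (F.q + 1))
    (hz : ∀ (b : Fin (F.q + 2)) (j : ℕ), j < m → ((f j).zc b = true ↔ n ^ (b : ℕ) ∣ j))
    {t j : ℕ} (ht : t < m) (hj : j < m) (a b : Fin (F.q + 1)) :
    (f (t * m + j)).e a b = true ↔ Dg n t j a b := by
  obtain ⟨-, hN, hg⟩ := tile_geo h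
  have hzc : ∀ (c : Fin (F.q + 2)) (t j : ℕ), t < m → j < m →
      ((f (t * m + j)).zc c = true ↔ n ^ (c : ℕ) ∣ j) := by
    intro c t j ht hj
    rw [(tile_cols h ht hj).1]
    exact hz c j hj
  have hzr : ∀ (c : Fin (F.q + 2)) (t j : ℕ), t < m → j < m →
      ((f (t * m + j)).zr c = true ↔ n ^ (c : ℕ) ∣ t) := by
    intro c t j ht hj
    rw [(tile_cols h ht hj).2.2.2.1]
    exact hz c t ht
  have hfst : ∀ t j, t < m → j < m → j ≠ 0 → (f (t * m + j)).fst = false := by
    intro t j ht hj h0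
    rw [← Bool.not_eq_true, (hg t j ht hj).1]
    exact h0
  refine TDig_core hn (fun t j => (f (t * m + j)).e a b = true) ?_ ?_ ?_ ?_ ?_ (t + j) t j rfl
    ht hj
  · intro t j ht hj hB
    have h1 : HorOk F (f (t * m + j)) (f (t * m + j + 1)) :=
      h.hor (t * m + j) (by
        have := TDig_lt ht hj
        omega)
    rw [add_assoc] at h1
    have h2 := h1.e1 (hfst t (j + 1) ht hj (by omega)) a b (by
      rw [← Bool.not_eq_true, hzc _ t (j + 1) ht hj]
      exact hB)
    simp only [h2]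
  · intro t j ht hj hA
    have h1 : VerOk F (f (t * m + j)) (f (t * m + j + m)) :=
      h.ver (t * m + j) (by
        have := TDig_lt ht hj
        rw [Nat.add_mul] at this
        omega)
    have e : t * m + j + m = (t + 1) * m + j := by ring
    rw [e] at h1
    have h2 := h1.e1 a b (by
      rw [← Bool.not_eq_true, hzr _ (t + 1) j ht hj]
      exact hA)
    simp only [h2]
  · intro t j ht hj hA hB
    have e : t * m + j + m + 1 = (t + 1) * m + (j + 1) := by ring
    have h1 : DiaOk F (f (t * m + j)) (f (t * m + j + m + 1)) :=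
      h.dia (t * m + j) (by
        have := TDig_lt ht hj
        rw [e]
        omega)
    rw [e] at h1
    have h2 := h1.e1 (by
      rw [← Bool.not_eq_true, (hg t j (by omega) (by omega)).2.1]
      omega) a b (by
      rw [hzr _ (t + 1) (j + 1) ht hj]
      exact hA) (by
      rw [hzc _ (t + 1) (j + 1) ht hj]
      exact hB)
    simp only [h2]
  · intro j hj hB
    have h0 : 0 < m := by omega
    have h1 : CellOk F (f (0 * m + j)) := h.cell _ (by
      have := TDig_lt h0 hj
      omega)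
    have h2 := h1.e1 a b (by rw [(hg 0 j h0 hj).2.2.1]) (by
      rw [hzc _ 0 j h0 hj]
      exact hB)
    simp only [h2]
    rw [hzc _ 0 j h0 hj]
    rfl
  · intro t ht hA
    have h0 : 0 < m := by omega
    have h1 : CellOk F (f (t * m + 0)) := h.cell _ (by
      have := TDig_lt ht h0
      omega)
    have h2 := h1.e2 a b (by rw [(hg t 0 ht h0).1]) (by
      rw [hzr _ t 0 ht h0]
      exact hA)
    simp only [h2]
    rw [hzr _ t 0 ht h0]
    rfl

end Pool.Agent.Lib.MP_586990_lc
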