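import Pool.Agent.Lib.MP_586990_lc.TMark
import Pool.Agent.Lib.MP_586990_lc.TDig
import Pool.Agent.Lib.MP_586990_lc.TComp

set_option autoImplicit false

/-!
# The tile system of a normal form: soundness
-/

namespace Pool.Agent.Lib.MP_586990_lc

theorem tile_sound {F : NF} {N m : ℕ} {f : ℕ → Lbl F} (h : (tileSys F).Sat N m f) :
    ∃ n, 2 ≤ n ∧ N = n ^ (2 * (F.q + 1)) ∧ F.SatN n := by
  obtain ⟨n, hn, hm, hmk⟩ := tile_marks h
  obtain ⟨hm2, hN, hg⟩ := tile_geo h
  have hdig : ∀ t j, t < m → j < m →
      (fun a b => (f (t * m + j)).e a b = true) = Dg n t j := by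
    intro t j ht hj
    funext a b
    exact propext (tile_dig h hn hm (fun b j hj => (hmk b j hj).1) ht hj a b)
  have hlt : ∀ t j, t < m → j < m → t * m + j < N := by
    intro t j ht hj
    rw [hN]
    exact TDig_lt ht hj
  have hwc : ∀ t j, t < m → j < m → (f (t * m + j)).wc = (f j).wc :=
    fun t j ht hj => (tile_cols h ht hj).2.2.1
  have hwr : ∀ t j, t < m → j < m → (f (t * m + j)).wr = (f t).wc :=
    fun t j ht hj => (tile_cols h ht hj).2.2.2.2.2
  refine ⟨n, hn, ?_, fun j => (f j).wc, ?_, ?_⟩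
  · rw [hN, hm, ← pow_add]
    congr 1
    ring
  · intro t j ht hj
    rw [← hm] at ht hj
    have h1 : CellOk F (f (t * m + j)) := h.cell _ (hlt t j ht hj)
    have h2 := h1.c1
    rw [hdig t j ht hj, hwr t j ht hj, hwc t j ht hj] at h2
    exact h2
  · intro k t ht
    rw [← hm] at ht ⊢
    have key : ∀ j, j < m → ((f (t * m + j)).acc k = true ↔
        ∃ j', j' ≤ j ∧ F.D k (Dg n t j') (f t).wc (f j').wc) := by
      intro j
      induction j with
      | zero =>
        intro hj
        have h1 : CellOk F (f (t * m + 0)) := h.cell _ (hlt t 0 ht hj)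
        have h2 := h1.a1 ((hg t 0 ht hj).1.2 rfl) k
        rw [hdig t 0 ht hj, hwr t 0 ht hj, hwc t 0 ht hj] at h2
        rw [h2]
        constructor
        · intro h3
          exact ⟨0, le_rfl, h3⟩
        · rintro ⟨j', hj', h3⟩
          have : j' = 0 := by omega
          subst this
          exact h3
      | succ j ih =>
        intro hj
        have h1 : HorOk F (f (t * m + j)) (f (t * m + j + 1)) :=
          h.hor (t * m + j) (by
            have := hlt t (j + 1) ht hj
            omega)
        rw [add_assoc] at h1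
        have h2 := h1.a1 (by
          rw [← Bool.not_eq_true, (hg t (j + 1) ht hj).1]
          omega) k
        rw [hdig t (j + 1) ht hj, hwr t (j + 1) ht hj, hwc t (j + 1) ht hj,
          ih (by omega)] at h2
        rw [h2]
        constructor
        · rintro (⟨j', hj', h3⟩ | h3)
          · exact ⟨j', by omega, h3⟩
          · exact ⟨j + 1, le_rfl, h3⟩
        · rintro ⟨j', hj', h3⟩
          rcases Nat.lt_or_ge j' (j + 1) with h4 | h4
          · exact Or.inl ⟨j', by omega, h3⟩
          · have : j' = j + 1 := by omega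
            subst this
            exact Or.inr h3
    have hl : m - 1 < m := by omega
    have h1 : CellOk F (f (t * m + (m - 1))) := h.cell _ (hlt t (m - 1) ht hl)
    have h2 := h1.a2 ((hg t (m - 1) ht hl).2.1.2 (by omega)) k
    rw [key (m - 1) hl] at h2
    obtain ⟨j, hj, h3⟩ := h2
    exact ⟨j, by omega, h3⟩

theorem tile (F : NF) (N : ℕ) : (∃ m f, (tileSys F).Sat N m f) ↔
    ∃ n, 2 ≤ n ∧ N = n ^ (2 * (F.q + 1)) ∧ F.SatN n :=
  ⟨fun ⟨_, _, h⟩ => tile_sound h, fun ⟨n, h1, h2, h3⟩ => by
    obtain ⟨f, hf⟩ := tile_complete F h1 h3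
    exact ⟨n ^ (F.q + 1), f, h2 ▸ hf⟩⟩

end Pool.Agent.Lib.MP_586990_lc
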