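import Pool.Agent.Lib.MP_586990_lc.RudSub
import Pool.Agent.Lib.MP_586990_lc.Code
import Pool.Agent.Lib.MP_586990_lc.TSnd
import Pool.Agent.Lib.MP_586990_lc.Dig
import Pool.Agent.Lib.MP_586990_lc.SForm
import Pool.Agent.Lib.MP_586990_lc.GFin
import Pool.Agent.Lib.MP_586990_lc.SemiSpec

set_option autoImplicit false

/-!
# Spectra and spectra of semiorders
-/

namespace Pool.Agent.Lib.MP_586990_lc

/-- The spectrum in terms of structures on `Fin n`. -/
theorem mem_spec_iff {L : FirstOrder.Language.{0, 0}} (φ : L.Sentence) (n : ℕ) :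
    n ∈ Spec φ ↔ ∃ s : L.Structure (Fin n),
      @FirstOrder.Language.Sentence.Realize L (Fin n) s φ := by
  constructor
  · rintro ⟨M, s, hfin, hcard, hφ⟩
    have e : M ≃ Fin n := Finite.equivFinOfCardEq hcard
    letI : L.Structure (Fin n) := e.inducedStructure
    refine ⟨inferInstance, ?_⟩
    have f : FirstOrder.Language.Equiv L M (Fin n) := e.inducedStructureEquiv
    exact (FirstOrder.Language.StrongHomClass.realize_sentence f φ).1 hφ
  · rintro ⟨s, hs⟩
    exact ⟨Fin n, s, inferInstance, Nat.card_eq_fintype_card.trans (Fintype.card_fin n), hs⟩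

/-- Every spectrum in tile form. -/
theorem spec_tile {L : FirstOrder.Language.{0, 0}} (φ : L.Sentence) :
    ∃ (Λ : Type) (_ : Finite Λ) (T : TileSys Λ) (q : ℕ), 0 < q ∧ ∀ N : ℕ,
      (∃ m f, T.Sat N m f) ↔ ∃ n, 2 ≤ n ∧ N = n ^ q ∧ n ∈ Spec φ := by
  obtain ⟨a, ha⟩ := sentence_nform φ
  obtain ⟨a', ha'⟩ := a.exists_nat
  obtain ⟨F, hF⟩ := nform_nf a'
  refine ⟨Lbl F, inferInstance, tileSys F, 2 * (F.q + 1), by omega, fun N => ?_⟩
  rw [tile]
  refine exists_congr fun n => and_congr_right fun hn => and_congr_right fun _ => ?_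
  have h1 : Nonempty (Fin n) := ⟨⟨0, by omega⟩⟩
  rw [mem_spec_iff, ha (Fin n) h1, ha' (Fin n), hF n (by omega), NF.sat_iff_satN F (by omega)]

/-- Fagin's theorem for semiorders. -/
theorem exists_semi {L : FirstOrder.Language.{0, 0}} (φ : L.Sentence) :
    ∃ (c q : ℕ) (ψ : FirstOrder.Language.order.Sentence), 0 < c ∧ 0 < q ∧
      ∀ C : ∀ (M : Type), PartialOrder M → Prop,
        (∀ (M : Type) (i : PartialOrder M), Finite M → @IsSemi M i → C M i) →
        SpecC C ψ = {s | ∃ n ∈ Spec φ, 2 ≤ n ∧ s = c * n ^ q} := by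
  obtain ⟨Λ, hΛ, T, q, hq, hT⟩ := spec_tile φ
  obtain ⟨c, ψ, hc, h1, h2⟩ := code T
  refine ⟨c, q, ψ, hc, hq, fun C hC => Set.ext fun s => ⟨?_, ?_⟩⟩
  · rintro ⟨M, i, hfin, hcard, -, hψ⟩
    obtain ⟨-, N, m, f, hf, hN⟩ := h1 M i hfin hψ
    obtain ⟨n, hn, hNn, hmem⟩ := (hT N).1 ⟨m, f, hf⟩
    exact ⟨n, hmem, hn, by rw [← hcard, hN, hNn]⟩
  · rintro ⟨n, hmem, hn, rfl⟩
    obtain ⟨m, f, hf⟩ := (hT (n ^ q)).2 ⟨n, hn, rfl, hmem⟩
    obtain ⟨M, i, hfin, hcard, hsemi, hψ⟩ := h2 _ m f hf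
    exact ⟨M, i, hfin, hcard, hC M i hfin hsemi, hψ⟩

/-- The implication for every class of partial orders which contains the finite semiorders. -/
theorem main_class (C : ∀ (M : Type), PartialOrder M → Prop)
    (hC : ∀ (M : Type) (i : PartialOrder M), Finite M → @IsSemi M i → C M i)
    (h : ∀ ψ : FirstOrder.Language.order.Sentence, Rud (SpecC C ψ))
    (L : FirstOrder.Language.{0, 0}) (φ : L.Sentence) : Rud (Spec φ) := by
  obtain ⟨c, q, ψ, hc, hq, hψ⟩ := exists_semi φ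
  have h1 := (h ψ).pow c q
  refine Rud.change h1 2 fun n hn => ?_
  rw [Set.mem_ofPred_eq, hψ C hC, Set.mem_ofPred_eq]
  constructor
  · rintro ⟨n', hmem, -, heq⟩
    have h2 : n ^ q = n' ^ q := Nat.eq_of_mul_eq_mul_left hc heq
    rw [Nat.pow_left_injective hq.ne' h2]
    exact hmem
  · intro hmem
    exact ⟨n, hmem, hn, rfl⟩

/-- The equivalence. -/
theorem main_iff :
    (∀ (L : FirstOrder.Language.{0, 0}) (φ : L.Sentence), Rud (Spec φ)) ↔
    ∀ ψ : FirstOrder.Language.order.Sentence, Rud (SpecC Semi ψ) := by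
  constructor
  · intro h ψ
    obtain ⟨ψ', hψ'⟩ := semiSpec_spec ψ
    rw [← hψ']
    exact h _ ψ'
  · intro h
    exact main_class Semi (fun M i _ hM => hM) h

end Pool.Agent.Lib.MP_586990_lc
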