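import Pool.Agent.Lib.MP_586990_lc.Defs

set_option autoImplicit false

/-!
# Relational formulas: quantification over blocks of variables, conjunctions, symbols
-/

namespace Pool.Agent.Lib.MP_586990_lc

namespace NForm

variable {ρ : Type} {M : Type}

/-- Existential quantification of a list of variables. -/
def exl (l : List ℕ) (a : NForm ρ) : NForm ρ := l.foldr NForm.ex a

/-- The conjunction of a list of formulas. -/
def andl (l : List (NForm ρ)) : NForm ρ := l.foldr NForm.and (NForm.eq 0 0)

/-- Universal quantification. -/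
def all (x : ℕ) (a : NForm ρ) : NForm ρ := neg (ex x (neg a))

/-- Universal quantification of a list of variables. -/
def alll (l : List ℕ) (a : NForm ρ) : NForm ρ := neg (exl l (neg a))

/-- Implication. -/
def imp (a b : NForm ρ) : NForm ρ := neg (and a (neg b))

/-- The valuation with the values `ys` of the variables `b, .., b + l - 1`. -/
def blk (b l : ℕ) (ys : Fin l → M) (v : ℕ → M) (i : ℕ) : M :=
  if h : b ≤ i ∧ i < b + l then ys ⟨i - b, by omega⟩ else v i

variable {S : ρ → List M → Prop} {v : ℕ → M}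

private theorem blk_zero (b : ℕ) (ys : Fin 0 → M) (v : ℕ → M) : blk b 0 ys v = v := by
  funext i
  unfold blk
  rw [dif_neg (by omega)]

private theorem blk_succ (b l : ℕ) (y : M) (ys : Fin l → M) (v : ℕ → M) :
    blk b (l + 1) (Fin.cons y ys : Fin (l + 1) → M) v = blk (b + 1) l ys (Function.update v b y) := by
  funext i
  unfold blk
  by_cases h1 : i = b
  · subst h1
    rw [dif_pos (by omega), dif_neg (by omega), Function.update_self]
    have h2 : (⟨i - i, by omega⟩ : Fin (l + 1)) = 0 := by
      ext
      simp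
    rw [h2, Fin.cons_zero]
  · by_cases h2 : b + 1 ≤ i ∧ i < b + 1 + l
    · rw [dif_pos (by omega), dif_pos h2]
      have h3 : (⟨i - b, by omega⟩ : Fin (l + 1)) = Fin.succ ⟨i - (b + 1), by omega⟩ := by
        ext
        simp only [Fin.succ_mk]
        omega
      rw [h3, Fin.cons_succ]
    · rw [dif_neg (by omega), dif_neg h2, Function.update_of_ne h1]

theorem eval_exl {b l : ℕ} {a : NForm ρ} : (exl (List.range' b l) a).eval S v ↔
    ∃ ys : Fin l → M, a.eval S (blk b l ys v) := by
  induction l generalizing b v with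
  | zero =>
    have h1 : exl (List.range' b 0) a = a := rfl
    rw [h1]
    constructor
    · intro h
      exact ⟨Fin.elim0, by rw [blk_zero]; exact h⟩
    · rintro ⟨ys, h⟩
      rwa [blk_zero] at h
  | succ l ih =>
    have h1 : exl (List.range' b (l + 1)) a = ex b (exl (List.range' (b + 1) l) a) := by
      rw [List.range'_succ]
      rfl
    rw [h1]
    show (∃ y, (exl (List.range' (b + 1) l) a).eval S (Function.update v b y)) ↔ _
    constructor
    · rintro ⟨y, hy⟩
      obtain ⟨ys, h⟩ := ih.1 hy
      exact ⟨Fin.cons y ys, by rw [blk_succ]; exact h⟩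
    · rintro ⟨zs, h⟩
      refine ⟨zs 0, ih.2 ⟨Fin.tail zs, ?_⟩⟩
      rw [← blk_succ, Fin.cons_self_tail]
      exact h

theorem eval_andl {l : List (NForm ρ)} : (andl l).eval S v ↔ ∀ a ∈ l, a.eval S v := by
  induction l with
  | nil =>
    have h1 : (andl ([] : List (NForm ρ))).eval S v ↔ v 0 = v 0 := Iff.rfl
    rw [h1]
    simp
  | cons a l ih =>
    have h1 : (andl (a :: l)).eval S v ↔ a.eval S v ∧ (andl l).eval S v := Iff.rfl
    rw [h1, ih]
    simp

theorem eval_all {x : ℕ} {a : NForm ρ} : (all x a).eval S v ↔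
    ∀ y, a.eval S (Function.update v x y) := by
  show (¬ ∃ y, ¬ a.eval S (Function.update v x y)) ↔ _
  push Not
  exact Iff.rfl

theorem eval_alll {b l : ℕ} {a : NForm ρ} : (alll (List.range' b l) a).eval S v ↔
    ∀ ys : Fin l → M, a.eval S (blk b l ys v) := by
  show (¬ (exl (List.range' b l) (neg a)).eval S v) ↔ _
  rw [eval_exl]
  show (¬ ∃ ys : Fin l → M, ¬ a.eval S (blk b l ys v)) ↔ _
  push Not
  exact Iff.rfl

theorem eval_imp {a b : NForm ρ} : (imp a b).eval S v ↔ (a.eval S v → b.eval S v) := by
  show (¬ (a.eval S v ∧ ¬ b.eval S v)) ↔ _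
  tauto

theorem map_blk {b l : ℕ} {ys : Fin l → M} :
    (List.range' b l).map (blk b l ys v) = List.ofFn ys := by
  refine List.ext_getElem (by simp) fun i h1 h2 => ?_
  have h3 : i < l := by simpa using h1
  rw [List.getElem_map, List.getElem_range', List.getElem_ofFn]
  unfold blk
  rw [dif_pos (by omega)]
  congr 1
  ext
  simp

/-- the symbols of a formula -/
private def syms : NForm ρ → List ρ
  | rel R _ => [R]
  | eq _ _ => []
  | neg a => syms a
  | and a b => syms a ++ syms b
  | ex _ a => syms a

/-- renaming of the symbols -/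
private def mapS (g : ρ → ℕ) : NForm ρ → NForm ℕ
  | rel R vs => rel (g R) vs
  | eq x y => eq x y
  | neg a => neg (mapS g a)
  | and a b => and (mapS g a) (mapS g b)
  | ex x a => ex x (mapS g a)

private theorem eval_mapS (g : ρ → ℕ) (S' : ℕ → List M → Prop) : ∀ (a : NForm ρ) (v : ℕ → M),
    (mapS g a).eval S' v ↔ a.eval (fun R => S' (g R)) v
  | rel _ _, _ => Iff.rfl
  | eq _ _, _ => Iff.rfl
  | neg a, v => not_congr (eval_mapS g S' a v)
  | and a b, v => and_congr (eval_mapS g S' a v) (eval_mapS g S' b v)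
  | ex x a, v => exists_congr fun y => eval_mapS g S' a (Function.update v x y)

private theorem eval_congr {S₁ S₂ : ρ → List M → Prop} : ∀ (a : NForm ρ) (v : ℕ → M),
    (∀ R ∈ syms a, S₁ R = S₂ R) → (a.eval S₁ v ↔ a.eval S₂ v)
  | rel R vs, v, h => by
    show S₁ R (vs.map v) ↔ S₂ R (vs.map v)
    rw [h R (by simp [syms])]
  | eq _ _, _, _ => Iff.rfl
  | neg a, v, h => not_congr (eval_congr a v h)
  | and a b, v, h => and_congr (eval_congr a v fun R hR => h R (List.mem_append_left _ hR))
      (eval_congr b v fun R hR => h R (List.mem_append_right _ hR))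
  | ex x a, v, h => exists_congr fun y => eval_congr a (Function.update v x y) h

/-- The symbols can be chosen in `ℕ`. -/
theorem exists_nat (a : NForm ρ) : ∃ a' : NForm ℕ, ∀ M : Type,
    (∃ S : ρ → List M → Prop, ∀ v, a.eval S v) ↔
    ∃ S : ℕ → List M → Prop, ∀ v, a'.eval S v := by
  classical
  refine ⟨mapS (fun R => (syms a).idxOf R) a, fun M => ⟨?_, ?_⟩⟩
  · rintro ⟨S, hS⟩
    refine ⟨fun i => if h : i < (syms a).length then S ((syms a)[i]) else fun _ => False,
      fun v => ?_⟩
    rw [eval_mapS]
    refine (eval_congr a v fun R hR => ?_).1 (hS v)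
    have h1 := List.idxOf_lt_length_of_mem hR
    rw [dif_pos h1, List.getElem_idxOf]
  · rintro ⟨S, hS⟩
    exact ⟨fun R => S ((syms a).idxOf R), fun v => (eval_mapS _ S a v).1 (hS v)⟩

end NForm

end Pool.Agent.Lib.MP_586990_lc
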