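import Pool.Agent.Lib.MP_586990_lc.Rel

set_option autoImplicit false

/-!
# The relations in a position model
-/

namespace Pool.Agent.Lib.MP_586990_lc

variable {M : Type} [PartialOrder M] {P K : ℕ} {pos : M → ℕ}

namespace PM

theorem semi (h : PM M P K pos) : IsSemi M := by
  refine ⟨?_, ?_⟩
  · intro a b c d h1 h2
    rw [h.rel] at h1 h2 ⊢
    rw [h.rel]
    omega
  · intro a b c d h1 h2
    rw [h.rel] at h1 h2 ⊢
    rw [h.rel]
    have := h.K0
    omega

theorem Lt_iff (h : PM M P K pos) {x y : M} : Lt x y ↔ pos x < pos y := by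
  constructor
  · rintro (⟨z, h1, h2⟩ | ⟨z, h1, h2⟩)
    · rw [h.rel] at h1 h2
      omega
    · rw [h.rel] at h1 h2
      omega
  · intro hxy
    have hx := h.lt x
    have hy := h.lt y
    have hKP := h.KP
    by_cases hc : pos x + K < P
    · obtain ⟨z, hz⟩ := h.surj _ hc
      refine Or.inl ⟨z, ?_, ?_⟩
      · rw [h.rel]
        omega
      · rw [h.rel]
        omega
    · obtain ⟨z, hz⟩ := h.surj (pos y - K) (by omega)
      refine Or.inr ⟨z, ?_, ?_⟩
      · rw [h.rel]
        omega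
      · rw [h.rel]
        omega

theorem Eqv_iff (h : PM M P K pos) {x y : M} : Eqv x y ↔ pos x = pos y := by
  unfold Eqv
  rw [h.Lt_iff, h.Lt_iff]
  omega

theorem Suc_iff (h : PM M P K pos) {x y : M} : Suc x y ↔ pos y = pos x + 1 := by
  unfold Suc
  have hy := h.lt y
  constructor
  · rintro ⟨h1, h2⟩
    rw [h.Lt_iff] at h1
    by_contra hne
    obtain ⟨z, hz⟩ := h.surj (pos x + 1) (by omega)
    apply h2
    refine ⟨z, ?_, ?_⟩
    · rw [h.Lt_iff]
      omega
    · rw [h.Lt_iff]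
      omega
  · intro h1
    refine ⟨?_, ?_⟩
    · rw [h.Lt_iff]
      omega
    · rintro ⟨z, h2, h3⟩
      rw [h.Lt_iff] at h2 h3
      omega

theorem Nx_iff (h : PM M P K pos) {x y : M} : Nx x y ↔ pos y = pos x + 2 := by
  unfold Nx
  have hy := h.lt y
  constructor
  · rintro ⟨z, h1, h2⟩
    rw [h.Suc_iff] at h1 h2
    omega
  · intro h1
    obtain ⟨z, hz⟩ := h.surj (pos x + 1) (by omega)
    refine ⟨z, ?_, ?_⟩
    · rw [h.Suc_iff]
      omega
    · rw [h.Suc_iff]
      omega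

theorem Sh_iff (h : PM M P K pos) {x y : M} : Sh x y ↔ pos y = pos x + K := by
  unfold Sh
  have hy := h.lt y
  constructor
  · rintro ⟨h1, h2⟩
    rw [h.rel] at h1
    by_contra hne
    obtain ⟨z, hz⟩ := h.surj (pos x + K) (by omega)
    apply h2
    refine ⟨z, ?_, ?_⟩
    · rw [h.Lt_iff]
      omega
    · rw [h.rel]
      omega
  · intro h1
    refine ⟨?_, ?_⟩
    · rw [h.rel]
      omega
    · rintro ⟨z, h2, h3⟩
      rw [h.Lt_iff] at h2
      rw [h.rel] at h3
      omega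

theorem Sz_iff [Finite M] (h : PM M P K pos) {s : ℕ} {x : M} :
    Sz s x ↔ Nat.card {y : M // pos y = pos x} = s := by
  constructor
  · rintro ⟨g, hg, hgx⟩
    have hmem : ∀ i, pos (g i) = pos x := fun i => by
      have h1 : Eqv (g i) x := (hgx (g i)).2 ⟨i, rfl⟩
      exact h.Eqv_iff.1 h1
    have hb : Function.Bijective (fun i : Fin s => (⟨g i, hmem i⟩ : {y : M // pos y = pos x})) := by
      refine ⟨?_, ?_⟩
      · intro i j hij
        exact hg (congrArg Subtype.val hij)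
      · rintro ⟨y, hy⟩
        obtain ⟨i, hi⟩ := (hgx y).1 (h.Eqv_iff.2 hy)
        exact ⟨i, Subtype.ext hi⟩
    rw [← Nat.card_eq_of_bijective _ hb, Nat.card_fin]
  · intro hs
    let e := Finite.equivFinOfCardEq hs
    refine ⟨fun i => (e.symm i).1, ?_, ?_⟩
    · intro i j hij
      exact e.symm.injective (Subtype.ext hij)
    · intro y
      rw [h.Eqv_iff]
      constructor
      · intro hy
        exact ⟨e ⟨y, hy⟩, by simp⟩
      · rintro ⟨i, hi⟩
        rw [← hi]
        exact (e.symm i).2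

theorem com1 (h : PM M P K pos) {x x' y y' : M} (h1 : Suc x x') (h2 : Sh x y) (h3 : Suc y y') :
    Sh x' y' := by
  rw [h.Suc_iff] at h1 h3
  rw [h.Sh_iff] at h2 ⊢
  omega

theorem com2 (h : PM M P K pos) {x x' y : M} (h1 : Suc x x') (h2 : Sh x y)
    (h3 : ¬ ∃ y', Suc y y') : ¬ ∃ z, x' < z := by
  rw [h.Suc_iff] at h1
  rw [h.Sh_iff] at h2
  rintro ⟨z, hz⟩
  rw [h.rel] at hz
  have hzP := h.lt z
  apply h3
  obtain ⟨y', hy'⟩ := h.surj (pos y + 1) (by omega)
  exact ⟨y', by rw [h.Suc_iff]; omega⟩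

theorem two (h : PM M P K pos) (x : M) : (∃ z, z < x) ∨ ∃ z, x < z := by
  have hx := h.lt x
  have hKP := h.KP
  by_cases hc : pos x < K
  · obtain ⟨z, hz⟩ := h.surj (pos x + K) (by omega)
    refine Or.inr ⟨z, ?_⟩
    rw [h.rel]
    omega
  · obtain ⟨z, hz⟩ := h.surj (pos x - K) (by omega)
    refine Or.inl ⟨z, ?_⟩
    rw [h.rel]
    omega

end PM

end Pool.Agent.Lib.MP_586990_lc
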