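import Pool.Agent.Lib.MP_586990_lc.Rel

set_option autoImplicit false

/-!
# Positions in a finite semiorder
-/

namespace Pool.Agent.Lib.MP_586990_lc

private theorem posn_count {p : ℕ → Prop} [DecidablePred p] (N i : ℕ) (h : i < Nat.count p N) :
    ∃ k, p k ∧ Nat.count p k = i := by
  induction N with
  | zero => simp at h
  | succ N ih =>
    by_cases h' : i < Nat.count p N
    · exact ih h'
    · rw [Nat.count_succ] at h
      by_cases hp : p N
      · exact ⟨N, hp, by rw [if_pos hp] at h; omega⟩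
      · rw [if_neg hp] at h
        omega

private theorem posn_asymm {M : Type} [PartialOrder M] (h : IsSemi M) {x y : M} (hxy : Lt x y) :
    ¬ Lt y x := by
  obtain ⟨h1, h2⟩ := h
  rintro hyx
  rcases hxy with ⟨z, hz, hz'⟩ | ⟨z, hz, hz'⟩ <;> rcases hyx with ⟨w, hw, hw'⟩ | ⟨w, hw, hw'⟩
  · rcases h1 x z y w hz hw with h3 | h3
    · exact hw' h3
    · exact hz' h3
  · rcases h2 w x z y hw hz with h3 | h3
    · exact hw' h3
    · exact hz' h3
  · rcases h2 z y w x hz hw with h3 | h3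
    · exact hz' h3
    · exact hw' h3
  · rcases h1 z y w x hz hw with h3 | h3
    · exact hz' h3
    · exact hw' h3

private theorem posn_neg {M : Type} [PartialOrder M] {x z : M} (y : M) (h : Lt x z) :
    Lt x y ∨ Lt y z := by
  rcases h with ⟨w, hw, hw'⟩ | ⟨w, hw, hw'⟩
  · by_cases h' : y < w
    · exact Or.inr (Or.inl ⟨w, h', hw'⟩)
    · exact Or.inl (Or.inl ⟨w, hw, h'⟩)
  · by_cases h' : w < y
    · exact Or.inl (Or.inr ⟨w, h', hw'⟩)
    · exact Or.inr (Or.inr ⟨w, hw, h'⟩)

private theorem posn_rank {M : Type} [PartialOrder M] [Finite M] (h : IsSemi M) (x y : M) :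
    Lt x y ↔ {z | Lt z x}.ncard < {z | Lt z y}.ncard := by
  constructor
  · intro hxy
    refine Set.ncard_lt_ncard ⟨fun z hz => ?_, fun hs => ?_⟩ (Set.toFinite _)
    · rcases posn_neg y (show Lt z x from hz) with h1 | h1
      · exact h1
      · exact absurd h1 (posn_asymm h hxy)
    · have hx : Lt x x := hs hxy
      exact posn_asymm h hx hx
  · intro hlt
    by_contra hxy
    refine absurd (Set.ncard_le_ncard (fun z hz => ?_) (Set.toFinite {z | Lt z x})) (not_le.2 hlt)
    rcases posn_neg x (show Lt z y from hz) with h1 | h1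
    · exact h1
    · exact absurd h1 hxy

theorem exists_pos {M : Type} [PartialOrder M] [Finite M] (h : IsSemi M) :
    ∃ (P : ℕ) (pos : M → ℕ), (∀ x, pos x < P) ∧ (∀ i, i < P → ∃ x, pos x = i) ∧
      (∀ x y, Lt x y ↔ pos x < pos y) ∧
      ∀ x y z w : M, x < y → pos y ≤ pos z → pos w ≤ pos x → w < z := by
  classical
  obtain ⟨g, hg⟩ : ∃ g : M → ℕ, g = fun x => {z | Lt z x}.ncard := ⟨_, rfl⟩
  have hgl : ∀ x y, Lt x y ↔ g x < g y := fun x y => by
    rw [hg]
    exact posn_rank h x y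
  have hgN : ∀ x, g x < Nat.card M + 1 := fun x => by
    rw [hg]
    exact Nat.lt_succ_of_le (Set.ncard_le_card _)
  obtain ⟨p, hp⟩ : ∃ p : ℕ → Prop, p = fun k => ∃ x, g x = k := ⟨_, rfl⟩
  have hpg : ∀ x, p (g x) := fun x => by
    rw [hp]
    exact ⟨x, rfl⟩
  have hlt : ∀ x y, Lt x y ↔ Nat.count p (g x) < Nat.count p (g y) := by
    intro x y
    rw [hgl]
    constructor
    · intro h1
      exact Nat.count_strict_mono (hpg x) h1
    · intro h1
      by_contra h2
      exact absurd (Nat.count_monotone p (not_lt.1 h2)) (not_le.2 h1)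
  refine ⟨Nat.count p (Nat.card M + 1), fun x => Nat.count p (g x), fun x => ?_, fun i hi => ?_,
    hlt, fun x y z w hxy hyz hwx => ?_⟩
  · exact Nat.count_strict_mono (hpg x) (hgN x)
  · obtain ⟨k, hk, hk'⟩ := posn_count _ _ hi
    rw [hp] at hk
    obtain ⟨x, rfl⟩ := hk
    exact ⟨x, hk'⟩
  · have h1 : ¬ Lt z y := fun h3 => absurd ((hlt z y).1 h3) (not_lt.2 hyz)
    have h2 : ¬ Lt x w := fun h3 => absurd ((hlt x w).1 h3) (not_lt.2 hwx)
    have h3 : x < z := by
      by_contra h4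
      exact h1 (Or.inr ⟨x, hxy, h4⟩)
    by_contra h4
    exact h2 (Or.inl ⟨z, h3, h4⟩)

end Pool.Agent.Lib.MP_586990_lc
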