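import Pool.Agent.Lib.MP_586990_lc.RudSub

set_option autoImplicit false

/-!
# Rudimentary sets: images under `n ↦ c * n ^ q`
-/

namespace Pool.Agent.Lib.MP_586990_lc

theorem Rud.image {A : Set ℕ} (h : Rud A) {c q : ℕ} (hc : 0 < c) (hq : 0 < q) :
    Rud {s | ∃ n ∈ A, 2 ≤ n ∧ s = c * n ^ q} := by
  have h1 : Bd 2 {v : Fin 2 → ℕ | v 0 ∈ A} := by
    have h2 := Bd.subst h (l := 2) fun _ => MvPolynomial.X 0
    simpa using h2
  have h2 : Bd 2 {v : Fin 2 → ℕ | 2 ≤ v 0} := by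
    have h3 := Bd.le 2 (MvPolynomial.C 2) (MvPolynomial.X 0)
    simpa using h3
  have h3 : Bd 2 {v : Fin 2 → ℕ | v 1 ≤ c * v 0 ^ q} := by
    have h4 := Bd.le 2 (MvPolynomial.X 1) (MvPolynomial.C c * MvPolynomial.X 0 ^ q)
    simpa using h4
  have h4 : Bd 2 {v : Fin 2 → ℕ | c * v 0 ^ q ≤ v 1} := by
    have h5 := Bd.le 2 (MvPolynomial.C c * MvPolynomial.X 0 ^ q) (MvPolynomial.X 1)
    simpa using h5
  have h5 := Bd.ex 1 (MvPolynomial.X 0) _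
    (Bd.inter 2 _ _ h1 (Bd.inter 2 _ _ h2 (Bd.inter 2 _ _ h3 h4)))
  unfold Rud
  convert h5 using 1
  ext v
  simp only [Set.mem_ofPred_eq, MvPolynomial.eval_X, Set.mem_inter_iff, Fin.cons_zero,
    Fin.cons_one]
  constructor
  · rintro ⟨n, hn, hn2, hs⟩
    refine ⟨n, ?_, hn, hn2, hs.le, hs.ge⟩
    rw [hs]
    calc n = 1 * n ^ 1 := by ring
      _ ≤ c * n ^ q := Nat.mul_le_mul hc (Nat.pow_le_pow_right (by omega) hq)
  · rintro ⟨n, -, hn, hn2, hs, hs'⟩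
    exact ⟨n, hn, hn2, le_antisymm hs hs'⟩

end Pool.Agent.Lib.MP_586990_lc
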