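import Pool.Agent.Lib.MP_586990_lc.Defs

set_option autoImplicit false

/-!
# Rudimentary sets: closure properties
-/

namespace Pool.Agent.Lib.MP_586990_lc

private theorem rudSub_eval {k l : ℕ} (s : Fin k → MvPolynomial (Fin l) ℕ)
    (p : MvPolynomial (Fin k) ℕ) (v : Fin l → ℕ) :
    MvPolynomial.eval v (MvPolynomial.bind₁ s p) =
      MvPolynomial.eval (fun i => MvPolynomial.eval v (s i)) p :=
  MvPolynomial.eval₂Hom_bind₁ (RingHom.id ℕ) v s p

private theorem rudSub_cons {k l : ℕ} (s : Fin k → MvPolynomial (Fin l) ℕ) (v : Fin l → ℕ)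
    (y : ℕ) :
    (fun i => MvPolynomial.eval (Fin.cons y v : Fin (l + 1) → ℕ)
      ((Fin.cons (MvPolynomial.X 0) (fun i => MvPolynomial.rename Fin.succ (s i)) :
        Fin (k + 1) → MvPolynomial (Fin (l + 1)) ℕ) i)) =
      (Fin.cons y (fun i => MvPolynomial.eval v (s i)) : Fin (k + 1) → ℕ) := by
  funext i
  refine Fin.cases ?_ (fun i => ?_) i
  · rw [Fin.cons_zero, Fin.cons_zero, MvPolynomial.eval_X, Fin.cons_zero]
  · rw [Fin.cons_succ, Fin.cons_succ, MvPolynomial.eval_rename]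
    congr 1

/-- Substitution of polynomials. -/
theorem Bd.subst {k : ℕ} {P : Set (Fin k → ℕ)} (h : Bd k P) {l : ℕ}
    (s : Fin k → MvPolynomial (Fin l) ℕ) :
    Bd l {v | (fun i => MvPolynomial.eval v (s i)) ∈ P} := by
  induction h generalizing l with
  | le k p q =>
    have h1 := Bd.le l (MvPolynomial.bind₁ s p) (MvPolynomial.bind₁ s q)
    simp only [rudSub_eval] at h1
    exact h1
  | compl k P _ ih => exact Bd.compl l _ (ih s)
  | inter k P Q _ _ ih1 ih2 => exact Bd.inter l _ _ (ih1 s) (ih2 s)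
  | ex k p P _ ih =>
    have h1 := Bd.ex l (MvPolynomial.bind₁ s p) _ (ih (Fin.cons (MvPolynomial.X 0)
      (fun i => MvPolynomial.rename Fin.succ (s i))))
    simp only [rudSub_eval] at h1
    have h2 : {v : Fin l → ℕ | (fun i => MvPolynomial.eval v (s i)) ∈
        {v : Fin k → ℕ | ∃ y : ℕ, y ≤ MvPolynomial.eval v p ∧
          (Fin.cons y v : Fin (k + 1) → ℕ) ∈ P}} =
        {v : Fin l → ℕ | ∃ y : ℕ, y ≤ MvPolynomial.eval
          (fun i => MvPolynomial.eval v (s i)) p ∧ (Fin.cons y v : Fin (l + 1) → ℕ) ∈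
          {w | (fun i => MvPolynomial.eval w ((Fin.cons (MvPolynomial.X 0)
            (fun i => MvPolynomial.rename Fin.succ (s i)) :
              Fin (k + 1) → MvPolynomial (Fin (l + 1)) ℕ) i)) ∈ P}} := by
      ext v
      simp only [Set.mem_setOf_eq]
      constructor
      · rintro ⟨y, hy, hP⟩
        refine ⟨y, hy, ?_⟩
        rw [rudSub_cons s v y]
        exact hP
      · rintro ⟨y, hy, hP⟩
        refine ⟨y, hy, ?_⟩
        rw [rudSub_cons s v y] at hP
        exact hP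
    rw [h2]
    exact h1

/-- Rudimentary sets, as in the frozen statement of the problem. -/
theorem rud_iff {A : Set ℕ} : Rud A ↔ ∀ R : (k : ℕ) → Set (Set (Fin k → ℕ)),
    (∀ (k : ℕ) (p q : MvPolynomial (Fin k) ℕ),
      {v : Fin k → ℕ | MvPolynomial.eval v p ≤ MvPolynomial.eval v q} ∈ R k) →
    (∀ (k : ℕ) (P : Set (Fin k → ℕ)), P ∈ R k → Pᶜ ∈ R k) →
    (∀ (k : ℕ) (P Q : Set (Fin k → ℕ)), P ∈ R k → Q ∈ R k → P ∩ Q ∈ R k) →
    (∀ (k : ℕ) (p : MvPolynomial (Fin k) ℕ) (P : Set (Fin (k + 1) → ℕ)), P ∈ R (k + 1) →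
      {v : Fin k → ℕ | ∃ y : ℕ, y ≤ MvPolynomial.eval v p ∧
        (Fin.cons y v : Fin (k + 1) → ℕ) ∈ P} ∈ R k) →
    {v : Fin 1 → ℕ | v 0 ∈ A} ∈ R 1 := by
  constructor
  · intro h R h1 h2 h3 h4
    have key : ∀ (k : ℕ) (P : Set (Fin k → ℕ)), Bd k P → P ∈ R k := by
      intro k P hP
      induction hP with
      | le k p q => exact h1 k p q
      | compl k P _ ih => exact h2 k P ih
      | inter k P Q _ _ ih1 ih2 => exact h3 k P Q ih1 ih2
      | ex k p P _ ih => exact h4 k p P ih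
    exact key 1 _ h
  · intro h
    exact h (fun k => {P | Bd k P}) (fun k p q => Bd.le k p q) (fun k P hP => Bd.compl k P hP)
      (fun k P Q hP hQ => Bd.inter k P Q hP hQ) (fun k p P hP => Bd.ex k p P hP)

theorem Rud.pow {B : Set ℕ} (h : Rud B) (c k : ℕ) : Rud {n | c * n ^ k ∈ B} := by
  have h1 := Bd.subst h (fun _ : Fin 1 =>
    (MvPolynomial.C c * MvPolynomial.X 0 ^ k : MvPolynomial (Fin 1) ℕ))
  simp only [Set.mem_setOf_eq, map_mul, map_pow, MvPolynomial.eval_C, MvPolynomial.eval_X] at h1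
  exact h1

private theorem rudSub_union {k : ℕ} {P Q : Set (Fin k → ℕ)} (hP : Bd k P) (hQ : Bd k Q) :
    Bd k (P ∪ Q) := by
  have h1 := Bd.compl k _ (Bd.inter k _ _ (Bd.compl k _ hP) (Bd.compl k _ hQ))
  have h2 : (Pᶜ ∩ Qᶜ)ᶜ = P ∪ Q := by
    rw [Set.compl_inter, compl_compl, compl_compl]
  rw [h2] at h1
  exact h1

private theorem rudSub_point (i : ℕ) : Bd 1 {v | v 0 = i} := by
  have h1 := Bd.inter 1 _ _ (Bd.le 1 (MvPolynomial.X 0) (MvPolynomial.C i))
    (Bd.le 1 (MvPolynomial.C i) (MvPolynomial.X 0))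
  simp only [MvPolynomial.eval_C, MvPolynomial.eval_X] at h1
  have h2 : {v : Fin 1 → ℕ | v 0 ≤ i} ∩ {v | i ≤ v 0} = {v | v 0 = i} := by
    ext v
    simp only [Set.mem_inter_iff, Set.mem_setOf_eq]
    omega
  rw [h2] at h1
  exact h1

private theorem rudSub_fin (B : Set ℕ) : ∀ m : ℕ, Bd 1 {v | v 0 ∈ B ∧ v 0 < m} := by
  classical
  intro m
  induction m with
  | zero =>
    have h1 := Bd.le 1 (MvPolynomial.C 1) (MvPolynomial.C 0)
    simp only [MvPolynomial.eval_C] at h1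
    have h2 : {v : Fin 1 → ℕ | v 0 ∈ B ∧ v 0 < 0} = {_v : Fin 1 → ℕ | (1 : ℕ) ≤ 0} := by
      ext v
      simp only [Set.mem_setOf_eq]
      constructor
      · rintro ⟨_, h⟩
        omega
      · intro h
        omega
    rw [h2]
    exact h1
  | succ m ih =>
    by_cases hm : m ∈ B
    · have h2 : {v : Fin 1 → ℕ | v 0 ∈ B ∧ v 0 < m + 1} =
          {v | v 0 ∈ B ∧ v 0 < m} ∪ {v | v 0 = m} := by
        ext v
        simp only [Set.mem_union, Set.mem_setOf_eq]
        constructor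
        · rintro ⟨h, h'⟩
          by_cases hv : v 0 = m
          · exact Or.inr hv
          · exact Or.inl ⟨h, by omega⟩
        · rintro (⟨h, h'⟩ | h)
          · exact ⟨h, by omega⟩
          · rw [h]
            exact ⟨hm, by omega⟩
      rw [h2]
      exact rudSub_union ih (rudSub_point m)
    · have h2 : {v : Fin 1 → ℕ | v 0 ∈ B ∧ v 0 < m + 1} = {v | v 0 ∈ B ∧ v 0 < m} := by
        ext v
        simp only [Set.mem_setOf_eq]
        constructor
        · rintro ⟨h, h'⟩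
          refine ⟨h, ?_⟩
          by_contra hv
          have hv' : v 0 = m := by omega
          rw [hv'] at h
          exact hm h
        · rintro ⟨h, h'⟩
          exact ⟨h, by omega⟩
      rw [h2]
      exact ih

/-- Finite changes. -/
theorem Rud.change {A B : Set ℕ} (h : Rud A) (m : ℕ)
    (hAB : ∀ n, m ≤ n → (n ∈ A ↔ n ∈ B)) : Rud B := by
  have h0 := Bd.le 1 (MvPolynomial.C m) (MvPolynomial.X 0)
  simp only [MvPolynomial.eval_C, MvPolynomial.eval_X] at h0
  have h1 := rudSub_union (Bd.inter 1 _ _ h h0) (rudSub_fin B m)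
  have h2 : {v : Fin 1 → ℕ | v 0 ∈ A} ∩ {v | m ≤ v 0} ∪ {v | v 0 ∈ B ∧ v 0 < m} =
      {v : Fin 1 → ℕ | v 0 ∈ B} := by
    ext v
    simp only [Set.mem_union, Set.mem_inter_iff, Set.mem_setOf_eq]
    constructor
    · rintro (⟨h, h'⟩ | ⟨h, _⟩)
      · exact (hAB _ h').1 h
      · exact h
    · intro h
      rcases Nat.lt_or_ge (v 0) m with h' | h'
      · exact Or.inr ⟨h, h'⟩
      · exact Or.inl ⟨(hAB _ h').2 h, h'⟩
  rw [h2] at h1
  exact h1

end Pool.Agent.Lib.MP_586990_lc
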