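import Pool.Agent.Lib.MP_586990_lc.NFBase

set_option autoImplicit false

/-!
# Structures and tables
-/

namespace Pool.Agent.Lib.MP_586990_lc

/-- The symbols of a language. -/
abbrev Sym (L : FirstOrder.Language.{0, 0}) : Type := (Σ l, L.Functions l) ⊕ (Σ l, L.Relations l)

open Classical in
/-- The structure given by tables. -/
noncomputable def ofS {L : FirstOrder.Language.{0, 0}} {M : Type} [Nonempty M]
    (S : Sym L → List M → Prop) : L.Structure M where
  funMap {l} f ys := if h : ∃! y, S (Sum.inl ⟨l, f⟩) (List.ofFn ys ++ [y]) then h.choose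
    else Classical.arbitrary M
  RelMap {l} R ys := S (Sum.inr ⟨l, R⟩) (List.ofFn ys)

/-- The tables of a structure. -/
def graph {L : FirstOrder.Language.{0, 0}} {M : Type} (s : L.Structure M) :
    Sym L → List M → Prop
  | Sum.inl ⟨l, f⟩, xs => ∃ ys : Fin l → M, xs = List.ofFn ys ++ [s.funMap f ys]
  | Sum.inr ⟨l, R⟩, xs => ∃ ys : Fin l → M, xs = List.ofFn ys ∧ s.RelMap R ys

theorem sdefs_graph_inl {L : FirstOrder.Language.{0, 0}} {M : Type} (s : L.Structure M) {l : ℕ}
    (f : L.Functions l) (ys : Fin l → M) (y : M) :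
    graph s (Sum.inl ⟨l, f⟩) (List.ofFn ys ++ [y]) ↔ y = s.funMap f ys := by
  constructor
  · rintro ⟨ys', h⟩
    obtain ⟨h1, h2⟩ := List.append_inj' h rfl
    have h3 : ys = ys' := List.ofFn_injective h1
    rw [h3]
    exact List.singleton_inj.1 h2
  · intro h
    exact ⟨ys, by rw [h]⟩

theorem sdefs_graph_inr {L : FirstOrder.Language.{0, 0}} {M : Type} (s : L.Structure M) {l : ℕ}
    (R : L.Relations l) (ys : Fin l → M) :
    graph s (Sum.inr ⟨l, R⟩) (List.ofFn ys) ↔ s.RelMap R ys := by
  constructor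
  · rintro ⟨ys', h, h'⟩
    have h3 : ys = ys' := List.ofFn_injective h
    rwa [h3]
  · intro h
    exact ⟨ys, rfl, h⟩

/-- The value of a function symbol in the structure given by tables. -/
theorem sdefs_funMap {L : FirstOrder.Language.{0, 0}} {M : Type} [Nonempty M]
    (S : Sym L → List M → Prop) {l : ℕ} (f : L.Functions l) (ys : Fin l → M) (y : M)
    (hy : S (Sum.inl ⟨l, f⟩) (List.ofFn ys ++ [y]))
    (hu : ∀ y', S (Sum.inl ⟨l, f⟩) (List.ofFn ys ++ [y']) → y' = y) :
    (ofS S).funMap f ys = y := by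
  have h : ∃! y, S (Sum.inl ⟨l, f⟩) (List.ofFn ys ++ [y]) := ⟨y, hy, hu⟩
  have h2 : (ofS S).funMap f ys = h.choose := dif_pos h
  rw [h2]
  exact hu _ h.choose_spec.1

theorem ofS_graph {L : FirstOrder.Language.{0, 0}} {M : Type} [Nonempty M] (s : L.Structure M) :
    ofS (graph s) = s := by
  refine FirstOrder.Language.Structure.ext ?_ ?_
  · funext l f ys
    exact sdefs_funMap (graph s) f ys _ ((sdefs_graph_inl s f ys _).2 rfl)
      fun y' h => (sdefs_graph_inl s f ys y').1 h
  · funext l R ys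
    exact propext (sdefs_graph_inr s R ys)

end Pool.Agent.Lib.MP_586990_lc
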