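import Pool.Agent.Lib.MP_586990_lc.SDefs

set_option autoImplicit false

/-!
# Translation of terms
-/

namespace Pool.Agent.Lib.MP_586990_lc

open NForm

/-- The condition: the table of a function symbol is the graph of a function. -/
def sterm_ax {L : FirstOrder.Language.{0, 0}} {l : ℕ} (f : L.Functions l) : NForm (Sym L) :=
  alll (List.range' 0 l) (NForm.ex l (NForm.and
    (NForm.rel (Sum.inl ⟨l, f⟩) (List.range' 0 l ++ [l]))
    (all (l + 1) (imp (NForm.rel (Sum.inl ⟨l, f⟩) (List.range' 0 l ++ [l + 1]))
      (NForm.eq (l + 1) l)))))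

theorem sterm_map {M : Type} {l : ℕ} (ys : Fin l → M) (w : ℕ → M) (v : ℕ → M)
    (hv : ∀ i, i < l → v i = blk 0 l ys w i) : (List.range' 0 l).map v = List.ofFn ys := by
  rw [← map_blk (b := 0) (l := l) (ys := ys) (v := w)]
  refine List.map_congr_left fun i hi => ?_
  refine hv i ?_
  have := List.mem_range'_1.1 hi
  omega

theorem sterm_ax_eval {L : FirstOrder.Language.{0, 0}} {M : Type} {l : ℕ} (f : L.Functions l)
    (S : Sym L → List M → Prop) (w : ℕ → M) : (sterm_ax f).eval S w ↔ ∀ ys : Fin l → M,
      ∃ y, S (Sum.inl ⟨l, f⟩) (List.ofFn ys ++ [y]) ∧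
        ∀ y', S (Sum.inl ⟨l, f⟩) (List.ofFn ys ++ [y']) → y' = y := by
  rw [sterm_ax, eval_alll]
  refine forall_congr' fun ys => ?_
  show (∃ y, _ ∧ _) ↔ _
  refine exists_congr fun y => ?_
  refine and_congr ?_ ?_
  · show S _ ((List.range' 0 l ++ [l]).map _) ↔ _
    rw [List.map_append, sterm_map ys w _ fun i hi => Function.update_of_ne (by omega) _ _]
    simp
  · rw [eval_all]
    refine forall_congr' fun y' => ?_
    rw [eval_imp]
    show (S _ ((List.range' 0 l ++ [l + 1]).map _) → _ = _) ↔ _
    rw [List.map_append, sterm_map ys w _ fun i hi => by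
      rw [Function.update_of_ne (by omega), Function.update_of_ne (by omega)]]
    simp

/-- `a` says that the value of the variable `z` is the value of the term, `x` is the condition that
the tables of the function symbols of the term are graphs of functions. -/
theorem term_nform {L : FirstOrder.Language.{0, 0}} {k : ℕ} (t : L.Term (Empty ⊕ Fin k)) :
    ∀ b z : ℕ, k ≤ b → z < b → ∃ a x : NForm (Sym L),
      (∀ (M : Type) (_ : Nonempty M) (S : Sym L → List M → Prop) (v w : ℕ → M), x.eval S w →
        (a.eval S v ↔ v z = @FirstOrder.Language.Term.realize L M (ofS S) _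
          (Sum.elim Empty.elim fun i : Fin k => v i) t)) ∧
      ∀ (M : Type) (s : L.Structure M) (w : ℕ → M), x.eval (graph s) w := by
  induction t with
  | var e =>
    intro b z _ _
    rcases e with e | i
    · exact e.elim
    · exact ⟨NForm.eq z i, NForm.eq 0 0, fun M _ S v w _ => Iff.rfl, fun M s w => rfl⟩
  | @func l f ts ih =>
    intro b z hkb hzb
    have hi : ∀ i : Fin l, ∃ a x : NForm (Sym L),
      (∀ (M : Type) (_ : Nonempty M) (S : Sym L → List M → Prop) (v w : ℕ → M), x.eval S w →
        (a.eval S v ↔ v (b + i) = @FirstOrder.Language.Term.realize L M (ofS S) _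
          (Sum.elim Empty.elim fun i : Fin k => v i) (ts i))) ∧
      ∀ (M : Type) (s : L.Structure M) (w : ℕ → M), x.eval (graph s) w := fun i =>
      ih i (b + l) (b + i) (by omega) (by omega)
    choose A X hA hX using hi
    refine ⟨exl (List.range' b l) (NForm.and (andl (List.ofFn A))
      (NForm.rel (Sum.inl ⟨l, f⟩) (List.range' b l ++ [z]))),
      NForm.and (andl (List.ofFn X)) (sterm_ax f), ?_, ?_⟩
    · rintro M hM S v w ⟨hx1, hx2⟩
      rw [eval_andl, List.forall_mem_ofFn_iff] at hx1
      rw [sterm_ax_eval] at hx2
      rw [eval_exl]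
      set ys₀ : Fin l → M := fun i => @FirstOrder.Language.Term.realize L M (ofS S) _
          (Sum.elim Empty.elim fun i : Fin k => v i) (ts i) with hys₀
      have key : ∀ ys : Fin l → M, (NForm.and (andl (List.ofFn A))
          (NForm.rel (Sum.inl ⟨l, f⟩) (List.range' b l ++ [z]))).eval S (blk b l ys v) ↔
          ys = ys₀ ∧ S (Sum.inl ⟨l, f⟩) (List.ofFn ys ++ [v z]) := by
        intro ys
        refine and_congr ?_ ?_
        · rw [eval_andl, List.forall_mem_ofFn_iff, funext_iff]
          refine forall_congr' fun i => ?_
          rw [hA i M hM S (blk b l ys v) w (hx1 i)]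
          have e1 : blk b l ys v (b + i) = ys i := by
            rw [blk, dif_pos (by omega)]
            congr 1
            exact Fin.ext (by simp)
          have e2 : (fun i : Fin k => blk b l ys v i) = fun i : Fin k => v i := by
            funext j
            rw [blk, dif_neg (by omega)]
          rw [e1, e2]
        · show S _ ((List.range' b l ++ [z]).map _) ↔ _
          rw [List.map_append, map_blk]
          have e3 : blk b l ys v z = v z := by
            rw [blk, dif_neg (by omega)]
          simp [e3]
      rw [exists_congr key]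
      obtain ⟨y, hy, hu⟩ := hx2 ys₀
      have e4 : @FirstOrder.Language.Term.realize L M (ofS S) _
          (Sum.elim Empty.elim fun i : Fin k => v i) (FirstOrder.Language.Term.func f ts) = y :=
        sdefs_funMap S f ys₀ y hy hu
      rw [e4]
      constructor
      · rintro ⟨ys, rfl, h⟩
        exact hu _ h
      · intro h
        refine ⟨ys₀, rfl, ?_⟩
        rw [h]
        exact hy
    · intro M s w
      refine ⟨?_, ?_⟩
      · rw [eval_andl, List.forall_mem_ofFn_iff]
        exact fun i => hX i M s w
      · rw [sterm_ax_eval]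
        intro ys
        exact ⟨s.funMap f ys, (sdefs_graph_inl s f ys _).2 rfl,
          fun y' h => (sdefs_graph_inl s f ys y').1 h⟩

end Pool.Agent.Lib.MP_586990_lc
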