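import Pool.Agent.Lib.MP_586990_lc.Defs

set_option autoImplicit false

/-!
# The tile system of a normal form

The cell in row `t` and column `j` of the grid with `m = n ^ (q + 1)` rows and columns has the
number `t * m + j`.
-/

namespace Pool.Agent.Lib.MP_586990_lc

/-- The labels of the cell in row `t` and column `j`: first column, last column, first row, last
row, diagonal; `zc b`: `n ^ b` divides `j`; `zr b`: `n ^ b` divides `t`; `mc b`: `n ^ b` divides
`j + 1`; `mr b`: `n ^ b` divides `t + 1`; `e a b`: the digit number `a` of `t` is the digit number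
`b` of `j`; `wc = W j`, `wr = W t`; `acc k`: the condition `D k` holds for `t` and some column
which is at most `j`. -/
structure Lbl (F : NF) where
  fst : Bool
  lst : Bool
  r0 : Bool
  rL : Bool
  dl : Bool
  zc : Fin (F.q + 2) → Bool
  zr : Fin (F.q + 2) → Bool
  mc : Fin (F.q + 2) → Bool
  mr : Fin (F.q + 2) → Bool
  e : Fin (F.q + 1) → Fin (F.q + 1) → Bool
  wc : F.σ
  wr : F.σ
  acc : F.κ → Bool

/-- The condition on one cell. -/
structure CellOk (F : NF) (x : Lbl F) : Prop where
  h1 : ¬ (x.r0 = true ∧ x.rL = true)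
  h2 : x.fst = true → x.r0 = false → x.dl = false
  h3 : x.dl = true → x.zc = x.zr ∧ x.mc = x.mr ∧ x.wc = x.wr
  h4 : x.zc 0 = true ∧ x.zr 0 = true ∧ x.mc 0 = true ∧ x.mr 0 = true
  h5 : x.fst = true → ∀ b, x.zc b = true
  h6 : ∀ b : Fin (F.q + 1), x.mc b.succ = true → x.mc b.castSucc = true
  h7 : x.mc (Fin.last _) = true → x.lst = true
  h8 : x.lst = true → ∀ b, x.mc b = true
  e1 : ∀ a b, x.r0 = true → x.zc b.castSucc = true → x.e a b = x.zc b.succ
  e2 : ∀ a b, x.fst = true → x.zr a.castSucc = true → x.e a b = x.zr a.succ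
  e3 : ∀ b, x.mr 1 = true → x.mc b.castSucc = true → x.e 0 b = x.mc b.succ
  c1 : F.C (fun a b => x.e a b = true) x.wr x.wc
  a1 : x.fst = true → ∀ k, (x.acc k = true ↔ F.D k (fun a b => x.e a b = true) x.wr x.wc)
  a2 : x.lst = true → ∀ k, x.acc k = true

/-- The condition on a cell and the next one. -/
structure HorOk (F : NF) (x y : Lbl F) : Prop where
  h1 : x.lst = y.fst
  h2 : x.r0 = true → y.r0 = true → y.fst = false
  h3 : y.r0 = true → y.dl = false
  h4 : y.fst = false → x.zr = y.zr ∧ x.mr = y.mr ∧ x.wr = y.wr ∧ x.mc = y.zc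
  e1 : y.fst = false → ∀ a b, y.zc (Fin.castSucc b) = false → x.e a b = y.e a b
  a1 : y.fst = false → ∀ k, (y.acc k = true ↔ x.acc k = true ∨
    F.D k (fun a b => y.e a b = true) y.wr y.wc)

/-- The condition on a cell and the cell below it (in the next row). -/
structure VerOk (F : NF) (x y : Lbl F) : Prop where
  h1 : x.fst = y.fst ∧ x.lst = y.lst
  h2 : y.r0 = false ∧ x.rL = false
  h3 : x.zc = y.zc ∧ x.mc = y.mc ∧ x.wc = y.wc
  h4 : x.mr = y.zr
  e1 : ∀ a b, y.zr (Fin.castSucc a) = false → x.e a b = y.e a b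

/-- The condition on a cell and the cell in the next row and the next column. -/
structure DiaOk (F : NF) (x y : Lbl F) : Prop where
  h1 : x.lst = false → x.dl = y.dl
  e1 : x.lst = false → ∀ a b, y.zr (Fin.castSucc a) = true → y.zc (Fin.castSucc b) = true →
    x.e a b = y.e a b

/-- The tile system of a normal form. -/
def tileSys (F : NF) : TileSys (Lbl F) where
  cell := CellOk F
  init x := x.fst = true ∧ x.dl = true
  last x := x.lst = true ∧ x.dl = true
  row0 x := x.r0 = true
  rowL x := x.rL = true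
  hor := HorOk F
  ver := VerOk F
  dia := DiaOk F

instance (F : NF) : Finite (Lbl F) := by
  have := F.fσ
  have := F.fκ
  refine Finite.of_injective (β := (Bool × Bool × Bool × Bool × Bool) ×
    ((Fin (F.q + 2) → Bool) × (Fin (F.q + 2) → Bool) × (Fin (F.q + 2) → Bool) ×
      (Fin (F.q + 2) → Bool)) × (Fin (F.q + 1) → Fin (F.q + 1) → Bool) × F.σ × F.σ ×
      (F.κ → Bool))
    (fun x => ((x.fst, x.lst, x.r0, x.rL, x.dl), (x.zc, x.zr, x.mc, x.mr), x.e, x.wc, x.wr,
      x.acc)) ?_
  intro x y h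
  cases x
  cases y
  simp only [Prod.mk.injEq] at h
  obtain ⟨⟨h1, h2, h3, h4, h5⟩, ⟨h6, h7, h8, h9⟩, h10, h11, h12, h13⟩ := h
  simp only [h1, h2, h3, h4, h5, h6, h7, h8, h9, h10, h11, h12, h13]

end Pool.Agent.Lib.MP_586990_lc
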