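import Pool.Agent.Lib.MP_586990_lc.TDefs

set_option autoImplicit false

/-!
# The tile system of a normal form: geometry of the grid
-/

namespace Pool.Agent.Lib.MP_586990_lc

variable {F : NF} {N m : ℕ} {f : ℕ → Lbl F}

private theorem TGeo_r0 (h : (tileSys F).Sat N m f) {k : ℕ} (hk : k < N) :
    (f k).r0 = true ↔ k < m := by
  constructor
  · intro h1
    by_contra h2
    have h3 := h.ver (k - m) (by omega)
    rw [show k - m + m = k by omega] at h3
    have h4 : (f k).r0 = false := (VerOk.h2 h3).1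
    rw [h4] at h1
    exact Bool.noConfusion h1
  · intro h1
    exact h.row0 k h1

private theorem TGeo_fst (h : (tileSys F).Sat N m f) : ∀ k : ℕ, k < N →
    ((f k).fst = true ↔ k % m = 0) := by
  intro k
  induction k using Nat.strong_induction_on with
  | _ k ih =>
    intro hk
    have hm := h.pos
    rcases Nat.lt_or_ge k m with h1 | h1
    · rw [Nat.mod_eq_of_lt h1]
      rcases Nat.eq_zero_or_pos k with h2 | h2
      · subst h2
        exact ⟨fun _ => rfl, fun _ => h.init.1⟩
      · have h3 := h.hor (k - 1) (by omega)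
        rw [show k - 1 + 1 = k by omega] at h3
        have h4 : (f k).fst = false :=
          HorOk.h2 h3 (h.row0 (k - 1) (by omega)) (h.row0 k h1)
        rw [h4]
        exact ⟨fun h5 => Bool.noConfusion h5, fun h5 => by omega⟩
    · have h2 := h.ver (k - m) (by omega)
      rw [show k - m + m = k by omega] at h2
      have h3 : (f (k - m)).fst = (f k).fst := (VerOk.h1 h2).1
      rw [← h3, ih (k - m) (by omega) (by omega), ← Nat.mod_eq_sub_mod h1]

private theorem TGeo_dvd (h : (tileSys F).Sat N m f) : N % m = 0 := by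
  have hm := h.pos
  have hle := h.le
  have h1 : (f (N - 1)).lst = true := h.last.1
  have h2 := h.ver (N - 1 - m) (by omega)
  rw [show N - 1 - m + m = N - 1 by omega] at h2
  have h3 : (f (N - 1 - m)).lst = (f (N - 1)).lst := (VerOk.h1 h2).2
  have h4 := h.hor (N - 1 - m) (by omega)
  rw [show N - 1 - m + 1 = N - m by omega] at h4
  have h5 : (f (N - 1 - m)).lst = (f (N - m)).fst := HorOk.h1 h4
  rw [h3, h1] at h5
  have h6 := (TGeo_fst h (N - m) (by omega)).1 h5.symm
  rw [Nat.mod_eq_sub_mod (by omega)]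
  exact h6

private theorem TGeo_lst (h : (tileSys F).Sat N m f) {k : ℕ} (hk : k < N) :
    (f k).lst = true ↔ (k + 1) % m = 0 := by
  have hm := h.pos
  have hle := h.le
  rcases Nat.lt_or_ge (k + 1) N with h1 | h1
  · have h2 : (f k).lst = (f (k + 1)).fst := HorOk.h1 (h.hor k h1)
    rw [h2]
    exact TGeo_fst h (k + 1) h1
  · have h2 : k = N - 1 := by omega
    subst h2
    rw [show N - 1 + 1 = N by omega]
    exact ⟨fun _ => TGeo_dvd h, fun _ => h.last.1⟩

private theorem TGeo_mod {t j : ℕ} (hj : j < m) : (t * m + j) % m = j := by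
  rw [Nat.mul_comm, Nat.mul_add_mod, Nat.mod_eq_of_lt hj]

private theorem TGeo_mod1 {t j : ℕ} (hj : j < m) : (t * m + j + 1) % m = 0 ↔ j + 1 = m := by
  rw [Nat.add_assoc, Nat.mul_comm, Nat.mul_add_mod]
  constructor
  · intro h1
    by_contra h2
    rw [Nat.mod_eq_of_lt (by omega)] at h1
    omega
  · intro h1
    rw [h1, Nat.mod_self]

private theorem TGeo_lt {R t j : ℕ} (ht : t < R) (hj : j < m) : t * m + j < m * R := by
  have h1 : (t + 1) * m ≤ R * m := Nat.mul_le_mul_right m ht
  rw [Nat.mul_comm m R]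
  rw [Nat.succ_mul] at h1
  omega

private theorem TGeo_dl (h : (tileSys F).Sat N m f) {R : ℕ} (hR : N = m * R) :
    ∀ t j : ℕ, t < R → j < m → ((f (t * m + j)).dl = true ↔ t = j) := by
  intro t
  induction t with
  | zero =>
    intro j ht hj
    have hlt : 0 * m + j < m * R := TGeo_lt ht hj
    rw [Nat.zero_mul, Nat.zero_add] at hlt ⊢
    rcases Nat.eq_zero_or_pos j with h2 | h2
    · subst h2
      exact ⟨fun _ => rfl, fun _ => h.init.2⟩
    · have h3 := h.hor (j - 1) (by omega)
      rw [show j - 1 + 1 = j by omega] at h3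
      have h4 : (f j).dl = false := HorOk.h3 h3 (h.row0 j hj)
      rw [h4]
      exact ⟨fun h5 => Bool.noConfusion h5, fun h5 => by omega⟩
  | succ t ih =>
    intro j ht hj
    have hlt : (t + 1) * m + j < m * R := TGeo_lt ht hj
    have hge : m ≤ (t + 1) * m := Nat.le_mul_of_pos_left m (Nat.succ_pos t)
    rcases Nat.eq_zero_or_pos j with h2 | h2
    · subst h2
      have h3 : (f ((t + 1) * m + 0)).fst = true :=
        (TGeo_fst h _ (by omega)).2 (TGeo_mod hj)
      have h4 : (f ((t + 1) * m + 0)).r0 = false := by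
        rw [← Bool.not_eq_true, TGeo_r0 h (by omega)]
        omega
      have h5 : (f ((t + 1) * m + 0)).dl = false := CellOk.h2 (h.cell _ (by omega)) h3 h4
      rw [h5]
      exact ⟨fun h5 => Bool.noConfusion h5, fun h5 => by omega⟩
    · obtain ⟨i, rfl⟩ : ∃ i, j = i + 1 := ⟨j - 1, by omega⟩
      have he : (t + 1) * m + (i + 1) = t * m + i + m + 1 := by
        rw [Nat.succ_mul]
        omega
      have h3 := h.dia (t * m + i) (by omega)
      rw [← he] at h3
      have h4 : (f (t * m + i)).lst = false := by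
        rw [← Bool.not_eq_true, TGeo_lst h (by omega), TGeo_mod1 (by omega)]
        omega
      have h5 : (f (t * m + i)).dl = (f ((t + 1) * m + (i + 1))).dl := DiaOk.h1 h3 h4
      rw [← h5, ih i (by omega) (by omega)]
      omega

/-- The grid is a square, the marks of the border and the diagonal are correct. -/
theorem tile_geo (h : (tileSys F).Sat N m f) : 2 ≤ m ∧ N = m * m ∧
    ∀ t j, t < m → j < m → ((f (t * m + j)).fst = true ↔ j = 0) ∧
      ((f (t * m + j)).lst = true ↔ j + 1 = m) ∧ ((f (t * m + j)).r0 = true ↔ t = 0) ∧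
      ((f (t * m + j)).dl = true ↔ t = j) := by
  have hm := h.pos
  have hle := h.le
  obtain ⟨R, hR⟩ := Nat.dvd_of_mod_eq_zero (TGeo_dvd h)
  have hR2 : 2 ≤ R := by
    rw [hR, Nat.mul_comm 2 m] at hle
    exact Nat.le_of_mul_le_mul_left hle hm
  have hRm : R = m := by
    have h1 : (f (N - 1)).dl = true := h.last.2
    have h2 : N - 1 = (R - 1) * m + (m - 1) := by
      obtain ⟨r, rfl⟩ : ∃ r, R = r + 1 := ⟨R - 1, by omega⟩
      rw [hR, Nat.mul_succ, Nat.add_sub_cancel, Nat.mul_comm r m]
      omega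
    rw [h2, TGeo_dl h hR (R - 1) (m - 1) (by omega) (by omega)] at h1
    omega
  subst hRm
  refine ⟨hR2, hR, fun t j ht hj => ?_⟩
  have hlt : t * R + j < N := by
    rw [hR]
    exact TGeo_lt ht hj
  refine ⟨?_, ?_, ?_, TGeo_dl h hR t j ht hj⟩
  · rw [TGeo_fst h _ hlt, TGeo_mod hj]
  · rw [TGeo_lst h hlt, TGeo_mod1 hj]
  · rw [TGeo_r0 h hlt]
    constructor
    · intro h1
      by_contra h2
      have h3 : R ≤ t * R := Nat.le_mul_of_pos_left R (Nat.pos_of_ne_zero h2)
      omega
    · rintro rfl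
      omega

private theorem TGeo_col (h : (tileSys F).Sat N m f) (hN : N = m * m) {j : ℕ} (hj : j < m) :
    ∀ t, t < m → (f (t * m + j)).zc = (f j).zc ∧ (f (t * m + j)).mc = (f j).mc ∧
      (f (t * m + j)).wc = (f j).wc := by
  intro t
  induction t with
  | zero =>
    intro _
    rw [Nat.zero_mul, Nat.zero_add]
    exact ⟨rfl, rfl, rfl⟩
  | succ t ih =>
    intro ht
    have hlt : (t + 1) * m + j < m * m := TGeo_lt ht hj
    have he : (t + 1) * m + j = t * m + j + m := by
      rw [Nat.succ_mul]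
      omega
    have h3 := h.ver (t * m + j) (by omega)
    rw [← he] at h3
    obtain ⟨h4, h5, h6⟩ := VerOk.h3 h3
    obtain ⟨i1, i2, i3⟩ := ih (by omega)
    exact ⟨h4.symm.trans i1, h5.symm.trans i2, h6.symm.trans i3⟩

private theorem TGeo_row (h : (tileSys F).Sat N m f) (hN : N = m * m) {t : ℕ} (ht : t < m) :
    ∀ j, j < m → (f (t * m + j)).zr = (f (t * m)).zr ∧ (f (t * m + j)).mr = (f (t * m)).mr ∧
      (f (t * m + j)).wr = (f (t * m)).wr := by
  intro j
  induction j with
  | zero =>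
    intro _
    exact ⟨rfl, rfl, rfl⟩
  | succ j ih =>
    intro hj
    have hlt : t * m + (j + 1) < m * m := TGeo_lt ht hj
    have h3 := h.hor (t * m + j) (by omega)
    have h4 : (f (t * m + j + 1)).fst = false := by
      rw [← Bool.not_eq_true, TGeo_fst h _ (by omega), Nat.add_assoc, TGeo_mod hj]
      omega
    obtain ⟨h5, h6, h7, _⟩ := HorOk.h4 h3 h4
    obtain ⟨i1, i2, i3⟩ := ih (by omega)
    rw [← Nat.add_assoc]
    exact ⟨h5.symm.trans i1, h6.symm.trans i2, h7.symm.trans i3⟩

/-- The column data and the row data are constant. -/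
theorem tile_cols (h : (tileSys F).Sat N m f) {t j : ℕ} (ht : t < m) (hj : j < m) :
    (f (t * m + j)).zc = (f j).zc ∧ (f (t * m + j)).mc = (f j).mc ∧
    (f (t * m + j)).wc = (f j).wc ∧ (f (t * m + j)).zr = (f t).zc ∧
    (f (t * m + j)).mr = (f t).mc ∧ (f (t * m + j)).wr = (f t).wc := by
  obtain ⟨_, hN, hg⟩ := tile_geo h
  obtain ⟨c1, c2, c3⟩ := TGeo_col h hN hj t ht
  obtain ⟨d1, d2, d3⟩ := TGeo_col h hN ht t ht
  obtain ⟨r1, r2, r3⟩ := TGeo_row h hN ht j hj
  obtain ⟨s1, s2, s3⟩ := TGeo_row h hN ht t ht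
  have hlt : t * m + t < N := by
    rw [hN]
    exact TGeo_lt ht ht
  obtain ⟨e1, e2, e3⟩ := CellOk.h3 (h.cell _ hlt) ((hg t t ht ht).2.2.2.2 rfl)
  exact ⟨c1, c2, c3, r1.trans (s1.symm.trans (e1.symm.trans d1)),
    r2.trans (s2.symm.trans (e2.symm.trans d2)), r3.trans (s3.symm.trans (e3.symm.trans d3))⟩

end Pool.Agent.Lib.MP_586990_lc
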