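import Pool.Agent.Lib.MP_586990_lc.TGeo

set_option autoImplicit false

/-!
# The tile system of a normal form: the marks of the powers of `n`
-/

namespace Pool.Agent.Lib.MP_586990_lc

variable {F : NF} {N m : ℕ} {f : ℕ → Lbl F}

/-- The marks of the powers of `n` in an abstract form. -/
private theorem TMark_core {q m : ℕ} (hm : 2 ≤ m) (Z M : Fin (q + 2) → ℕ → Bool)
    (E : Fin (q + 1) → ℕ → ℕ → Bool)
    (hM0 : ∀ j, j < m → M 0 j = true) (hZb : ∀ b, Z b 0 = true)
    (hMl : ∀ b, M b (m - 1) = true)
    (hMZ : ∀ b j, j + 1 < m → M b j = Z b (j + 1))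
    (h6 : ∀ (b : Fin (q + 1)) j, j < m → M b.succ j = true → M b.castSucc j = true)
    (h7 : ∀ j, j < m → M (Fin.last _) j = true → j + 1 = m)
    (e1 : ∀ (b : Fin (q + 1)) j, j < m → Z b.castSucc j = true → E b 0 j = Z b.succ j)
    (e2 : ∀ b t, t < m → E b t 0 = Z 1 t)
    (e3 : ∀ (b : Fin (q + 1)) t j, t < m → j < m → M 1 t = true → M b.castSucc j = true →
      E b t j = M b.succ j)
    (hh : ∀ (b : Fin (q + 1)) t j, t < m → j + 1 < m → Z b.castSucc (j + 1) = false →
      E b t j = E b t (j + 1))
    (hd : ∀ (b : Fin (q + 1)) t j, t + 1 < m → j + 1 < m → Z b.castSucc (j + 1) = true →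
      E b t j = E b (t + 1) (j + 1)) :
    ∃ n, 2 ≤ n ∧ m = n ^ (q + 1) ∧ ∀ (b : Fin (q + 2)) (j : ℕ), j < m →
      (Z b j = true ↔ n ^ (b : ℕ) ∣ j) ∧ (M b j = true ↔ n ^ (b : ℕ) ∣ j + 1) := by
  classical
  have hex : ∃ j, j < m ∧ M 1 j = true := ⟨m - 1, by omega, hMl 1⟩
  obtain ⟨T, ⟨hTm, hT1⟩, hTmin⟩ : ∃ T, (T < m ∧ M 1 T = true) ∧
      ∀ j, j < T → ¬ (j < m ∧ M 1 j = true) :=
    ⟨Nat.find hex, Nat.find_spec hex, fun j hj => Nat.find_min hex hj⟩
  have hTf : ∀ j, j < T → M 1 j = false := by
    intro j hj
    have h1 := hTmin j hj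
    cases h2 : M 1 j with
    | false => rfl
    | true => exact absurd ⟨by omega, h2⟩ h1
  have hZP : ∀ b : Fin (q + 2), (∀ j, j < m → (M b j = true ↔ (T + 1) ^ (b : ℕ) ∣ j + 1)) →
      ∀ j, j < m → (Z b j = true ↔ (T + 1) ^ (b : ℕ) ∣ j) := by
    intro b hb j hj
    cases j with
    | zero => simp [hZb b]
    | succ j => rw [← hMZ b j hj, hb j (by omega)]
  have hP : ∀ b : Fin (q + 2), ∀ j, j < m → (M b j = true ↔ (T + 1) ^ (b : ℕ) ∣ j + 1) := by
    intro b
    induction b using Fin.induction with
    | zero =>
      intro j hj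
      simp [hM0 j hj]
    | succ b ih =>
      have hZ := hZP b.castSucc ih
      rw [Fin.val_castSucc] at ih hZ
      rw [Fin.val_succ]
      set B : ℕ := (T + 1) ^ (b : ℕ) with hB
      have hB0 : 0 < B := by positivity
      -- constant inside the blocks
      have blk : ∀ t, t < m → ∀ J r, r < B → J * B + r < m → E b t (J * B + r) = E b t (J * B) := by
        intro t ht J r
        induction r with
        | zero => intro _ _; rfl
        | succ r ihr =>
          intro hr hm'
          rw [← ihr (by omega) (by omega)]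
          refine (hh b t (J * B + r) ht (by omega) ?_).symm
          have h1 := hZ (J * B + r + 1) (by omega)
          cases h2 : Z b.castSucc (J * B + r + 1) with
          | false => rfl
          | true =>
            have h3 := h1.1 h2
            have h4 : B ∣ r + 1 := by
              have : J * B + r + 1 = B * J + (r + 1) := by ring
              rw [this] at h3
              exact (Nat.dvd_add_right (Dvd.intro _ rfl)).1 h3
            exact absurd h4 (Nat.not_dvd_of_pos_of_lt (by omega) hr)
      have diag : ∀ t J, t + 1 < m → (J + 1) * B < m →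
          E b (t + 1) ((J + 1) * B) = E b t (J * B) := by
        intro t J ht hJ
        have e : (J + 1) * B = J * B + (B - 1) + 1 := by
          rw [add_mul, one_mul]
          omega
        rw [e] at hJ ⊢
        rw [← blk t (by omega) J (B - 1) (by omega) (by omega)]
        refine (hd b t _ ht hJ ?_).symm
        rw [hZ _ hJ, ← e]
        exact Dvd.intro_left _ rfl
      have down : ∀ J t, t < m → J * B < m → J ≤ t → E b t (J * B) = Z 1 (t - J) := by
        intro J
        induction J with
        | zero =>
          intro t ht _ _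
          rw [zero_mul, Nat.sub_zero]
          exact e2 b t ht
        | succ J ihJ =>
          intro t ht hJ hJt
          obtain ⟨s, rfl⟩ : ∃ s, t = s + 1 := ⟨t - 1, by omega⟩
          rw [diag s J ht hJ, ihJ s (by omega) ?_ (by omega)]
          · congr 1
            omega
          · rw [add_mul] at hJ
            omega
      have up : ∀ t J, t < m → J * B < m → t ≤ J → E b t (J * B) = E b 0 ((J - t) * B) := by
        intro t
        induction t with
        | zero => intro J _ _ _; rfl
        | succ t iht =>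
          intro J ht hJ htJ
          obtain ⟨K, rfl⟩ : ∃ K, J = K + 1 := ⟨J - 1, by omega⟩
          rw [diag t K ht hJ, iht K (by omega) ?_ (by omega)]
          · congr 2
            omega
          · rw [add_mul] at hJ
            omega
      have main : ∀ J, (J + 1) * B ≤ m →
          (M b.succ ((J + 1) * B - 1) = true ↔ T + 1 ∣ J + 1) := by
        intro J
        induction J using Nat.strong_induction_on with
        | _ J ihJ =>
          intro hJ
          have e : (J + 1) * B = J * B + B := by ring
          have e' : (J + 1) * B - 1 = J * B + (B - 1) := by omega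
          have hj : (J + 1) * B - 1 < m := by omega
          have hMb : M b.castSucc ((J + 1) * B - 1) = true := by
            rw [ih _ hj]
            have : (J + 1) * B - 1 + 1 = (J + 1) * B := by omega
            rw [this]
            exact Dvd.intro_left _ rfl
          rw [← e3 b T _ hTm hj hT1 hMb, e', blk T hTm J (B - 1) (by omega) (by omega)]
          rcases lt_or_ge J T with hJT | hJT
          · rw [down J T hTm (by omega) hJT.le]
            obtain ⟨s, hs⟩ : ∃ s, T - J = s + 1 := ⟨T - J - 1, by omega⟩
            rw [hs, ← hMZ 1 s (by omega), hTf s (by omega)]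
            constructor
            · intro h
              exact absurd h (by decide)
            · intro h
              exact absurd h (Nat.not_dvd_of_pos_of_lt (by omega) (by omega))
          · rw [up T J hTm (by omega) hJT]
            have h1 : (J - T) * B ≤ J * B := Nat.mul_le_mul_right _ (by omega)
            rw [e1 b _ (by omega) ((hZ _ (by omega)).2 (Dvd.intro_left _ rfl))]
            rcases Nat.eq_or_lt_of_le hJT with h2 | h2
            · subst h2
              rw [Nat.sub_self, zero_mul]
              simp [hZb]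
            · obtain ⟨K, hK⟩ : ∃ K, J - T = K + 1 := ⟨J - T - 1, by omega⟩
              rw [hK] at h1 ⊢
              have hK1 : 1 ≤ (K + 1) * B := Nat.mul_pos (by omega) hB0
              obtain ⟨s, hs⟩ : ∃ s, (K + 1) * B = s + 1 := ⟨(K + 1) * B - 1, by omega⟩
              have h3 := ihJ K (by omega) (by omega)
              rw [hs, Nat.add_sub_cancel] at h3
              rw [hs, ← hMZ b.succ s (by omega), h3]
              have h4 : J + 1 = K + 1 + (T + 1) := by omega
              rw [h4, Nat.dvd_add_self_right]
      intro j hj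
      by_cases hdv : B ∣ j + 1
      · obtain ⟨c, hc⟩ := hdv
        obtain ⟨J, rfl⟩ : ∃ J, c = J + 1 := ⟨c - 1, by
          rcases Nat.eq_zero_or_pos c with h | h
          · subst h
            omega
          · omega⟩
        have h1 : j = (J + 1) * B - 1 := by
          rw [mul_comm]
          omega
        have h2 := main J (by rw [mul_comm]; omega)
        rw [← h1] at h2
        rw [h2, hc, pow_succ]
        exact (Nat.mul_dvd_mul_iff_left hB0).symm
      · constructor
        · intro h
          exact absurd ((ih j hj).1 (h6 b j hj h)) hdv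
        · intro h
          exact absurd ((pow_dvd_pow _ (Nat.le_succ _)).trans h) hdv
  have hlast : M (Fin.last (q + 1)) (m - 1) = true ↔ (T + 1) ^ (q + 1) ∣ m - 1 + 1 :=
    hP (Fin.last (q + 1)) (m - 1) (by omega)
  have hdv : (T + 1) ^ (q + 1) ∣ m := by
    have h1 := hlast.1 (hMl _)
    have h2 : m - 1 + 1 = m := by omega
    rwa [h2] at h1
  have hle : (T + 1) ^ (q + 1) ≤ m := Nat.le_of_dvd (by omega) hdv
  have hpos : 0 < (T + 1) ^ (q + 1) := by positivity
  have heq : (T + 1) ^ (q + 1) = m := by
    have h1 : M (Fin.last (q + 1)) ((T + 1) ^ (q + 1) - 1) = true := by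
      rw [hP _ _ (by omega)]
      have h2 : (T + 1) ^ (q + 1) - 1 + 1 = (T + 1) ^ (q + 1) := by omega
      rw [h2]
      exact dvd_refl _
    have h2 := h7 _ (by omega) h1
    omega
  refine ⟨T + 1, ?_, heq.symm, fun b j hj => ⟨hZP b (hP b) j hj, hP b j hj⟩⟩
  by_contra hcon
  have hT0 : T = 0 := by omega
  subst hT0
  rw [zero_add, one_pow] at heq
  omega

theorem tile_marks (h : (tileSys F).Sat N m f) : ∃ n, 2 ≤ n ∧ m = n ^ (F.q + 1) ∧
    ∀ (b : Fin (F.q + 2)) (j : ℕ), j < m → ((f j).zc b = true ↔ n ^ (b : ℕ) ∣ j) ∧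
      ((f j).mc b = true ↔ n ^ (b : ℕ) ∣ j + 1) := by
  obtain ⟨hm, hN, hgeo⟩ := tile_geo h
  have hlt : ∀ t j, t < m → j < m → t * m + j < N := by
    intro t j ht hj
    rw [hN]
    calc t * m + j < t * m + m := by omega
      _ = (t + 1) * m := by ring
      _ ≤ m * m := Nat.mul_le_mul_right _ ht
  have hgeo0 : ∀ j, j < m → ((f j).fst = true ↔ j = 0) ∧ ((f j).lst = true ↔ j + 1 = m) ∧
      (f j).r0 = true := by
    intro j hj
    have h1 := hgeo 0 j (by omega) hj
    rw [zero_mul, zero_add] at h1
    exact ⟨h1.1, h1.2.1, h1.2.2.1.2 rfl⟩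
  have hltj : ∀ j, j < m → j < N := by
    intro j hj
    have := hlt 0 j (by omega) hj
    omega
  have hcell : ∀ t j, t < m → j < m → CellOk F (f (t * m + j)) := fun t j ht hj =>
    h.cell _ (hlt t j ht hj)
  have hcell0 : ∀ j, j < m → CellOk F (f j) := fun j hj => h.cell _ (hltj j hj)
  have hhor : ∀ t j, t < m → j + 1 < m → HorOk F (f (t * m + j)) (f (t * m + (j + 1))) := by
    intro t j ht hj
    exact h.hor (t * m + j) (hlt t (j + 1) ht hj)
  have hdia : ∀ t j, t + 1 < m → j + 1 < m →
      DiaOk F (f (t * m + j)) (f ((t + 1) * m + (j + 1))) := by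
    intro t j ht hj
    have h1 := hlt (t + 1) (j + 1) ht hj
    have e : (t + 1) * m + (j + 1) = t * m + j + m + 1 := by ring
    rw [e] at h1 ⊢
    exact h.dia (t * m + j) h1
  refine TMark_core hm (fun b j => (f j).zc b) (fun b j => (f j).mc b)
    (fun b t j => (f (t * m + j)).e 0 b) ?_ ?_ ?_ ?_ ?_ ?_ ?_ ?_ ?_ ?_ ?_
  · intro j hj
    exact (hcell0 j hj).h4.2.2.1
  · intro b
    exact (hcell0 0 (by omega)).h5 ((hgeo0 0 (by omega)).1.2 rfl) b
  · intro b
    exact (hcell0 (m - 1) (by omega)).h8 ((hgeo0 (m - 1) (by omega)).2.1.2 (by omega)) b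
  · intro b j hj
    have h1 := hhor 0 j (by omega) hj
    rw [zero_mul, zero_add, zero_add] at h1
    have h2 : (f (j + 1)).fst = false := by
      have h3 := (hgeo0 (j + 1) hj).1
      cases h4 : (f (j + 1)).fst with
      | false => rfl
      | true => exact absurd (h3.1 h4) (by omega)
    exact congrFun (h1.h4 h2).2.2.2 b
  · intro b j hj
    exact (hcell0 j hj).h6 b
  · intro j hj h1
    exact (hgeo0 j hj).2.1.1 ((hcell0 j hj).h7 h1)
  · intro b j hj h1
    have h2 := (hcell0 j hj).e1 0 b (hgeo0 j hj).2.2 h1
    simpa using h2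
  · intro b t ht
    have h1 := hcell t 0 ht (by omega)
    have h2 := tile_cols h ht (show 0 < m by omega)
    have h3 := h1.e2 0 b ((hgeo t 0 ht (by omega)).1.2 rfl) h1.h4.2.1
    rw [h3, h2.2.2.2.1]
    rfl
  · intro b t j ht hj h1 h2
    have h3 := tile_cols h ht hj
    have h4 := (hcell t j ht hj).e3 b (by rw [h3.2.2.2.2.1]; exact h1)
      (by rw [h3.2.1]; exact h2)
    rw [h4, h3.2.1]
  · intro b t j ht hj h1
    have h3 := tile_cols h ht hj
    refine (hhor t j ht hj).e1 ?_ 0 b ?_
    · have h5 := (hgeo t (j + 1) ht hj).1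
      cases h6 : (f (t * m + (j + 1))).fst with
      | false => rfl
      | true => exact absurd (h5.1 h6) (by omega)
    · rw [h3.1]
      exact h1
  · intro b t j ht hj h1
    have h3 := tile_cols h ht hj
    refine (hdia t j ht hj).e1 ?_ 0 b ?_ ?_
    · have h5 := (hgeo t j (by omega) (by omega)).2.1
      cases h6 : (f (t * m + j)).lst with
      | false => rfl
      | true => exact absurd (h5.1 h6) (by omega)
    · exact (hcell (t + 1) (j + 1) ht hj).h4.2.1
    · rw [h3.1]
      exact h1

end Pool.Agent.Lib.MP_586990_lc
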